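import Pool.Agent.ST5.Q.U8a

/-!
ST6 row U8. The operator P is an isometry for a ≥ 1.

PROOF. N f := ∑_k (d k)⁻¹ Tr (a k + a W) (star (f k) * f k). Claim N (P f) = N f.
 g = gv k l s, g' = gv k' l s'. star ((P f) l) * (P f) l = ∑_{k',s'} ∑_{k,s} star g' * rp 2 (star (f k')) * rp (2a) (g' * star g) * rp 2 (f k) * g
 = ∑ star g' * rp 2 F * g with F = star (f k') * rp (2a-2) (g' * star g) * f k ∈ H (a k + a W) (a k' + a W)
 (a ≥ 1: rp (2a) y = rp 2 (rp (2a-2) y)). By `Tr_comm` (star g' ∈ H (a k' + 2 + a W) (a l + a W)):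
 Tr (a l + a W) (star g' * rp 2 F * g) = Tr (a k' + a W + 2) (rp 2 F * (g * star g')), by `Tr_left2`
 = Tr (a k' + a W) (star (R 2) * rp 4 F * rp 2 (g * star g') * R 2) = Tr (F * (star (R 2) * rp 2 (g * star g') * R 2)) (`slide'`),
 which is 0 unless k = k', s = s' (`left_close_gv_ne`, `left_close_gv`), and then (d l / d k) Tr (F * p k), F * p k = F
 (f k * p k = f k). Sum: N (P f) = ∑_l (d l)⁻¹ ∑_k ∑_s (d l / d k) Tr (a k + a W) (star (f k) * rp (2a-2) (g * star g) * f k)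
 = ∑_k (d k)⁻¹ Tr (star (f k) * rp (2a-2) (∑_l ∑_s g * star g) * f k) = ∑_k (d k)⁻¹ Tr (star (f k) * f k), because
 ∑_l ∑_s g * star g = rp 2 (p k) (`(gv_fam k).complete`) and rp (2a-2) (rp 2 (p k)) * f k = rp (2a) (p k) * f k = f k.
 (z y = y for y = rp 2 F * (g * star g'): everything is a product of elements fixed by z, z central.)
`PP_eigen`: N (μ f) = |μ|² N f, and N f ≠ 0 for f ≠ 0: each term is real ≥ 0, positive if f k ≠ 0 (`Tr_pos`; z * f k = f k by `Hom_z`).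
-/

namespace Pool.Agent.ST5

namespace SubfactorPlanarAlgebra

namespace SimpleSystem

variable {T : Type*} [Ring T] [StarRing T] [Algebra ℂ T] [StarModule ℂ T]
  {S : SubfactorPlanarAlgebra T} (Q : S.SimpleSystem)

theorem U8_mul_p {a : ℕ} {W k : Q.J} (f : Q.EE a W k) : (f : T) * Q.p k = (f : T) := by
  have h1 : Q.p k * S.rp (Q.a k) (Q.p W) = S.rp (Q.a k) (Q.p W) * Q.p k :=
    inter (Q.simple k).mem (Q.simple W).mem
  have h2 : (f : T) * (Q.p k * S.rp (Q.a k) (Q.p W)) = (f : T) := f.2.2.2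
  calc (f : T) * Q.p k = (f : T) * (Q.p k * S.rp (Q.a k) (Q.p W)) * Q.p k := by rw [h2]
    _ = (f : T) * S.rp (Q.a k) (Q.p W) * (Q.p k * Q.p k) := by rw [h1]; simp only [mul_assoc]
    _ = (f : T) * (S.rp (Q.a k) (Q.p W) * Q.p k) := by
        rw [(Q.simple k).idem]; simp only [mul_assoc]
    _ = (f : T) := by rw [← h1, h2]

theorem U8_z_g (k l : Q.J) (s : Fin (Q.gk k l)) : S.z * Q.gv k l s = Q.gv k l s :=
  Hom_z ((Q.simple k).toIsProj.rp_even 1).z_mul ((Q.gv_fam k).mem l s)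

theorem U8_F_mem {a : ℕ} (W : Q.J) (f : ∀ k, Q.EE (a + 1) W k) (k k' l : Q.J)
    (s : Fin (Q.gk k l)) (s' : Fin (Q.gk k' l)) :
    star (f k' : T) * S.rp (2 * a) (Q.gv k' l s' * star (Q.gv k l s)) * (f k : T) ∈
      S.H (Q.a k + Q.a W) (Q.a k' + Q.a W) := by
  have hg : Q.gv k l s ∈ S.H (Q.a l) (Q.a k + 2 * 1) := ((Q.gv_fam k).mem l s).1
  have hg' : Q.gv k' l s' ∈ S.H (Q.a l) (Q.a k' + 2 * 1) := ((Q.gv_fam k').mem l s').1
  have hf : (f k : T) ∈ S.H (Q.a k + Q.a W) (Q.a k + 2 * (a + 1)) := (f k).2.1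
  have hf' : (f k' : T) ∈ S.H (Q.a k' + Q.a W) (Q.a k' + 2 * (a + 1)) := (f k').2.1
  have h1 : Q.gv k' l s' * star (Q.gv k l s) ∈ S.H (Q.a k + 2 * 1) (Q.a k' + 2 * 1) :=
    mul_to hg' (star_mem' hg) rfl
  have h2 : S.rp (2 * a) (Q.gv k' l s' * star (Q.gv k l s)) ∈
      S.H (Q.a k + 2 * (a + 1)) (Q.a k' + 2 * (a + 1)) :=
    rp_to (2 * a) h1 (by omega) (by omega)
  exact mul_to (mul_to (star_mem' hf') h2 rfl) hf rfl

theorem U8_term {a : ℕ} (W : Q.J) (f : ∀ k, Q.EE (a + 1) W k) (k k' l : Q.J)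
    (s : Fin (Q.gk k l)) (s' : Fin (Q.gk k' l)) :
    S.Tr (Q.a l + Q.a W)
      (star (S.rp (2 * (a + 1)) (star (Q.gv k' l s')) * S.rp (2 * 1) (f k' : T) * Q.gv k' l s') *
        (S.rp (2 * (a + 1)) (star (Q.gv k l s)) * S.rp (2 * 1) (f k : T) * Q.gv k l s)) =
    S.Tr (Q.a k' + Q.a W)
      (star (f k' : T) * S.rp (2 * a) (Q.gv k' l s' * star (Q.gv k l s)) * (f k : T) *
        (star (S.R 2) * S.rp 2 (Q.gv k l s * star (Q.gv k' l s')) * S.R 2)) := by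
  have hF := Q.U8_F_mem W f k k' l s s'
  set F := star (f k' : T) * S.rp (2 * a) (Q.gv k' l s' * star (Q.gv k l s)) * (f k : T) with hFdef
  have hg : Q.gv k l s ∈ S.H (Q.a l) (Q.a k + 2 * 1) := ((Q.gv_fam k).mem l s).1
  have hg' : Q.gv k' l s' ∈ S.H (Q.a l) (Q.a k' + 2 * 1) := ((Q.gv_fam k').mem l s').1
  have e1 : star (S.rp (2 * (a + 1)) (star (Q.gv k' l s')) * S.rp (2 * 1) (f k' : T) *
        Q.gv k' l s') *
        (S.rp (2 * (a + 1)) (star (Q.gv k l s)) * S.rp (2 * 1) (f k : T) * Q.gv k l s) =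
      star (Q.gv k' l s') * (S.rp 2 F * Q.gv k l s) := by
    have e2 : ∀ y : T, S.rp (2 * (a + 1)) y = S.rp 2 (S.rp (2 * a) y) := fun y => by
      rw [← rp_add, show 2 * (a + 1) = 2 + 2 * a by ring]
    rw [hFdef]
    simp only [star_mul, ← map_star, star_star, e2, map_mul, mul_one, mul_assoc]
  have hrF : S.rp 2 F ∈ S.H (Q.a k + 2 * 1 + Q.a W) (Q.a k' + Q.a W + 2) :=
    rp_to 2 hF (by omega) (by omega)
  have hgp : Q.gv k l s ∈ S.H (Q.a l + Q.a W) (Q.a k + 2 * 1 + Q.a W) :=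
    pad_to (Q.a W) hg (by omega) (by omega)
  have hgp' : star (Q.gv k' l s') ∈ S.H (Q.a k' + Q.a W + 2) (Q.a l + Q.a W) :=
    pad_to (Q.a W) (star_mem' hg') (by omega) (by omega)
  have hmid : S.rp 2 F * Q.gv k l s ∈ S.H (Q.a l + Q.a W) (Q.a k' + Q.a W + 2) :=
    mul_to hrF hgp rfl
  rw [e1, Tr_comm hgp' hmid, Tr_left2 (mul_to hmid hgp' rfl)]
  · congr 1
    have hsR : star (S.R 2) ∈ S.H (2 * 2) 0 := star_mem' (S.R_mem 2)
    have e3 : star (S.R 2) * S.rp (2 * 2) F = F * star (S.R 2) := S.slide' hsR hF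
    calc star (S.R 2) * S.rp 2 (S.rp 2 F * Q.gv k l s * star (Q.gv k' l s')) * S.R 2
        = (star (S.R 2) * S.rp (2 * 2) F) * S.rp 2 (Q.gv k l s * star (Q.gv k' l s')) *
            S.R 2 := by
          rw [show 2 * 2 = 2 + 2 from rfl, rp_add]
          simp only [map_mul, mul_assoc]
      _ = _ := by rw [e3]; simp only [mul_assoc]
  · calc S.z * (S.rp 2 F * Q.gv k l s * star (Q.gv k' l s'))
        = (S.z * S.rp 2 F) * Q.gv k l s * star (Q.gv k' l s') := by simp only [mul_assoc]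
      _ = S.rp 2 F * (S.z * Q.gv k l s) * star (Q.gv k' l s') := by
          rw [z_comm hrF]; simp only [mul_assoc]
      _ = _ := by rw [Q.U8_z_g]

theorem U8_term_ne {a : ℕ} (W : Q.J) (f : ∀ k, Q.EE (a + 1) W k) (l : Q.J)
    (x x' : Σ k, Fin (Q.gk k l)) (h : x ≠ x') :
    S.Tr (Q.a l + Q.a W)
      (star (S.rp (2 * (a + 1)) (star (Q.gv x'.1 l x'.2)) * S.rp (2 * 1) (f x'.1 : T) *
          Q.gv x'.1 l x'.2) *
        (S.rp (2 * (a + 1)) (star (Q.gv x.1 l x.2)) * S.rp (2 * 1) (f x.1 : T) *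
          Q.gv x.1 l x.2)) = 0 := by
  obtain ⟨k, s⟩ := x
  obtain ⟨k', s'⟩ := x'
  rw [Q.U8_term W f k k' l s s']
  have h0 : star (S.R 2) * S.rp 2 (Q.gv k l s * star (Q.gv k' l s')) * S.R 2 = 0 := by
    by_cases hk : k = k'
    · subst hk
      have hs : s ≠ s' := fun hs => h (by rw [hs])
      rw [Q.left_close_gv, if_neg hs, zero_smul]
    · exact Q.left_close_gv_ne k k' l hk s s'
  rw [h0, mul_zero]
  unfold Tr
  rw [mul_zero, zero_mul]
  exact zc_eq (by rw [mul_zero, zero_smul])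

theorem U8_term_eq {a : ℕ} (W : Q.J) (f : ∀ k, Q.EE (a + 1) W k) (l k : Q.J)
    (s : Fin (Q.gk k l)) :
    S.Tr (Q.a l + Q.a W)
      (star (S.rp (2 * (a + 1)) (star (Q.gv k l s)) * S.rp (2 * 1) (f k : T) * Q.gv k l s) *
        (S.rp (2 * (a + 1)) (star (Q.gv k l s)) * S.rp (2 * 1) (f k : T) * Q.gv k l s)) =
    ((Q.d l / Q.d k : ℝ) : ℂ) * S.Tr (Q.a k + Q.a W)
      (star (f k : T) * S.rp (2 * a) (Q.gv k l s * star (Q.gv k l s)) * (f k : T)) := by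
  rw [Q.U8_term W f k k l s s, Q.left_close_gv, if_pos rfl, mul_smul_comm, mul_assoc,
    Q.U8_mul_p, Tr_smul _ (Q.U8_F_mem W f k k l s s)]

theorem U8_Tr_l {a : ℕ} (W : Q.J) (f : ∀ k, Q.EE (a + 1) W k) (l : Q.J) :
    S.Tr (Q.a l + Q.a W)
      (star ((Q.PP (a + 1) W f l : Q.EE (a + 1) W l) : T) *
        ((Q.PP (a + 1) W f l : Q.EE (a + 1) W l) : T)) =
    ∑ k, ∑ s : Fin (Q.gk k l), ((Q.d l / Q.d k : ℝ) : ℂ) * S.Tr (Q.a k + Q.a W)
      (star (f k : T) * S.rp (2 * a) (Q.gv k l s * star (Q.gv k l s)) * (f k : T)) := by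
  set t : (Σ k, Fin (Q.gk k l)) → T := fun x =>
    S.rp (2 * (a + 1)) (star (Q.gv x.1 l x.2)) * S.rp (2 * 1) (f x.1 : T) * Q.gv x.1 l x.2 with ht
  have hP : ((Q.PP (a + 1) W f l : Q.EE (a + 1) W l) : T) = ∑ x, t x := by
    rw [Q.PP_apply, Fintype.sum_sigma]
  have htm : ∀ x, t x ∈ S.H (Q.a l + Q.a W) (Q.a l + 2 * (a + 1)) := fun x =>
    (twist_mem (Q.simple W).toIsProj (Q.simple l).star_eq
      ((Q.gv_fam x.1).mem l x.2) ((Q.gv_fam x.1).mem l x.2) (f x.1).2).1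
  have hm : ∀ x' x, star (t x') * t x ∈ S.H (Q.a l + Q.a W) (Q.a l + Q.a W) := fun x' x =>
    mul_to (star_mem' (htm x')) (htm x) rfl
  rw [hP, star_sum, Finset.sum_mul, Tr_sum _ _ _ (fun x' _ => by
    rw [Finset.mul_sum]
    exact Submodule.sum_mem _ fun x _ => hm x' x)]
  rw [← Fintype.sum_sigma' (fun k s => ((Q.d l / Q.d k : ℝ) : ℂ) * S.Tr (Q.a k + Q.a W)
      (star (f k : T) * S.rp (2 * a) (Q.gv k l s * star (Q.gv k l s)) * (f k : T)))]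
  refine Finset.sum_congr rfl fun x' _ => ?_
  rw [Finset.mul_sum, Tr_sum _ _ _ (fun x _ => hm x' x), Finset.sum_eq_single x']
  · exact Q.U8_term_eq W f l x'.1 x'.2
  · intro x _ hx
    exact Q.U8_term_ne W f l x x' hx
  · intro h
    exact absurd (Finset.mem_univ _) h

theorem PP_isometry {a : ℕ} (ha : 1 ≤ a) (W : Q.J) (f : ∀ k, Q.EE a W k) :
    ∑ k, ((Q.d k : ℂ))⁻¹ * S.Tr (Q.a k + Q.a W)
        (star ((Q.PP a W f k : Q.EE a W k) : T) * ((Q.PP a W f k : Q.EE a W k) : T)) =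
      ∑ k, ((Q.d k : ℂ))⁻¹ * S.Tr (Q.a k + Q.a W) (star (f k : T) * (f k : T)) := by
  obtain ⟨a, rfl⟩ : ∃ b, a = b + 1 := ⟨a - 1, by omega⟩
  have hd : ∀ k, (Q.d k : ℂ) ≠ 0 := fun k => by
    exact_mod_cast (Q.d_pos k).ne'
  have h1 : ∀ l, ((Q.d l : ℂ))⁻¹ * S.Tr (Q.a l + Q.a W)
      (star ((Q.PP (a + 1) W f l : Q.EE (a + 1) W l) : T) *
        ((Q.PP (a + 1) W f l : Q.EE (a + 1) W l) : T)) =
      ∑ k, ((Q.d k : ℂ))⁻¹ * ∑ s : Fin (Q.gk k l), S.Tr (Q.a k + Q.a W)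
        (star (f k : T) * S.rp (2 * a) (Q.gv k l s * star (Q.gv k l s)) * (f k : T)) := by
    intro l
    rw [Q.U8_Tr_l, Finset.mul_sum]
    refine Finset.sum_congr rfl fun k _ => ?_
    rw [Finset.mul_sum, Finset.mul_sum]
    refine Finset.sum_congr rfl fun s _ => ?_
    have := hd l
    have := hd k
    push_cast
    field_simp
  simp only [h1]
  rw [Finset.sum_comm]
  refine Finset.sum_congr rfl fun k _ => ?_
  rw [← Finset.mul_sum]
  congr 1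
  have hm : ∀ l, ∀ s : Fin (Q.gk k l),
      star (f k : T) * S.rp (2 * a) (Q.gv k l s * star (Q.gv k l s)) * (f k : T) ∈
        S.H (Q.a k + Q.a W) (Q.a k + Q.a W) := fun l s => Q.U8_F_mem W f k k l s s
  have h2 : ∀ l, ∑ s : Fin (Q.gk k l), S.Tr (Q.a k + Q.a W)
        (star (f k : T) * S.rp (2 * a) (Q.gv k l s * star (Q.gv k l s)) * (f k : T)) =
      S.Tr (Q.a k + Q.a W) (∑ s : Fin (Q.gk k l),
        star (f k : T) * S.rp (2 * a) (Q.gv k l s * star (Q.gv k l s)) * (f k : T)) := fun l =>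
    (Tr_sum _ _ _ (fun s _ => hm l s)).symm
  simp only [h2]
  rw [← Tr_sum _ _ _ (fun l _ => Submodule.sum_mem _ fun s _ => hm l s)]
  congr 1
  have h3 : ∑ l, ∑ s : Fin (Q.gk k l),
      star (f k : T) * S.rp (2 * a) (Q.gv k l s * star (Q.gv k l s)) * (f k : T) =
      star (f k : T) * S.rp (2 * a) (∑ l, ∑ s : Fin (Q.gk k l),
        Q.gv k l s * star (Q.gv k l s)) * (f k : T) := by
    simp only [map_sum, Finset.mul_sum, Finset.sum_mul]
  rw [h3, (Q.gv_fam k).complete, ← rp_add, show 2 * a + 2 * 1 = 2 * (a + 1) by ring, mul_assoc,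
    (f k).2.2.1]

theorem PP_eigen {a : ℕ} (ha : 1 ≤ a) (W : Q.J) (μ : ℂ) (f : ∀ k, Q.EE a W k)
    (hf : Q.PP a W f = μ • f) (h0 : f ≠ 0) : ‖μ‖ = 1 := by
  have hiso := Q.PP_isometry ha W f
  rw [hf] at hiso
  have hcoe : ∀ k, (((μ • f) k : Q.EE a W k) : T) = μ • (f k : T) := fun k => rfl
  have hmem : ∀ k, star (f k : T) * (f k : T) ∈ S.H (Q.a k + Q.a W) (Q.a k + Q.a W) := fun k =>
    mul_to (star_mem' (f k).2.1) (f k).2.1 rfl
  have h1 : ∀ k, star (((μ • f) k : Q.EE a W k) : T) * (((μ • f) k : Q.EE a W k) : T) =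
      ((‖μ‖ ^ 2 : ℝ) : ℂ) • (star (f k : T) * (f k : T)) := by
    intro k
    rw [hcoe, star_smul, smul_mul_smul_comm]
    congr 1
    have := Complex.conj_mul' μ
    rw [Complex.star_def, this]
    push_cast
    rfl
  simp only [h1] at hiso
  have h2 : ∀ k, S.Tr (Q.a k + Q.a W) (((‖μ‖ ^ 2 : ℝ) : ℂ) • (star (f k : T) * (f k : T))) =
      ((‖μ‖ ^ 2 : ℝ) : ℂ) * S.Tr (Q.a k + Q.a W) (star (f k : T) * (f k : T)) := fun k =>
    Tr_smul _ (hmem k)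
  simp only [h2] at hiso
  -- the norm as a positive real number
  have hz : ∀ k, S.z * (f k : T) = (f k : T) := fun k =>
    Hom_z ((Q.simple k).toIsProj.rp_even a).z_mul (f k).2
  have hterm : ∀ k, ∃ c : ℝ, 0 ≤ c ∧ ((f k : T) ≠ 0 → 0 < c) ∧
      S.Tr (Q.a k + Q.a W) (star (f k : T) * (f k : T)) = (c : ℂ) := by
    intro k
    by_cases h : (f k : T) = 0
    · refine ⟨0, le_rfl, fun h' => absurd h h', ?_⟩
      rw [h, mul_zero]
      unfold Tr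
      rw [mul_zero, zero_mul]
      exact zc_eq (by rw [mul_zero]; simp)
    · obtain ⟨c, hc, hc'⟩ := Tr_pos (f k).2.1 (hz k) h
      exact ⟨c, hc.le, fun _ => hc, hc'⟩
  choose c hc0 hc1 hc2 using hterm
  simp only [hc2] at hiso
  have hN : (∑ k, ((Q.d k : ℂ))⁻¹ * (c k : ℂ)) = ((∑ k, (Q.d k)⁻¹ * c k : ℝ) : ℂ) := by
    push_cast; rfl
  have hN' : (∑ k, ((Q.d k : ℂ))⁻¹ * (((‖μ‖ ^ 2 : ℝ) : ℂ) * (c k : ℂ))) =
      ((‖μ‖ ^ 2 * ∑ k, (Q.d k)⁻¹ * c k : ℝ) : ℂ) := by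
    rw [Complex.ofReal_mul, ← hN, Finset.mul_sum]
    refine Finset.sum_congr rfl fun k _ => ?_
    ring
  rw [hN, hN'] at hiso
  have hreal : ‖μ‖ ^ 2 * ∑ k, (Q.d k)⁻¹ * c k = ∑ k, (Q.d k)⁻¹ * c k := by
    exact_mod_cast hiso
  have hpos : 0 < ∑ k, (Q.d k)⁻¹ * c k := by
    have hex : ∃ k, (f k : T) ≠ 0 := by
      by_contra hcon
      push Not at hcon
      exact h0 (funext fun k => Subtype.ext (hcon k))
    obtain ⟨k, hk⟩ := hex
    refine Finset.sum_pos' (fun j _ => ?_) ⟨k, Finset.mem_univ _, ?_⟩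
    · exact mul_nonneg (inv_nonneg.2 (Q.d_pos j).le) (hc0 j)
    · exact mul_pos (inv_pos.2 (Q.d_pos k)) (hc1 k hk)
  have hsq : ‖μ‖ ^ 2 = 1 := by
    have : (‖μ‖ ^ 2 - 1) * ∑ k, (Q.d k)⁻¹ * c k = 0 := by rw [sub_mul, one_mul, hreal, sub_self]
    rcases mul_eq_zero.1 this with h | h
    · linarith
    · exact absurd h hpos.ne'
  have := norm_nonneg μ
  nlinarith

end SimpleSystem

end SubfactorPlanarAlgebra

end Pool.Agent.ST5
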