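import Pool.Agent.ST5.Q.UDefs

/-!
ST6 row U9. Powers of the rotation.

PROOF. rot y := star r * ρ y * r. By `rot_iter` (P/A1.lean) star (R n) * rp n x * R n = rot^[n] x. So rotK a n is
the restriction of rot^[2a], rotK a n = (rotK 1 n)^a (induction on a: rot^[2(a+1)] = rot^[2] ∘ rot^[2a];
`Function.iterate_add_apply`, `LinearMap.ext`, `Subtype.ext`). `rotK_full`: (rotK 1 (2j))^j x = rotK j (2j) x
= rot^[2j] x = x (`full_turn` or `S.rotation`). `trace_rotK_zero`: KK 0 = ℂ z is one-dimensional (x ∈ H 0 0, z x = x: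
`zc_spec`), rotK a 0 (z) = star (R (2a)) * rp (2a) z * R (2a) = z * (star (R (2a)) * R (2a)) = δ^(2a) z (`rp_z_even`, `loopR`).
-/

namespace Pool.Agent.ST5

namespace SubfactorPlanarAlgebra

variable {T : Type*} [Ring T] [StarRing T] [Algebra ℂ T] [StarModule ℂ T]
  (S : SubfactorPlanarAlgebra T)

theorem U9_iter (a n : ℕ) (x : S.KK n) :
    (((S.rotK 1 n ^ a) x : S.KK n) : T) =
      (fun y => star S.r * S.ρ y * S.r)^[2 * a] (x : T) := by
  induction a with
  | zero => simp
  | succ a ih =>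
    rw [pow_succ', Module.End.mul_apply, rotK_apply, ih,
      show 2 * (a + 1) = 2 + 2 * a by ring, Function.iterate_add_apply, rot_iter 2]

theorem rotK_pow (a n : ℕ) : S.rotK a n = S.rotK 1 n ^ a := by
  apply LinearMap.ext
  intro x
  apply Subtype.ext
  rw [U9_iter, rotK_apply, rot_iter]

theorem rotK_full (j : ℕ) : S.rotK 1 (2 * j) ^ j = 1 := by
  rw [← rotK_pow]
  apply LinearMap.ext
  intro x
  apply Subtype.ext
  rw [rotK_apply, Module.End.one_apply]
  exact full_turn x.2.1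

theorem trace_rotK_zero (a : ℕ) :
    LinearMap.trace ℂ (S.KK (2 * 0)) (S.rotK a (2 * 0)) = (S.δ : ℂ) ^ (2 * a) := by
  have hx : ∀ x : S.KK (2 * 0), (x : T) = S.zc (x : T) • S.z := by
    intro x
    have h1 := zc_spec (S := S) (y := (x : T)) x.2.1
    have h2 : S.z * (x : T) = (x : T) := x.2.2.1
    rw [h2] at h1
    exact h1
  have hF : S.rotK a (2 * 0) = (S.δ : ℂ) ^ (2 * a) • LinearMap.id := by
    apply LinearMap.ext
    intro x
    apply Subtype.ext
    rw [rotK_apply]
    have e1 : S.rp (2 * a) (x : T) = (x : T) := by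
      rw [hx x, map_smul, S.rp_z_even (by omega)]
    have e2 : star (S.R (2 * a)) * (x : T) = (x : T) * star (S.R (2 * a)) := by
      rw [hx x, mul_smul_comm, smul_mul_assoc, z_comm (star_mem' (S.R_mem (2 * a)))]
    rw [e1, e2, mul_assoc, S.loopR, mul_smul_comm, mul_one]
    simp
  have hz : S.z ∈ S.KK (2 * 0) := (mem_KK (S := S)).2 ⟨S.z_mem 0, S.z_mul⟩
  have hfin : Module.finrank ℂ (S.KK (2 * 0)) = 1 := by
    rw [finrank_eq_one_iff_of_nonzero' (⟨S.z, hz⟩ : S.KK (2 * 0)) (by
      intro h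
      exact S.z_ne_zero (congrArg Subtype.val h))]
    intro w
    exact ⟨S.zc (w : T), Subtype.ext (hx w).symm⟩
  rw [hF, map_smul, LinearMap.trace_id, hfin]
  simp

end SubfactorPlanarAlgebra

end Pool.Agent.ST5
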