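import Pool.Agent.ST5.Q.W1
import Pool.Agent.ST5.Q.E4N

/-!
ST6 row W3. The products of cups form a basis.

PROOF. K = KK (2j), M = {y // Cups 0 (2j) y}, finite, card M ≤ bal (2j) 0 ≤ finrank K (`cups_card`).
Spanning: x ∈ K: x ∈ H 0 (2j) = TL 0 (2j) (`H_le_TL_N` with 0 + 2j ≤ 2N), so x is in the span of the words; for a word w,
 `normal_form`: w = s * y * star y' with Cups k (2j) y, Cups k 0 y': k = 0 and y' = 1 (`cups_le`, cases), s = α + β z, so z * w = (α + β) • (z * y). Hence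
 x = z * x ∈ span {z * y | y ∈ M} (`Submodule.span_induction`).
A spanning family (indexed by M) of a space of dimension ≥ card M is a basis: `basisOfTopLeSpanOfCardEqFinrank`
(card M = finrank K since a spanning family has at least finrank elements: `finrank_range_le_card`/`finrank_le_of_span_eq_top`).
Each z * y is in K (`mem_KK`, `cups_mem`, z * z = z).
-/

namespace Pool.Agent.ST5

namespace SubfactorPlanarAlgebra

variable {T : Type*} [Ring T] [StarRing T] [Algebra ℂ T] [StarModule ℂ T]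
  {S : SubfactorPlanarAlgebra T}

theorem W3_word {n : ℕ} {w : T} (hw : S.IsTL 0 n w) :
    S.z * w ∈ Submodule.span ℂ {x | ∃ y, S.Cups 0 n y ∧ x = S.z * y} := by
  obtain ⟨k, y, y', s, hy, hy', hs, rfl⟩ := normal_form hw
  obtain rfl : k = 0 := Nat.le_zero.1 (cups_le hy')
  have hy1 : y' = 1 := by
    cases hy'
    rfl
  obtain ⟨α, β, rfl⟩ := Submodule.mem_span_pair.1 hs
  have h1 : S.z * ((α • (1 : T) + β • S.z) * y * star y') = (α + β) • (S.z * y) := by
    rw [hy1, star_one, mul_one, add_mul, mul_add, smul_mul_assoc, smul_mul_assoc, one_mul,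
      mul_smul_comm, mul_smul_comm, ← mul_assoc S.z S.z y, S.z_mul, add_smul]
  rw [h1]
  exact Submodule.smul_mem _ _ (Submodule.subset_span ⟨y, hy, rfl⟩)

theorem W3_TL {n : ℕ} {x : T} (hx : x ∈ S.TL 0 n) :
    S.z * x ∈ Submodule.span ℂ {x | ∃ y, S.Cups 0 n y ∧ x = S.z * y} := by
  refine Submodule.span_induction (p := fun x _ => S.z * x ∈
    Submodule.span ℂ {x | ∃ y, S.Cups 0 n y ∧ x = S.z * y}) ?_ ?_ ?_ ?_ hx
  · intro w hw
    exact W3_word hw
  · rw [mul_zero]
    exact Submodule.zero_mem _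
  · intro a b _ _ ha hb
    rw [mul_add]
    exact Submodule.add_mem _ ha hb
  · intro c a _ ha
    rw [mul_smul_comm]
    exact Submodule.smul_mem _ _ ha

theorem cups_basis {N : ℕ} (h : S.Supertransitive N) {j : ℕ} (hj : j ≤ N)
    (hdim : bal (2 * j) 0 ≤ Module.finrank ℂ (S.KK (2 * j))) :
    ∃ b : Module.Basis {y : T // S.Cups 0 (2 * j) y} ℂ (S.KK (2 * j)),
      ∀ y, ((b y : S.KK (2 * j)) : T) = S.z * y.1 := by
  obtain ⟨hfin, hcard⟩ := cups_card S (2 * j) 0
  have hft : Finite {y : T // S.Cups 0 (2 * j) y} := hfin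
  have := Fintype.ofFinite {y : T // S.Cups 0 (2 * j) y}
  have hmem : ∀ y : {y : T // S.Cups 0 (2 * j) y}, S.z * y.1 ∈ S.KK (2 * j) := by
    intro y
    rw [mem_KK]
    refine ⟨S.mul_mem _ _ _ _ _ (S.z_mem _) (cups_mem y.2), ?_⟩
    rw [← mul_assoc, S.z_mul]
  set g : {y : T // S.Cups 0 (2 * j) y} → S.KK (2 * j) := fun y => ⟨S.z * y.1, hmem y⟩ with hg
  have hspan : ⊤ ≤ Submodule.span ℂ (Set.range g) := by
    intro x _
    have h1 := mem_KK.1 x.2
    have h2 : (x : T) ∈ S.TL 0 (2 * j) := H_le_TL_N h (by omega) h1.1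
    have h3 := W3_TL h2
    rw [h1.2] at h3
    have h4 : {x | ∃ y, S.Cups 0 (2 * j) y ∧ x = S.z * y} =
        (S.KK (2 * j)).subtype '' (Set.range g) := by
      ext t
      constructor
      · rintro ⟨y, hy, rfl⟩
        exact ⟨g ⟨y, hy⟩, ⟨⟨y, hy⟩, rfl⟩, rfl⟩
      · rintro ⟨_, ⟨y, rfl⟩, rfl⟩
        exact ⟨y.1, y.2, rfl⟩
    rw [h4, ← Submodule.map_span] at h3
    obtain ⟨y, hy, hyx⟩ := h3
    have h5 : y = x := Subtype.ext hyx
    rw [← h5]
    exact hy
  have hc1 : Fintype.card {y : T // S.Cups 0 (2 * j) y} ≤ Module.finrank ℂ (S.KK (2 * j)) := by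
    refine le_trans ?_ (hcard.trans hdim)
    rw [← Nat.card_eq_fintype_card]
    exact le_of_eq rfl
  have hc2 : Module.finrank ℂ (S.KK (2 * j)) ≤ Fintype.card {y : T // S.Cups 0 (2 * j) y} := by
    have h1 := finrank_range_le_card (R := ℂ) g
    have h2 : Submodule.span ℂ (Set.range g) = ⊤ := top_le_iff.1 hspan
    unfold Set.finrank at h1
    rw [h2, finrank_top] at h1
    exact h1
  refine ⟨basisOfTopLeSpanOfCardEqFinrank g hspan (le_antisymm hc1 hc2), fun y => ?_⟩
  rw [coe_basisOfTopLeSpanOfCardEqFinrank]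

end SubfactorPlanarAlgebra

end Pool.Agent.ST5
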