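import Pool.Agent.ST5.Q.W1

/-!
ST6 row W5. The products of cups that are fixed by the rotation by two strings.

NOTATION. rot x = star r * ρ x * r, rot² x = star (R 2) * rp 2 x * R 2 (`rot_two`), σ = span {1, z}; elements of σ commute with all boxes
(`z_comm`), r^j ∈ H 0 (2j), in fact Cups 0 (2j) (r^j) (`Cups.cons 0`, r = rp 0 r).
PROOF.
`comb_cups`: r^j; and ρ(r)^(j-1) * r: for j ≥ 1 it is rot (r^j): r^j = r * r^(j-1) = rp 2 (r^(j-1)) * r (`slide`) = ρ (ρ (r^(j-1))) * r, and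
 star r * ρ (ρ (ρ (r^(j-1))) * r) * r = ρ (r^(j-1)) * star r * ρ r * r = ρ (r^(j-1)) * r. (`rot_cups` gives the membership.)
`comb_fixed`: rot (ρ (r^(j-1)) * r) = star r * rp 2 (r^(j-1)) * ρ r * r = r^(j-1) * r = r^j (`slide'`, `S.zigzag`), so rot² fixes both.
`comb_ne`, j ≥ 2: if r^j = ρ(r)^(j-1) * r then star r * both: δ r^(j-1) = ρ(r)^(j-2) * r (star r * ρ r = 1). Take star x * x:
 star (r^n) * r^n = δ^n (induction, `S.loop`), star (ρ(r)^n * r) * (ρ(r)^n * r) = δ^(n+1). So δ² δ^(j-1) = δ^(j-1) in T (times 1 ≠ 0),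
 contradiction with δ > 1. (1 ≠ 0 in T: z ≠ 0.)
`rot2_fixed`: claim A: for x ∈ H 0 (2m) with x * r = r * x there is s ∈ σ with x = s * r^m: induction on m; m = 0: H 0 0 = span {z, 1-z} = σ. Step m+1:
 x₁ := star r * x ∈ H 0 (2m) [star r ∈ H 2 0 padded to H (2m+2) (2m)]. star r * x * r = star r * r * x = δ x, so
 r * (star r * x) * r = δ r * x = δ x * r; cancel r on the right (x * r = rp (2m+2) r * x for x ∈ H 0 (2m+2) (`slide`), multiply by rp (2m+2) (star r)):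
 r * x₁ = δ x. Then r * x₁ * r = δ x * r = δ r * x = r * r * x₁, cancel r on the left (star r * r = δ): x₁ * r = r * x₁. Induction: x₁ = s r^m,
 x = δ⁻¹ r s r^m = (δ⁻¹ s) r^(m+1).
 claim B: y ∈ H 0 (2j), rot² y = y, y = r * y₀ with y₀ ∈ H 0 (2j-2) ⇒ y = s * r^j: rot² (r * y₀) = y₀ * r [r * y₀ = ρ (ρ y₀) * r (`slide`);
 rot (ρ x * r) = x * r for x ∈ H 1 n by `slide'`, `zigzag`: rot (ρ (ρ y₀) * r) = ρ y₀ * r, rot (ρ y₀ * r) = y₀ * r]. So y₀ * r = r * y₀, claim A.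
 y : Cups 0 (2j), j ≥ 1: y = rp i r * y₀ with i ≤ 2j-2, y₀ ∈ H 0 (2j-2) (cases). For i ≥ 2: y = rot² y = star (R 2) * rp (i+2) r * rp 2 y₀ * R 2
 = star (R 2) * rp 4 (rp (i-2) r) * … = rp (i-2) r * rot² y₀ (`slide'`, star (R 2) ∈ H 4 0). So by descent i ∈ {0, 1} (with some y₀ ∈ H 0 (2j-2)).
 i = 0: claim B. i = 1 (so j ≥ 2): y' := rot y = star r * ρ (ρ r * y₀) * r = star r * rp 2 r * ρ y₀ * r = r * (star r * ρ y₀ * r) = r * rot y₀
 (`slide'`), and rot² y' = y'; claim B: rot y = s * r^j. Also rot (ρ(s) * (ρ(r)^(j-1) * r)) = ρ(ρ s) * rot (…) = s * r^j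
 (ρ ρ s = s for s ∈ σ, ρ z = 1 - z; rot (s x) = ρ(s) rot x as s commutes). rot is injective on H 0 (2j) (`S.rotation`), so y = ρ(s) * (ρ(r)^(j-1) * r).
-/

namespace Pool.Agent.ST5

namespace SubfactorPlanarAlgebra

variable {T : Type*} [Ring T] [StarRing T] [Algebra ℂ T] [StarModule ℂ T]
  {S : SubfactorPlanarAlgebra T}

variable (S) in
theorem W5_cups_pow (j : ℕ) : S.Cups 0 (2 * j) (S.r ^ j) := by
  induction j with
  | zero => rw [pow_zero]; exact Cups.nil 0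
  | succ j ih =>
    rw [pow_succ']
    exact Cups.cons (n := 2 * j) 0 (Nat.zero_le _) ih

variable (S) in
theorem W5_pow_mem (j : ℕ) : S.r ^ j ∈ S.H 0 (2 * j) := cups_mem (S.W5_cups_pow j)

theorem W5_rp_two (x : T) : S.rp 2 x = S.ρ (S.ρ x) := by
  rw [S.rp_succ, S.rp_one]

variable (S) in
theorem W5_rot_pow (m : ℕ) : star S.r * S.ρ (S.r ^ (m + 1)) * S.r = S.ρ S.r ^ m * S.r := by
  rw [map_pow, pow_succ', ← mul_assoc, S.zigzag, one_mul]

variable (S) in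
theorem W5_rot_comb (m : ℕ) : star S.r * S.ρ (S.ρ S.r ^ m * S.r) * S.r = S.r ^ (m + 1) := by
  have e : S.ρ (S.ρ S.r ^ m) = S.rp 2 (S.r ^ m) := by rw [W5_rp_two, map_pow, map_pow, map_pow]
  have e2 : star S.r * S.rp 2 (S.r ^ m) = S.r ^ m * star S.r :=
    S.slide' (star_mem' S.r_mem) (S.W5_pow_mem m)
  rw [map_mul, e, ← mul_assoc, e2, mul_assoc (S.r ^ m), S.zigzag, mul_one, pow_succ]

variable (S) in
theorem comb_cups (j : ℕ) (hj : 1 ≤ j) :
    S.Cups 0 (2 * j) (S.r ^ j) ∧ S.Cups 0 (2 * j) (S.ρ S.r ^ (j - 1) * S.r) := by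
  refine ⟨S.W5_cups_pow j, ?_⟩
  obtain ⟨m, rfl⟩ : ∃ m, j = m + 1 := ⟨j - 1, by omega⟩
  rw [Nat.add_sub_cancel, ← S.W5_rot_pow m]
  exact rot_cups (by omega) (S.W5_cups_pow (m + 1))

variable (S) in
theorem comb_fixed (j : ℕ) (hj : 1 ≤ j) :
    star (S.R 2) * S.rp 2 (S.r ^ j) * S.R 2 = S.r ^ j ∧
    star (S.R 2) * S.rp 2 (S.ρ S.r ^ (j - 1) * S.r) * S.R 2 = S.ρ S.r ^ (j - 1) * S.r := by
  obtain ⟨m, rfl⟩ : ∃ m, j = m + 1 := ⟨j - 1, by omega⟩
  rw [Nat.add_sub_cancel, rot_two, rot_two, S.W5_rot_pow m, S.W5_rot_comb m, S.W5_rot_pow m]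
  exact ⟨rfl, rfl⟩

variable (S) in
theorem W5_norm (n : ℕ) : star (S.r ^ n) * S.r ^ n = ((S.δ : ℂ) ^ n) • (1 : T) := by
  induction n with
  | zero => simp
  | succ n ih =>
    have e : star (S.r ^ (n + 1)) * S.r ^ (n + 1) = star (S.r ^ n) * (star S.r * S.r) * S.r ^ n := by
      rw [pow_succ' S.r n, star_mul]
      simp only [mul_assoc]
    rw [e, S.loop, mul_smul_comm, mul_one, smul_mul_assoc, ih, smul_smul, pow_succ']

theorem comb_ne (hδ : 2 < S.δ) {j : ℕ} (hj : 2 ≤ j) : S.r ^ j ≠ S.ρ S.r ^ (j - 1) * S.r := by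
  obtain ⟨m, rfl⟩ : ∃ m, j = m + 2 := ⟨j - 2, by omega⟩
  intro h
  have hδ0 : (S.δ : ℂ) ≠ 0 := by
    have h0 : (0 : ℝ) < S.δ := by linarith
    exact_mod_cast h0.ne'
  have h1 : (S.δ : ℂ) • S.r ^ (m + 1) = S.ρ S.r ^ m * S.r := by
    have h2 : star S.r * S.r ^ (m + 2) = star S.r * (S.ρ S.r ^ (m + 2 - 1) * S.r) := by rw [h]
    have e1 : star S.r * S.r ^ (m + 2) = (S.δ : ℂ) • S.r ^ (m + 1) := by
      rw [pow_succ' S.r (m + 1), ← mul_assoc, S.loop, smul_mul_assoc, one_mul]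
    have e2 : star S.r * (S.ρ S.r ^ (m + 2 - 1) * S.r) = S.ρ S.r ^ m * S.r := by
      rw [show m + 2 - 1 = m + 1 by omega, pow_succ' (S.ρ S.r) m, mul_assoc (S.ρ S.r), ← mul_assoc,
        S.zigzag, one_mul]
    rw [e1, e2] at h2
    exact h2
  have h3 : star ((S.δ : ℂ) • S.r ^ (m + 1)) * ((S.δ : ℂ) • S.r ^ (m + 1)) =
      star (S.ρ S.r ^ m * S.r) * (S.ρ S.r ^ m * S.r) := by rw [h1]
  have e1 : star ((S.δ : ℂ) • S.r ^ (m + 1)) * ((S.δ : ℂ) • S.r ^ (m + 1)) =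
      ((S.δ : ℂ) ^ (m + 3)) • (1 : T) := by
    rw [star_smul, smul_mul_assoc, mul_smul_comm, S.W5_norm, smul_smul, smul_smul]
    congr 1
    have : star (S.δ : ℂ) = (S.δ : ℂ) := Complex.conj_ofReal _
    rw [this]
    ring
  have e2 : star (S.ρ S.r ^ m * S.r) * (S.ρ S.r ^ m * S.r) = ((S.δ : ℂ) ^ (m + 1)) • (1 : T) := by
    have e3 : star (S.ρ S.r ^ m) * S.ρ S.r ^ m = ((S.δ : ℂ) ^ m) • (1 : T) := by
      rw [← map_pow, ← map_star, ← map_mul, S.W5_norm, map_smul, map_one]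
    calc star (S.ρ S.r ^ m * S.r) * (S.ρ S.r ^ m * S.r)
        = star S.r * (star (S.ρ S.r ^ m) * S.ρ S.r ^ m) * S.r := by
          rw [star_mul]; simp only [mul_assoc]
      _ = _ := by
          rw [e3, mul_smul_comm, mul_one, smul_mul_assoc, S.loop, smul_smul, pow_succ]
  rw [e1, e2] at h3
  have hone : (1 : T) ≠ 0 := by
    intro h0
    apply S.z_ne_zero
    calc S.z = S.z * 1 := (mul_one _).symm
      _ = 0 := by rw [h0, mul_zero]
  have h4 := smul_left_injective ℂ hone h3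
  have h5 : (S.δ : ℂ) ^ (m + 1) * ((S.δ : ℂ) ^ 2) = (S.δ : ℂ) ^ (m + 1) * 1 := by
    calc (S.δ : ℂ) ^ (m + 1) * ((S.δ : ℂ) ^ 2) = (S.δ : ℂ) ^ (m + 3) := by ring
      _ = (S.δ : ℂ) ^ (m + 1) := h4
      _ = _ := (mul_one _).symm
  have h6 := mul_left_cancel₀ (pow_ne_zero _ hδ0) h5
  have h7 : S.δ ^ 2 = 1 := by exact_mod_cast h6
  nlinarith

theorem W5_span_comm {s : T} (hs : s ∈ Submodule.span ℂ {(1 : T), S.z}) {m n : ℕ} {x : T}
    (hx : x ∈ S.H m n) : s * x = x * s := by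
  obtain ⟨a, b, rfl⟩ := Submodule.mem_span_pair.mp hs
  rw [add_mul, mul_add, smul_mul_assoc, smul_mul_assoc, mul_smul_comm, mul_smul_comm, one_mul,
    mul_one, z_comm hx]

theorem W5_span_mem {s : T} (hs : s ∈ Submodule.span ℂ {(1 : T), S.z}) (n : ℕ) : s ∈ S.H n n := by
  obtain ⟨a, b, rfl⟩ := Submodule.mem_span_pair.mp hs
  exact Submodule.add_mem _ (Submodule.smul_mem _ _ (S.one_mem n))
    (Submodule.smul_mem _ _ (S.z_mem n))

theorem W5_span_rho {s : T} (hs : s ∈ Submodule.span ℂ {(1 : T), S.z}) :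
    S.ρ s ∈ Submodule.span ℂ {(1 : T), S.z} ∧ S.ρ (S.ρ s) = s := by
  obtain ⟨a, b, rfl⟩ := Submodule.mem_span_pair.mp hs
  have h1 : (1 : T) ∈ Submodule.span ℂ {(1 : T), S.z} := Submodule.subset_span (by simp)
  have hz : S.z ∈ Submodule.span ℂ {(1 : T), S.z} := Submodule.subset_span (by simp)
  constructor
  · rw [map_add, map_smul, map_smul, map_one, S.rho_z]
    exact Submodule.add_mem _ (Submodule.smul_mem _ _ h1)
      (Submodule.smul_mem _ _ (Submodule.sub_mem _ h1 hz))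
  · rw [map_add, map_smul, map_smul, map_one, S.rho_z, map_add, map_smul, map_smul, map_one,
      map_sub, map_one, S.rho_z, sub_sub_cancel]

theorem W5_span_zero {x : T} (hx : x ∈ S.H 0 0) : x ∈ Submodule.span ℂ {(1 : T), S.z} := by
  rw [S.empty_box, Submodule.mem_span_pair] at hx
  obtain ⟨a, b, rfl⟩ := hx
  have h1 : (1 : T) ∈ Submodule.span ℂ {(1 : T), S.z} := Submodule.subset_span (by simp)
  have hz : S.z ∈ Submodule.span ℂ {(1 : T), S.z} := Submodule.subset_span (by simp)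
  exact Submodule.add_mem _ (Submodule.smul_mem _ _ hz)
    (Submodule.smul_mem _ _ (Submodule.sub_mem _ h1 hz))

theorem W5_rot_mem {n : ℕ} {x : T} (hx : x ∈ S.H 0 n) : star S.r * S.ρ x * S.r ∈ S.H 0 n := by
  have h1 : S.ρ x ∈ S.H 1 (n + 1) := by
    have := S.rho_mem _ _ _ hx
    simpa using this
  have h2 : S.ρ x ∈ S.H 2 (n + 2) := pad_to 1 h1 (by omega) (by omega)
  have h3 : star S.r ∈ S.H (n + 2) n := pad_to n (star_mem' S.r_mem) (by omega) (by omega)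
  exact S.mul_mem _ _ _ _ _ (S.mul_mem _ _ _ _ _ h3 h2) S.r_mem

theorem W5_cancel_right (hδ : (S.δ : ℂ) ≠ 0) {k : ℕ} {u v : T} (hu : u ∈ S.H 0 k)
    (hv : v ∈ S.H 0 k) (h : u * S.r = v * S.r) : u = v := by
  have key : ∀ w ∈ S.H 0 k, S.rp k (star S.r) * (w * S.r) = (S.δ : ℂ) • w := by
    intro w hw
    have e : S.rp k S.r * w = w * S.r := S.slide hw S.r_mem
    rw [← e, ← mul_assoc, ← map_mul, S.loop, map_smul, map_one, smul_mul_assoc, one_mul]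
  have h1 : (S.δ : ℂ) • u = (S.δ : ℂ) • v := by rw [← key u hu, ← key v hv, h]
  exact smul_right_injective T hδ h1

theorem W5_cancel_left (hδ : (S.δ : ℂ) ≠ 0) {u v : T} (h : S.r * u = S.r * v) : u = v := by
  have key : ∀ w : T, star S.r * (S.r * w) = (S.δ : ℂ) • w := by
    intro w
    rw [← mul_assoc, S.loop, smul_mul_assoc, one_mul]
  have h1 : (S.δ : ℂ) • u = (S.δ : ℂ) • v := by rw [← key u, ← key v, h]
  exact smul_right_injective T hδ h1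

theorem W5_claimA (hδ : (S.δ : ℂ) ≠ 0) (m : ℕ) : ∀ x ∈ S.H 0 (2 * m), x * S.r = S.r * x →
    ∃ s ∈ Submodule.span ℂ {(1 : T), S.z}, x = s * S.r ^ m := by
  induction m with
  | zero =>
    intro x hx _
    exact ⟨x, W5_span_zero hx, by rw [pow_zero, mul_one]⟩
  | succ m ih =>
    intro x hx hxr
    have h1 : star S.r * x ∈ S.H 0 (2 * m) :=
      mul_to (pad_to (2 * m) (star_mem' S.r_mem) (by omega) (by omega) :
        star S.r ∈ S.H (2 * m + 2) (2 * m)) hx rfl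
    have h2 : star S.r * x * S.r = (S.δ : ℂ) • x := by
      rw [mul_assoc, hxr, ← mul_assoc, S.loop, smul_mul_assoc, one_mul]
    have h3 : S.r * (star S.r * x) ∈ S.H 0 (2 * (m + 1)) :=
      mul_to (pad_to (2 * m) S.r_mem (by omega) (by omega) :
        S.r ∈ S.H (2 * m) (2 * (m + 1))) h1 rfl
    have h4 : S.r * (star S.r * x) = (S.δ : ℂ) • x := by
      apply W5_cancel_right hδ h3 (Submodule.smul_mem _ _ hx)
      rw [mul_assoc, h2, mul_smul_comm, smul_mul_assoc, hxr]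
    have h5 : star S.r * x * S.r = S.r * (star S.r * x) := by rw [h2, h4]
    obtain ⟨s, hs, h6⟩ := ih _ h1 h5
    refine ⟨(S.δ : ℂ)⁻¹ • s, Submodule.smul_mem _ _ hs, ?_⟩
    have h7 : x = (S.δ : ℂ)⁻¹ • (S.r * (star S.r * x)) := by
      rw [h4, smul_smul, inv_mul_cancel₀ hδ, one_smul]
    rw [h7, h6, ← mul_assoc, ← W5_span_comm hs S.r_mem, pow_succ', smul_mul_assoc, mul_assoc]

theorem W5_claimB (hδ : (S.δ : ℂ) ≠ 0) {m : ℕ} {y₀ : T} (hy₀ : y₀ ∈ S.H 0 (2 * m))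
    (hfix : star S.r * S.ρ (star S.r * S.ρ (S.r * y₀) * S.r) * S.r = S.r * y₀) :
    ∃ s ∈ Submodule.span ℂ {(1 : T), S.z}, S.r * y₀ = s * S.r ^ (m + 1) := by
  have e1 : star S.r * S.ρ (S.r * y₀) * S.r = S.ρ y₀ * S.r := by
    rw [map_mul, ← mul_assoc, S.zigzag, one_mul]
  have e2 : star S.r * S.ρ (S.ρ y₀ * S.r) * S.r = y₀ * S.r := by
    have e3 : star S.r * S.rp 2 y₀ = y₀ * star S.r := S.slide' (star_mem' S.r_mem) hy₀
    rw [W5_rp_two] at e3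
    rw [map_mul, ← mul_assoc, e3, mul_assoc y₀, S.zigzag, mul_one]
  rw [e1, e2] at hfix
  obtain ⟨s, hs, h1⟩ := W5_claimA hδ m y₀ hy₀ hfix
  refine ⟨s, hs, ?_⟩
  rw [h1, ← mul_assoc, ← W5_span_comm hs S.r_mem, pow_succ', mul_assoc]

theorem W5_rot2_mem {n : ℕ} {x : T} (hx : x ∈ S.H 0 n) :
    star (S.R 2) * S.rp 2 x * S.R 2 ∈ S.H 0 n := by
  rw [rot_two]
  exact W5_rot_mem (W5_rot_mem hx)

theorem W5_descent {n : ℕ} {y : T} (hfix : star (S.R 2) * S.rp 2 y * S.R 2 = y) :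
    ∀ i : ℕ, (∃ y₀ ∈ S.H 0 n, y = S.rp i S.r * y₀) →
      (∃ y₀ ∈ S.H 0 n, y = S.r * y₀) ∨ (∃ y₀ ∈ S.H 0 n, y = S.ρ S.r * y₀) := by
  intro i
  induction i using Nat.strong_induction_on with
  | _ i ih =>
    rintro ⟨y₀, hy₀, hy⟩
    rcases Nat.lt_or_ge i 2 with h2 | h2
    · interval_cases i
      · exact Or.inl ⟨y₀, hy₀, hy⟩
      · exact Or.inr ⟨y₀, hy₀, hy⟩
    · obtain ⟨l, rfl⟩ : ∃ l, i = l + 2 := ⟨i - 2, by omega⟩
      apply ih l (by omega)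
      refine ⟨star (S.R 2) * S.rp 2 y₀ * S.R 2, W5_rot2_mem hy₀, ?_⟩
      have e1 : S.rp 2 (S.rp (l + 2) S.r) = S.rp 4 (S.rp l S.r) := by
        rw [← S.rp_add, ← S.rp_add, show 2 + (l + 2) = 4 + l by omega]
      have hR : star (S.R 2) ∈ S.H 4 0 := star_mem' (S.R_mem 2)
      have e2 : star (S.R 2) * S.rp 4 (S.rp l S.r) = S.rp l S.r * star (S.R 2) :=
        S.slide' hR (rp_mem l S.r_mem)
      conv_lhs => rw [← hfix, hy]
      rw [map_mul, e1, ← mul_assoc, e2]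
      simp only [mul_assoc]

theorem W5_rot_inj {n : ℕ} (hn : 1 ≤ n) {x y : T} (hx : x ∈ S.H 0 n) (hy : y ∈ S.H 0 n)
    (h : star S.r * S.ρ x * S.r = star S.r * S.ρ y * S.r) : x = y := by
  obtain ⟨m, rfl⟩ : ∃ m, n = m + 1 := ⟨n - 1, by omega⟩
  have h1 := S.rotation _ x hx
  have h2 := S.rotation _ y hy
  rw [Function.iterate_succ_apply] at h1 h2
  rw [← h1, ← h2, h]

theorem rot2_fixed (hδ : 2 < S.δ) {j : ℕ} (hj : 1 ≤ j) {y : T} (hy : S.Cups 0 (2 * j) y)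
    (hfix : star (S.R 2) * S.rp 2 y * S.R 2 = y) :
    ∃ s ∈ Submodule.span ℂ {(1 : T), S.z},
      y = s * S.r ^ j ∨ y = s * (S.ρ S.r ^ (j - 1) * S.r) := by
  have hδ0 : (S.δ : ℂ) ≠ 0 := by
    have h0 : (0 : ℝ) < S.δ := by linarith
    exact_mod_cast h0.ne'
  obtain ⟨m, rfl⟩ : ∃ m, j = m + 1 := ⟨j - 1, by omega⟩
  rw [Nat.add_sub_cancel]
  have hyH : y ∈ S.H 0 (2 * (m + 1)) := cups_mem hy
  have hex : ∃ i, ∃ y₀ ∈ S.H 0 (2 * m), y = S.rp i S.r * y₀ := by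
    have key : ∀ {k n : ℕ} {y : T}, S.Cups k n y → k = 0 → n = 2 * (m + 1) →
        ∃ i, ∃ y₀ ∈ S.H 0 (2 * m), y = S.rp i S.r * y₀ := by
      intro k n y h hk hn
      cases h with
      | nil => omega
      | cons i hi h' =>
        subst hk
        have hn' : ∀ n', n' + 2 = 2 * (m + 1) → n' = 2 * m := fun n' h => by omega
        have := hn' _ hn
        subst this
        exact ⟨i, _, cups_mem h', rfl⟩
    exact key hy rfl rfl
  obtain ⟨i, hi⟩ := hex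
  have hfix' := hfix
  rw [rot_two] at hfix'
  rcases W5_descent hfix i hi with ⟨y₀, hy₀, rfl⟩ | ⟨y₀, hy₀, hyy⟩
  · obtain ⟨s, hs, h1⟩ := W5_claimB hδ0 hy₀ hfix'
    exact ⟨s, hs, Or.inl h1⟩
  · have e1 : star S.r * S.ρ y * S.r = S.r * (star S.r * S.ρ y₀ * S.r) := by
      have e3 : star S.r * S.rp 2 S.r = S.r * star S.r := S.slide' (star_mem' S.r_mem) S.r_mem
      rw [W5_rp_two] at e3
      rw [hyy, map_mul, ← mul_assoc, e3]
      simp only [mul_assoc]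
    have hfix2 : star S.r * S.ρ (star S.r * S.ρ (S.r * (star S.r * S.ρ y₀ * S.r)) * S.r) * S.r =
        S.r * (star S.r * S.ρ y₀ * S.r) := by
      rw [← e1, hfix']
    obtain ⟨s, hs, h1⟩ := W5_claimB hδ0 (W5_rot_mem hy₀) hfix2
    rw [← e1] at h1
    obtain ⟨hs1, hs2⟩ := W5_span_rho hs
    refine ⟨S.ρ s, hs1, Or.inr ?_⟩
    have hc : S.ρ S.r ^ m * S.r ∈ S.H 0 (2 * (m + 1)) := by
      have := cups_mem (S.comb_cups (m + 1) (by omega)).2
      rwa [Nat.add_sub_cancel] at this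
    refine W5_rot_inj (by omega) hyH (mul_to (W5_span_mem hs1 _) hc rfl) ?_
    rw [h1, map_mul, hs2, ← mul_assoc, ← W5_span_comm hs (star_mem' S.r_mem), mul_assoc s,
      mul_assoc s, S.W5_rot_comb m]

end SubfactorPlanarAlgebra

end Pool.Agent.ST5
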