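import Pool.Agent.ST5.Q.W2
import Pool.Agent.ST5.Q.W3
import Pool.Agent.ST5.Q.W5
import Pool.Agent.ST5.Q.E5N
import Pool.Agent.ST5.P.D8
import Pool.Agent.ST5.P.C2

/-!
ST6 row W6. The traces of the rotation by two strings for j ≤ N.

PROOF. `finrank_KK`: finrank (KK (2j)) = (G^(2j)) o o (`finrank_closed` with a = 0, rp 0 z = z; KK n is Hom 0 1 n z) = bal (2j) 0 for j ≤ N
 (`path_N`, `closed_walks_N`, e 0 = o).
So `cups_basis` gives a basis b y = z * y indexed by M = {y // Cups 0 (2j) y}. The map τ y = star (R 2) * rp 2 y * R 2 maps M to M for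
 j ≥ 1 (`rot_two`, `rot_cups` twice), and rotK 1 (2j) (b y) = b (τ y) (`rotK_apply`, R (2*1) = R 2, rp 2 (z y) = z rp 2 y (`rp_z_even`), z commutes:
 `z_comm`). So the matrix of rotK 1 (2j) is a permutation-like 0/1 matrix with diagonal entries [τ y = y]:
 trace = number of y ∈ M with τ y = y (`LinearMap.trace_eq_matrix_trace`, `LinearMap.toMatrix_apply`, `Basis.repr_self`,
 `Finsupp.single_apply`; Fintype of M from `cups_card`).
 Fixed points: by `rot2_fixed` a fixed y is s * c, c = r^j or c = ρ(r)^(j-1) * r, both in M (`comb_cups`); z * y = (α+β) z * c for s = α + β z, i.e.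
 b y = (α+β) • b c, so y = c by linear independence (a basis: b y = γ • b c forces y = c, as b y ≠ 0). Conversely both are fixed (`comb_fixed`).
 j ≥ 2: they are different (`comb_ne`): exactly 2. j = 1: both are r: exactly 1.
-/

namespace Pool.Agent.ST5

namespace SubfactorPlanarAlgebra

namespace SimpleSystem

variable {T : Type*} [Ring T] [StarRing T] [Algebra ℂ T] [StarModule ℂ T]
  {S : SubfactorPlanarAlgebra T} (Q : S.SimpleSystem)

/-- the rotation by two strings -/
def w6rot (S : SubfactorPlanarAlgebra T) (y : T) : T := star (S.R 2) * S.rp 2 y * S.R 2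

lemma w6_cups {j : ℕ} (hj : 1 ≤ j) {y : T} (hy : S.Cups 0 (2 * j) y) :
    S.Cups 0 (2 * j) (w6rot S y) := by
  unfold w6rot
  rw [rot_two]
  exact rot_cups (by omega) (rot_cups (by omega) hy)

lemma w6_rotz (y : T) : w6rot S (S.z * y) = S.z * w6rot S y := by
  have hz : S.rp 2 S.z = S.z := S.rp_z_even (by omega)
  have h1 : S.z * star (S.R 2) = star (S.R 2) * S.z := z_comm (star_mem' (S.R_mem 2))
  unfold w6rot
  rw [map_mul, hz]
  calc star (S.R 2) * (S.z * S.rp 2 y) * S.R 2 = (star (S.R 2) * S.z) * S.rp 2 y * S.R 2 := by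
        simp only [mul_assoc]
    _ = S.z * (star (S.R 2) * S.rp 2 y * S.R 2) := by rw [← h1]; simp only [mul_assoc]

include Q in
lemma w6_finrank {N : ℕ} (h : S.Supertransitive N) (hδ : 2 < S.δ) {j : ℕ} (hjN : j ≤ N) :
    Module.finrank ℂ (S.KK (2 * j)) = bal (2 * j) 0 := by
  classical
  obtain ⟨e, he0, hinj, hrow⟩ := Q.path_N h hδ
  have h1 := Q.finrank_closed 0 (2 * j)
  rw [rp_zero] at h1
  have h2 := closed_walks_N Q.G Q.G_symm N e hinj hrow j hjN
  rw [he0] at h2
  exact h1.trans h2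

include Q in
lemma w6_trace {N : ℕ} (h : S.Supertransitive N) (hδ : 2 < S.δ) {j : ℕ} (hj : 1 ≤ j)
    (hjN : j ≤ N) :
    (S.r ^ j = S.ρ S.r ^ (j - 1) * S.r →
      LinearMap.trace ℂ (S.KK (2 * j)) (S.rotK 1 (2 * j)) = 1) ∧
    (S.r ^ j ≠ S.ρ S.r ^ (j - 1) * S.r →
      LinearMap.trace ℂ (S.KK (2 * j)) (S.rotK 1 (2 * j)) = 2) := by
  classical
  have hdim : bal (2 * j) 0 ≤ Module.finrank ℂ (S.KK (2 * j)) := (w6_finrank Q h hδ hjN).ge
  obtain ⟨b, hb⟩ := cups_basis h hjN hdim
  have hfin : Finite {y : T // S.Cups 0 (2 * j) y} := (S.cups_card (2 * j) 0).1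
  have hft : Fintype {y : T // S.Cups 0 (2 * j) y} := Fintype.ofFinite _
  set τ : {y : T // S.Cups 0 (2 * j) y} → {y : T // S.Cups 0 (2 * j) y} :=
    fun y => ⟨w6rot S y.1, w6_cups hj y.2⟩ with hτ
  have hrot : ∀ y, S.rotK 1 (2 * j) (b y) = b (τ y) := by
    intro y
    apply Subtype.ext
    rw [rotK_apply, hb, hb]
    exact w6_rotz y.1
  obtain ⟨hc1, hc2⟩ := S.comb_cups j hj
  obtain ⟨hf1, hf2⟩ := S.comb_fixed j hj
  have hfix : ∀ y : {y : T // S.Cups 0 (2 * j) y}, τ y = y ↔ y = ⟨_, hc1⟩ ∨ y = ⟨_, hc2⟩ := by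
    intro y
    constructor
    · intro hy
      have hy1 : star (S.R 2) * S.rp 2 y.1 * S.R 2 = y.1 := congrArg Subtype.val hy
      obtain ⟨s, hs, hys⟩ := rot2_fixed hδ hj y.2 hy1
      rw [Submodule.mem_span_pair] at hs
      obtain ⟨α, β, rfl⟩ := hs
      have hzs : S.z * (α • (1 : T) + β • S.z) = (α + β) • S.z := by
        rw [mul_add, mul_smul_comm, mul_smul_comm, mul_one, S.z_mul, add_smul]
      have key : ∀ c : {y : T // S.Cups 0 (2 * j) y}, y.1 = (α • (1 : T) + β • S.z) * c.1 → y = c := by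
        intro c hc
        have h1 : b y = (α + β) • b c := by
          apply Subtype.ext
          rw [Submodule.coe_smul, hb, hb, hc, ← mul_assoc, hzs, smul_mul_assoc]
        by_contra hne
        have h2 := congrArg (fun x => b.repr x y) h1
        simp only [map_smul, Module.Basis.repr_self, Finsupp.smul_apply, Finsupp.single_apply,
          if_true] at h2
        rw [if_neg (fun h3 => hne h3.symm)] at h2
        simp at h2
      rcases hys with hys | hys
      · exact Or.inl (key ⟨_, hc1⟩ hys)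
      · exact Or.inr (key ⟨_, hc2⟩ hys)
    · rintro (hy | hy)
      · rw [hy]
        exact Subtype.ext hf1
      · rw [hy]
        exact Subtype.ext hf2
  have htr : LinearMap.trace ℂ (S.KK (2 * j)) (S.rotK 1 (2 * j)) =
      ((({⟨_, hc1⟩, ⟨_, hc2⟩} : Finset {y : T // S.Cups 0 (2 * j) y}).card : ℕ) : ℂ) := by
    rw [LinearMap.trace_eq_matrix_trace ℂ b, Matrix.trace]
    have hdiag : ∀ y, (LinearMap.toMatrix b b (S.rotK 1 (2 * j))).diag y =
        if y ∈ ({⟨_, hc1⟩, ⟨_, hc2⟩} : Finset {y : T // S.Cups 0 (2 * j) y}) then (1 : ℂ) else 0 := by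
      intro y
      rw [Matrix.diag_apply, LinearMap.toMatrix_apply, hrot, Module.Basis.repr_self,
        Finsupp.single_apply]
      congr 1
      rw [hfix y, Finset.mem_insert, Finset.mem_singleton]
    rw [Finset.sum_congr rfl (fun y _ => hdiag y), Finset.sum_ite_mem, Finset.univ_inter,
      Finset.sum_const, nsmul_eq_mul, mul_one]
  constructor
  · intro h3
    have h4 : (⟨_, hc1⟩ : {y : T // S.Cups 0 (2 * j) y}) = ⟨_, hc2⟩ := Subtype.ext h3
    rw [htr, h4, Finset.pair_eq_singleton, Finset.card_singleton, Nat.cast_one]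
  · intro h3
    have h4 : (⟨_, hc1⟩ : {y : T // S.Cups 0 (2 * j) y}) ≠ ⟨_, hc2⟩ :=
      fun h5 => h3 (congrArg Subtype.val h5)
    rw [htr, Finset.card_pair h4]
    norm_num

include Q in
theorem trace_rot_one {N : ℕ} (h : S.Supertransitive N) (hδ : 2 < S.δ) (hN : 1 ≤ N) :
    LinearMap.trace ℂ (S.KK (2 * 1)) (S.rotK 1 (2 * 1)) = 1 := by
  apply (w6_trace Q h hδ le_rfl hN).1
  rw [pow_one, Nat.sub_self, pow_zero, one_mul]

include Q in
theorem trace_rot_two {N : ℕ} (h : S.Supertransitive N) (hδ : 2 < S.δ) {j : ℕ} (hj : 2 ≤ j)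
    (hjN : j ≤ N) : LinearMap.trace ℂ (S.KK (2 * j)) (S.rotK 1 (2 * j)) = 2 := by
  exact (w6_trace Q h hδ (by omega) hjN).2 (comb_ne hδ hj)

end SimpleSystem

end SubfactorPlanarAlgebra

end Pool.Agent.ST5
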