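import Mathlib

/-!
ST6 row X1. The spectral measure of a weighted family of operators with eigenvalues on the unit circle.

PROOF. `trace_pow_eq_sum_unit`: copy the proof of `trace_pow_eq_sum` (Pool/Agent/ST5/F/F1.lean): s = the finite set of μ with
 maxGenEigenspace L μ ≠ ⊥, n μ = its finrank > 0; such a μ is an eigenvalue (`Module.End.hasEigenvalue_of_hasGenEigenvalue`,
 or: `Module.End.maxGenEigenspace_eq_bot…`; a nonzero generalised eigenspace contains an eigenvector), so ‖μ‖ = 1 by hL.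
`exists_measure`: take s W, n W for every W ∈ E (choose), Θ := E.biUnion s (classical), η θ := (∑_{W ∈ E} d W * (if θ ∈ s W then n W θ else 0)) / D > 0;
 ∑_Θ η θ θ^j = D⁻¹ ∑_W d W ∑_{θ ∈ s W} n W θ θ^j = D⁻¹ ∑_W d W trace (P W ^ j) = κ j. η θ ∈ K: sums, products, quotient of elements of K
 and natural numbers.
-/

namespace Pool.Agent.ST5

theorem trace_pow_eq_sum_unit {V : Type*} [AddCommGroup V] [Module ℂ V] [FiniteDimensional ℂ V]
    (L : V →ₗ[ℂ] V) (hL : ∀ (μ : ℂ) (f : V), L f = μ • f → f ≠ 0 → ‖μ‖ = 1) :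
    ∃ (s : Finset ℂ) (n : ℂ → ℕ), (∀ c ∈ s, 0 < n c ∧ ‖c‖ = 1) ∧ ∀ m : ℕ,
      LinearMap.trace ℂ V (L ^ m) = ∑ c ∈ s, (n c : ℂ) * c ^ m := by
  classical
  have hds := DirectSum.isInternal_submodule_of_iSupIndep_of_iSup_eq_top
      (Module.End.independent_maxGenEigenspace (R := ℂ) L)
      (Module.End.iSup_maxGenEigenspace_eq_top L)
  have h_fin : {μ | Module.End.maxGenEigenspace L μ ≠ ⊥}.Finite :=
      WellFoundedGT.finite_ne_bot_of_iSupIndep (Module.End.independent_maxGenEigenspace (R := ℂ) L)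
  refine ⟨h_fin.toFinset, fun c => Module.finrank ℂ (Module.End.maxGenEigenspace L c), ?_,
    fun m => ?_⟩
  · intro c hc
    have hc' : Module.End.maxGenEigenspace L c ≠ ⊥ := h_fin.mem_toFinset.1 hc
    refine ⟨?_, ?_⟩
    · rw [Nat.pos_iff_ne_zero]
      intro h0
      exact hc' (Submodule.finrank_eq_zero.1 h0)
    · have h0 : Module.End.HasUnifEigenvalue L c ⊤ := hc'
      have h1 : Module.End.HasEigenvalue L c := h0.lt zero_lt_one
      obtain ⟨f, hf⟩ := h1.exists_hasEigenvector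
      exact hL c f hf.apply_eq_smul hf.2
  have hf : ∀ (m : ℕ) (μ : ℂ), Set.MapsTo (L ^ m) (Module.End.maxGenEigenspace L μ : Set V)
      (Module.End.maxGenEigenspace L μ : Set V) := fun m μ =>
    Module.End.mapsTo_maxGenEigenspace_of_comm ((Commute.refl L).pow_right m) μ
  have hf1 : ∀ (μ : ℂ), Set.MapsTo L (Module.End.maxGenEigenspace L μ : Set V)
      (Module.End.maxGenEigenspace L μ : Set V) := fun μ =>
    Module.End.mapsTo_maxGenEigenspace_of_comm (Commute.refl L) μ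
  rw [LinearMap.trace_eq_sum_trace_restrict' hds h_fin (hf m)]
  refine Finset.sum_congr rfl fun μ _ => ?_
  have key : ∀ k : ℕ, LinearMap.trace ℂ (Module.End.maxGenEigenspace L μ)
      ((L.restrict (hf1 μ)) ^ k) = Module.finrank ℂ (Module.End.maxGenEigenspace L μ) * μ ^ k := by
    intro k
    induction k with
    | zero => rw [pow_zero, pow_zero, mul_one, LinearMap.trace_one]
    | succ k ih =>
      have h1 := Module.End.isNilpotent_restrict_maxGenEigenspace_sub_algebraMap L μ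
      have h2 := LinearMap.trace_comp_eq_mul_of_commute_of_isNilpotent (R := ℂ)
        (M := Module.End.maxGenEigenspace L μ) (f := (L.restrict (hf1 μ)) ^ k)
        (g := L.restrict (hf1 μ)) μ ((Commute.refl _).pow_left k) h1
      rw [pow_succ, Module.End.mul_eq_comp, h2, ih]
      ring
  rw [← key m]
  congr 1
  rw [Module.End.pow_restrict]

theorem exists_measure {J : Type*} (E : Finset J) (d : J → ℝ) (hd : ∀ W ∈ E, 0 < d W) (D : ℝ)
    (hD : 0 < D) (V : J → Type*) [∀ W, AddCommGroup (V W)] [∀ W, Module ℂ (V W)]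
    [∀ W, FiniteDimensional ℂ (V W)] (P : ∀ W, V W →ₗ[ℂ] V W)
    (hP : ∀ W ∈ E, ∀ (μ : ℂ) (f : V W), P W f = μ • f → f ≠ 0 → ‖μ‖ = 1) (κ : ℕ → ℂ)
    (hTF : ∀ j : ℕ, ∑ W ∈ E, (d W : ℂ) * LinearMap.trace ℂ (V W) (P W ^ j) = (D : ℂ) * κ j)
    (K : IntermediateField ℚ ℂ) (hdK : ∀ W ∈ E, (d W : ℂ) ∈ K) (hDK : (D : ℂ) ∈ K) :
    ∃ (Θ : Finset ℂ) (η : ℂ → ℝ), (∀ θ ∈ Θ, 0 < η θ) ∧ (∀ θ ∈ Θ, ‖θ‖ = 1) ∧
      (∀ θ ∈ Θ, (η θ : ℂ) ∈ K) ∧ ∀ j : ℕ, κ j = ∑ θ ∈ Θ, (η θ : ℂ) * θ ^ j := by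
  classical
  have hex : ∀ W : J, ∃ (s : Finset ℂ) (n : ℂ → ℕ), W ∈ E → (∀ c ∈ s, 0 < n c ∧ ‖c‖ = 1) ∧
      ∀ m : ℕ, LinearMap.trace ℂ (V W) (P W ^ m) = ∑ c ∈ s, (n c : ℂ) * c ^ m := by
    intro W
    by_cases hW : W ∈ E
    · obtain ⟨s, n, h1, h2⟩ := trace_pow_eq_sum_unit (P W) (hP W hW)
      exact ⟨s, n, fun _ => ⟨h1, h2⟩⟩
    · exact ⟨∅, fun _ => 0, fun h => absurd h hW⟩
  choose s n hsn using hex
  have hD' : (D : ℂ) ≠ 0 := by exact_mod_cast hD.ne'
  refine ⟨E.biUnion s, fun θ => (∑ W ∈ E, d W * (if θ ∈ s W then (n W θ : ℝ) else 0)) / D,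
    ?_, ?_, ?_, ?_⟩
  · intro θ hθ
    obtain ⟨W, hW, hθW⟩ := Finset.mem_biUnion.1 hθ
    apply div_pos _ hD
    apply Finset.sum_pos'
    · intro W' hW'
      apply mul_nonneg (hd W' hW').le
      split_ifs
      · exact Nat.cast_nonneg _
      · exact le_rfl
    · refine ⟨W, hW, ?_⟩
      rw [if_pos hθW]
      exact mul_pos (hd W hW) (by exact_mod_cast ((hsn W hW).1 θ hθW).1)
  · intro θ hθ
    obtain ⟨W, hW, hθW⟩ := Finset.mem_biUnion.1 hθ
    exact ((hsn W hW).1 θ hθW).2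
  · intro θ hθ
    rw [Complex.ofReal_div, Complex.ofReal_sum]
    refine K.div_mem (K.sum_mem fun W hW => ?_) hDK
    rw [Complex.ofReal_mul]
    refine K.mul_mem (hdK W hW) ?_
    split_ifs
    · rw [Complex.ofReal_natCast]
      exact natCast_mem K _
    · rw [Complex.ofReal_zero]
      exact K.zero_mem
  · intro j
    have h1 : κ j = (∑ W ∈ E, (d W : ℂ) * LinearMap.trace ℂ (V W) (P W ^ j)) / D := by
      rw [hTF j, mul_div_cancel_left₀ _ hD']
    rw [h1]
    have h2 : ∀ W ∈ E, (d W : ℂ) * LinearMap.trace ℂ (V W) (P W ^ j) =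
        ∑ θ ∈ E.biUnion s, (d W : ℂ) * ((if θ ∈ s W then (n W θ : ℂ) else 0) * θ ^ j) := by
      intro W hW
      rw [(hsn W hW).2 j, Finset.mul_sum]
      have h3 : s W ⊆ E.biUnion s := Finset.subset_biUnion_of_mem s hW
      rw [← Finset.sum_subset h3]
      · refine Finset.sum_congr rfl fun θ hθ => ?_
        rw [if_pos hθ]
      · intro θ _ hθ
        rw [if_neg hθ, zero_mul, mul_zero]
    rw [Finset.sum_congr rfl h2, Finset.sum_comm, Finset.sum_div]
    refine Finset.sum_congr rfl fun θ _ => ?_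
    rw [Complex.ofReal_div, Complex.ofReal_sum, div_mul_eq_mul_div, Finset.sum_mul]
    congr 1
    refine Finset.sum_congr rfl fun W _ => ?_
    rw [Complex.ofReal_mul]
    split_ifs <;> push_cast <;> ring

end Pool.Agent.ST5
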