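import Mathlib

/-!
ST6 row X2. Perron-Frobenius eigenvectors over a subfield of ℝ; the eigenvalue is an algebraic integer.

PROOF. `pf_field`: as `pf_rational` (Pool/Agent/ST5/F/F4.lean) with the field F instead of ℚ: choose an F-linear φ : ℝ → F with φ 1 = 1
 (`LinearMap.exists_leftInverse_of_injective`); B = G², B d = δ² d with δ² ∈ F, y i = φ (d i) satisfies B y = δ² y, y o = 1, and by the
 Perron-Frobenius argument (F4_pf there; copy it) y i / d i is constant = 1 along even walks from o, so d i = φ (d i) ∈ F for even a i.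
`delta_sq_integral`: d ≠ 0 is an eigenvector of the natural matrix G² with the eigenvalue δ², so δ² is a root of the characteristic polynomial of
 G² over ℤ (monic): `Matrix.exists_mulVec_eq_zero_iff`, `Matrix.charpoly_map`, `Matrix.eval_charpoly`…, or by the determinant trick
 (`isIntegral` of an endomorphism preserving a f.g. faithful module: `isIntegral_of_mem_of_FG`/`IsIntegral` via
 M = span_ℤ {d i}, finitely generated, stable under multiplication by δ², contains d o = 1).
-/

namespace Pool.Agent.ST5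

private theorem X2_proj (F : Subfield ℝ) : ∃ g : ℝ →ₗ[F] F, g 1 = 1 := by
  obtain ⟨g, hg⟩ := LinearMap.exists_leftInverse_of_injective (LinearMap.toSpanSingleton F ℝ 1)
    (LinearMap.ker_toSpanSingleton F one_ne_zero)
  refine ⟨g, ?_⟩
  have h := congrArg (fun f : F →ₗ[F] F => f 1) hg
  simpa using h

private theorem X2_pf {J : Type*} [Fintype J] (A : J → J → ℝ) (h0 : ∀ i j, 0 ≤ A i j)
    (hs : ∀ i j, A i j = A j i) (d y : J → ℝ) (hd : ∀ i, 0 < d i) (q : ℝ)
    (hAd : ∀ i, ∑ j, A i j * d j = q * d i) (hAy : ∀ i, ∑ j, A i j * y j = q * y i) (i j : J)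
    (hij : A i j ≠ 0) : y i / d i = y j / d j := by
  have hterm : ∀ i j, A i j * (d i * d j * (y i / d i - y j / d j) ^ 2) =
      (A i j * d j) * (y i ^ 2 / d i) + (A j i * d i) * (y j ^ 2 / d j) - 2 * ((A i j * y j) * y i) := by
    intro i j
    have h1 := (hd i).ne'
    have h2 := (hd j).ne'
    rw [hs j i]
    field_simp
    ring
  have hsum1 : ∑ i, ∑ j, (A i j * d j) * (y i ^ 2 / d i) = q * ∑ i, y i ^ 2 := by
    rw [Finset.mul_sum]
    refine Finset.sum_congr rfl fun i _ => ?_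
    rw [← Finset.sum_mul, hAd i]
    have h1 := (hd i).ne'
    field_simp
  have hsum2 : ∑ i, ∑ j, (A j i * d i) * (y j ^ 2 / d j) = q * ∑ i, y i ^ 2 := by
    rw [Finset.sum_comm]
    exact hsum1
  have hsum3 : ∑ i, ∑ j, 2 * ((A i j * y j) * y i) = 2 * (q * ∑ i, y i ^ 2) := by
    rw [Finset.mul_sum, Finset.mul_sum]
    refine Finset.sum_congr rfl fun i _ => ?_
    rw [← Finset.mul_sum, ← Finset.sum_mul, hAy i]
    ring
  have hkey : ∑ i, ∑ j, A i j * (d i * d j * (y i / d i - y j / d j) ^ 2) = 0 := by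
    rw [Finset.sum_congr rfl fun i _ => Finset.sum_congr rfl fun j _ => hterm i j]
    simp only [Finset.sum_sub_distrib, Finset.sum_add_distrib]
    rw [hsum1, hsum2, hsum3]
    ring
  have hnn : ∀ i j, 0 ≤ A i j * (d i * d j * (y i / d i - y j / d j) ^ 2) := fun i j =>
    mul_nonneg (h0 i j) (mul_nonneg (mul_nonneg (hd i).le (hd j).le) (sq_nonneg _))
  rw [Finset.sum_eq_zero_iff_of_nonneg
    (fun i _ => Finset.sum_nonneg fun j _ => hnn i j)] at hkey
  have h1 := hkey i (Finset.mem_univ i)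
  rw [Finset.sum_eq_zero_iff_of_nonneg (fun j _ => hnn i j)] at h1
  have h2 := h1 j (Finset.mem_univ j)
  rcases mul_eq_zero.1 h2 with h3 | h3
  · exact absurd h3 hij
  · rcases mul_eq_zero.1 h3 with h4 | h4
    · exact absurd h4 (mul_pos (hd i) (hd j)).ne'
    · have h5 := pow_eq_zero_iff (two_ne_zero) |>.1 h4
      linarith

private theorem X2_sq {J : Type*} [Fintype J] [DecidableEq J] (G : Matrix J J ℕ) (d : J → ℝ)
    (δ : ℝ) (hPF : ∀ i, ∑ j, (G i j : ℝ) * d j = δ * d i) (i : J) :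
    ∑ k, (((G * G) i k : ℕ) : ℝ) * d k = δ ^ 2 * d i := by
  calc ∑ k, (((G * G) i k : ℕ) : ℝ) * d k = ∑ k, ∑ j, (G i j : ℝ) * (G j k : ℝ) * d k := by
        refine Finset.sum_congr rfl fun k _ => ?_
        rw [Matrix.mul_apply, Nat.cast_sum, Finset.sum_mul]
        refine Finset.sum_congr rfl fun j _ => ?_
        rw [Nat.cast_mul]
    _ = ∑ j, (G i j : ℝ) * (δ * d j) := by
        rw [Finset.sum_comm]
        refine Finset.sum_congr rfl fun j _ => ?_
        rw [← hPF j, Finset.mul_sum]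
        exact Finset.sum_congr rfl fun k _ => mul_assoc _ _ _
    _ = δ * (δ * d i) := by
        rw [← hPF i, Finset.mul_sum]
        exact Finset.sum_congr rfl fun j _ => by ring
    _ = δ ^ 2 * d i := by ring

theorem pf_field {J : Type*} [Fintype J] [DecidableEq J] (a : J → ℕ) (G : Matrix J J ℕ)
    (hsym : ∀ i j, G i j = G j i) (o : J) (d : J → ℝ) (hd : ∀ i, 0 < d i) (hdo : d o = 1)
    (δ : ℝ) (hPF : ∀ i, ∑ j, (G i j : ℝ) * d j = δ * d i) (hconn : ∀ i, (G ^ (a i)) o i ≠ 0)
    (F : Subfield ℝ) (hq : δ ^ 2 ∈ F) : ∀ i, a i % 2 = 0 → d i ∈ F := by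
  obtain ⟨g, hg⟩ := X2_proj F
  have hB := X2_sq G d δ hPF
  have hBy : ∀ i, ∑ k, (((G * G) i k : ℕ) : ℝ) * ((g (d k) : F) : ℝ) =
      δ ^ 2 * ((g (d i) : F) : ℝ) := by
    intro i
    have h1 := congrArg g (hB i)
    have h0 : δ ^ 2 * d i = (⟨δ ^ 2, hq⟩ : F) • d i := rfl
    rw [map_sum, h0, map_smul, smul_eq_mul] at h1
    have h2 : ∀ k, g ((((G * G) i k : ℕ) : ℝ) * d k) = (((G * G) i k : ℕ) : F) * g (d k) := by
      intro k
      rw [← nsmul_eq_mul, map_nsmul, nsmul_eq_mul]
    rw [Finset.sum_congr rfl fun k _ => h2 k] at h1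
    have h3 := congrArg (fun x : F => (x : ℝ)) h1
    push_cast at h3
    exact h3
  have hsymB : ∀ i j, (G * G) i j = (G * G) j i := by
    intro i j
    rw [Matrix.mul_apply, Matrix.mul_apply]
    refine Finset.sum_congr rfl fun k _ => ?_
    rw [hsym i k, hsym k j, mul_comm]
  have hstep : ∀ i j, (G * G) i j ≠ 0 → ((g (d i) : F) : ℝ) / d i = ((g (d j) : F) : ℝ) / d j := by
    intro i j hij
    refine X2_pf (fun i j => (((G * G) i j : ℕ) : ℝ)) (fun i j => Nat.cast_nonneg _)
      (fun i j => by rw [hsymB i j]) d (fun i => ((g (d i) : F) : ℝ)) hd (δ ^ 2) hB hBy i j ?_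
    exact_mod_cast hij
  have hwalk : ∀ (n : ℕ) (i : J), ((G * G) ^ n) o i ≠ 0 → ((g (d i) : F) : ℝ) / d i = 1 := by
    intro n
    induction n with
    | zero =>
      intro i hi
      rw [pow_zero] at hi
      have h1 : o = i := by
        by_contra h
        exact hi (Matrix.one_apply_ne h)
      rw [← h1, hdo, hg]
      norm_num
    | succ n ih =>
      intro i hi
      rw [pow_succ, Matrix.mul_apply] at hi
      obtain ⟨j, _, hj⟩ := Finset.exists_ne_zero_of_sum_ne_zero hi
      have h1 := ih j (left_ne_zero_of_mul hj)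
      have h2 := hstep j i (right_ne_zero_of_mul hj)
      rw [← h2, h1]
  intro i hi
  have h1 : ((G * G) ^ (a i / 2)) o i ≠ 0 := by
    rw [← pow_two, ← pow_mul, show 2 * (a i / 2) = a i by omega]
    exact hconn i
  have h2 := hwalk _ i h1
  rw [div_eq_one_iff_eq (hd i).ne'] at h2
  rw [← h2]
  exact (g (d i)).2

theorem delta_sq_integral {J : Type*} [Fintype J] [DecidableEq J] (G : Matrix J J ℕ) (o : J)
    (d : J → ℝ) (hdo : d o = 1) (δ : ℝ) (hPF : ∀ i, ∑ j, (G i j : ℝ) * d j = δ * d i) :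
    IsIntegral ℤ (δ ^ 2) := by
  have hB := X2_sq G d δ hPF
  let M : Matrix J J ℤ := (G * G).map (Nat.cast : ℕ → ℤ)
  have h1 : (M.map (Int.castRingHom ℝ)).charpoly.eval (δ ^ 2) = 0 := by
    rw [Matrix.eval_charpoly]
    apply Matrix.exists_mulVec_eq_zero_iff.mp
    refine ⟨d, ?_, ?_⟩
    · intro h
      have := congrFun h o
      rw [hdo] at this
      exact one_ne_zero this
    · rw [Matrix.sub_mulVec]
      funext i
      have h2 : (Matrix.mulVec (Matrix.scalar J (δ ^ 2)) d) i = δ ^ 2 * d i := by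
        rw [Matrix.scalar_apply, Matrix.mulVec_diagonal]
      have h3 : (Matrix.mulVec (M.map (Int.castRingHom ℝ)) d) i = δ ^ 2 * d i := by
        rw [← hB i]
        simp only [Matrix.mulVec, dotProduct]
        refine Finset.sum_congr rfl fun k _ => ?_
        simp only [M, Matrix.map_apply, Int.coe_castRingHom, Int.cast_natCast]
      rw [Pi.sub_apply, h2, h3, sub_self, Pi.zero_apply]
  refine ⟨M.charpoly, M.charpoly_monic, ?_⟩
  rw [Matrix.charpoly_map, Polynomial.eval_map] at h1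
  exact h1

end Pool.Agent.ST5
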