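import Pool.Agent.ST5.Q.U7
import Pool.Agent.ST5.Q.U8
import Pool.Agent.ST5.Q.U9
import Pool.Agent.ST5.Q.W6
import Pool.Agent.ST5.Q.X1
import Pool.Agent.ST5.Q.X2
import Pool.Agent.ST5.N.N5
import Pool.Agent.ST5.N.N6
import Pool.Agent.ST5.N.V5
import Pool.Agent.ST5.P.B5
import Pool.Agent.ST5.P.C2

/-!
ST6 row X3. The spectral measure of the planar algebra (assembly).

PROOF. κ a j := trace (rotK a (2j)). For a ≥ 1 `exists_measure` with E = the even W, P W = PP a W, V W = ∏ EE a W k, D = ∑_{k even} (d k)², hTF =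
`trace_formula2 a`, hP = `PP_eigen`. (D > 0: o is even, d o = 1.)
(1) with a = 1 and K = ℚ(δ²): the d W (W even) are in K: `pf_field` with F = {x ∈ ℝ | (x : ℂ) ∈ K} (`Subfield.comap` of K.toSubfield along
 `Complex.ofRealHom`), G_symm, connected, pf, d_pos, d_o. This gives Θ, η.
(2) the θ are roots of unity: `roots_of_unity_of_bounded` with κ: hκ: `trace_of_finite_order` for T = rotK 1 (2j), T^j = 1 (`rotK_full`),
 rotK a = T^a (`rotK_pow`), j ≥ 1; hB: for a ≥ 1, `exists_measure` for a with K = ⊤ gives ‖κ a j‖ ≤ ∑ η θ.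
(3) total mass: j = 0: ∑ η θ = κ 1 0 = δ² (`trace_rotK_zero`, 2 * 0); j = 1: κ 1 1 = 1, 2 ≤ j ≤ N: κ 1 j = 2 (`trace_rot_one`, `trace_rot_two`).
(4) finrank ℚ K ≤ m: δ² is integral over ℚ (`delta_sq_integral`), `IntermediateField.adjoin.finrank`, minpoly over ℂ = minpoly over ℝ
 (`minpoly.algebraMap_eq`).
-/

namespace Pool.Agent.ST5

namespace SubfactorPlanarAlgebra

theorem spectral_measure {T : Type*} [Ring T] [StarRing T] [Algebra ℂ T] [StarModule ℂ T]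
    (S : SubfactorPlanarAlgebra T) (hfd : S.FiniteDepth) (hδ : 2 < S.δ) (N : ℕ) (hN : 1 ≤ N)
    (h : S.Supertransitive N) (m : ℕ) (hm : (minpoly ℚ (S.δ ^ 2)).natDegree ≤ m) :
    ∃ (Θ : Finset ℂ) (η : ℂ → ℝ) (K : IntermediateField ℚ ℂ) (_ : FiniteDimensional ℚ K),
      Module.finrank ℚ K ≤ m ∧ (∀ θ ∈ Θ, 0 < η θ) ∧ (∀ θ ∈ Θ, (η θ : ℂ) ∈ K) ∧
      (∀ θ ∈ Θ, ∃ n : ℕ, 0 < n ∧ θ ^ n = 1) ∧ ∑ θ ∈ Θ, η θ = S.δ ^ 2 ∧
      ∑ θ ∈ Θ, (η θ : ℂ) * θ = 1 ∧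
      ∀ j, 2 ≤ j → j ≤ N → ∑ θ ∈ Θ, (η θ : ℂ) * θ ^ j = 2 := by
  classical
  obtain ⟨Q⟩ := exists_system hfd
  have hoE : Q.o ∈ Finset.univ.filter (fun W => Q.a W % 2 = 0) := by
    rw [Finset.mem_filter]
    exact ⟨Finset.mem_univ _, by rw [Q.a_o]⟩
  have hD : 0 < ∑ k ∈ Finset.univ.filter (fun k => Q.a k % 2 = 0), (Q.d k) ^ 2 :=
    Finset.sum_pos (fun k _ => pow_pos (Q.d_pos k) 2) ⟨Q.o, hoE⟩
  have hint : IsIntegral ℤ (S.δ ^ 2) :=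
    delta_sq_integral Q.G Q.o Q.d Q.d_o S.δ Q.pf
  have hintQ : IsIntegral ℚ ((S.δ ^ 2 : ℝ) : ℂ) := by
    have h1 : IsIntegral ℚ (S.δ ^ 2) := hint.tower_top
    have h2 := h1.map (IsScalarTower.toAlgHom ℚ ℝ ℂ)
    simpa using h2
  obtain ⟨K, hK⟩ : ∃ K, K = IntermediateField.adjoin ℚ {((S.δ ^ 2 : ℝ) : ℂ)} := ⟨_, rfl⟩
  have hKfd : FiniteDimensional ℚ K := by
    rw [hK]
    exact IntermediateField.adjoin.finiteDimensional hintQ
  have hKm : Module.finrank ℚ K ≤ m := by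
    rw [hK, IntermediateField.adjoin.finrank hintQ]
    have h1 : minpoly ℚ ((S.δ ^ 2 : ℝ) : ℂ) = minpoly ℚ (S.δ ^ 2) :=
      minpoly.algebraMap_eq (A := ℚ) (B := ℝ) (B' := ℂ) (algebraMap ℝ ℂ).injective (S.δ ^ 2)
    rw [h1]
    exact hm
  have hδK : ((S.δ ^ 2 : ℝ) : ℂ) ∈ K := by
    rw [hK]
    exact IntermediateField.subset_adjoin ℚ _ (Set.mem_singleton _)
  have hdK : ∀ W ∈ Finset.univ.filter (fun W => Q.a W % 2 = 0), (Q.d W : ℂ) ∈ K := by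
    intro W hW
    have h1 := pf_field Q.a Q.G Q.G_symm Q.o Q.d Q.d_pos Q.d_o S.δ Q.pf Q.connected
      (K.toSubfield.comap Complex.ofRealHom) (by
        rw [Subfield.mem_comap]
        exact hδK) W (Finset.mem_filter.mp hW).2
    rw [Subfield.mem_comap] at h1
    exact h1
  have hDK : ((∑ k ∈ Finset.univ.filter (fun k => Q.a k % 2 = 0), (Q.d k) ^ 2 : ℝ) : ℂ) ∈ K := by
    rw [Complex.ofReal_sum]
    refine sum_mem fun k hk => ?_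
    rw [Complex.ofReal_pow]
    exact pow_mem (hdK k hk) 2
  have hmeas : ∀ a, 1 ≤ a → ∀ K' : IntermediateField ℚ ℂ,
      (∀ W ∈ Finset.univ.filter (fun W => Q.a W % 2 = 0), (Q.d W : ℂ) ∈ K') →
      ((∑ k ∈ Finset.univ.filter (fun k => Q.a k % 2 = 0), (Q.d k) ^ 2 : ℝ) : ℂ) ∈ K' →
      ∃ (Θ : Finset ℂ) (η : ℂ → ℝ), (∀ θ ∈ Θ, 0 < η θ) ∧ (∀ θ ∈ Θ, ‖θ‖ = 1) ∧
      (∀ θ ∈ Θ, (η θ : ℂ) ∈ K') ∧ ∀ j : ℕ,
        LinearMap.trace ℂ (S.KK (2 * j)) (S.rotK a (2 * j)) = ∑ θ ∈ Θ, (η θ : ℂ) * θ ^ j := by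
    intro a ha K' h1 h2
    exact exists_measure (Finset.univ.filter (fun W => Q.a W % 2 = 0)) Q.d
      (fun W _ => Q.d_pos W) _ hD (fun W => ∀ k, Q.EE a W k) (fun W => Q.PP a W)
      (fun W _ μ f hf h0 => Q.PP_eigen ha W μ f hf h0)
      (fun j => LinearMap.trace ℂ (S.KK (2 * j)) (S.rotK a (2 * j)))
      (fun j => Q.trace_formula2 a j) K' h1 h2
  obtain ⟨Θ, η, hη, hΘ, hηK, hκ⟩ := hmeas 1 le_rfl K hdK hDK
  refine ⟨Θ, η, K, hKfd, hKm, hη, hηK, ?_, ?_, ?_, ?_⟩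
  · refine roots_of_unity_of_bounded Θ η hη (fun θ hθ h0 => ?_)
      (fun a j => LinearMap.trace ℂ (S.KK (2 * j)) (S.rotK a (2 * j))) ?_ ?_ (fun j _ => hκ j)
    · have h1 := hΘ θ hθ
      rw [h0, norm_zero] at h1
      exact zero_ne_one h1
    · intro j hj
      obtain ⟨M, hM⟩ := trace_of_finite_order (S.rotK 1 (2 * j)) j hj (S.rotK_full j)
      refine ⟨M, fun a => ?_⟩
      rw [S.rotK_pow a (2 * j)]
      exact hM a
    · intro a ha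
      obtain ⟨Θ', η', hη', hΘ', -, hκ'⟩ := hmeas a ha ⊤ (fun _ _ => IntermediateField.mem_top)
        IntermediateField.mem_top
      refine ⟨∑ θ ∈ Θ', η' θ, fun j _ => ?_⟩
      rw [hκ' j]
      refine (norm_sum_le _ _).trans (Finset.sum_le_sum fun θ hθ => ?_)
      rw [norm_mul, norm_pow, hΘ' θ hθ, one_pow, mul_one, Complex.norm_real,
        Real.norm_of_nonneg (hη' θ hθ).le]
  · have h1 := hκ 0
    rw [S.trace_rotK_zero 1] at h1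
    have h2 : ((∑ θ ∈ Θ, η θ : ℝ) : ℂ) = ((S.δ ^ 2 : ℝ) : ℂ) := by
      push_cast
      simpa using h1.symm
    exact_mod_cast h2
  · have h1 := hκ 1
    rw [Q.trace_rot_one h hδ hN] at h1
    rw [h1]
    exact Finset.sum_congr rfl fun θ _ => by rw [pow_one]
  · intro j hj hjN
    rw [← hκ j, Q.trace_rot_two h hδ hj hjN]

end SubfactorPlanarAlgebra

end Pool.Agent.ST5
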