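import Pool.Agent.ST5.Q.X3

/-!
ST6: the main theorem.
-/

namespace Pool.Agent.ST5

universe u

theorem supertransitivity_bounded (m : ℕ) (B : ℝ) : ∃ N0 : ℕ,
    ∀ (T : Type u) [Ring T] [StarRing T] [Algebra ℂ T] [StarModule ℂ T]
      (S : SubfactorPlanarAlgebra T), S.FiniteDepth → 2 < S.δ → S.δ ^ 2 ≤ B →
      (minpoly ℚ (S.δ ^ 2)).natDegree ≤ m → ∀ N, S.Supertransitive N → N < N0 := by
  obtain ⟨N0, hN0⟩ := arithmetic_part m B
  refine ⟨N0 + 1, ?_⟩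
  intro T _ _ _ _ S hfd hδ hB hm N hN
  by_contra hlt
  have hN0' : N0 + 1 ≤ N := by omega
  obtain ⟨Θ, η, K, hK, hKm, h1, h2, h3, h4, h5, h6⟩ :=
    S.spectral_measure hfd hδ (N0 + 1) (by omega) (fun k hk => hN k (by omega)) m hm
  exact hN0 Θ η K hK hKm h1 h2 h3 (by rw [h4]; exact hB) h5
    (fun j hj hjN => h6 j hj (by omega))

end Pool.Agent.ST5
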