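import Pool.Agent.ST5.Q.UDefs
import Pool.Agent.ST5.P.D2

/-!
ST6 row U1. Composition of families through `X^2 ⊗ -`; the powers of the operator P.

PROOF. `rp_comp_fam`. mem: c m s ∈ Hom(p m; n, P), so rp 2 (c m s) ∈ Hom(a m + 2, rp 2 (p m); n + 2, rp 2 P) and
 g m l t ∈ Hom(p l; a m + 2, rp 2 (p m)). orth: star (rp 2 c * g) * (rp 2 c' * g') = star g * rp 2 (star c * c') * g'; for (m,s) = (m',s') it
 is star g * rp 2 (p m) * g' = star g * g'; for m = m', s ≠ s' it is 0 (`hc.orth`); for m ≠ m' it is 0 (`cross`).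
 complete: ∑_l ∑_{(m,s,t)} rp 2 c g star g rp 2 (star c) = ∑_m ∑_s rp 2 c (∑_l ∑_t g star g) rp 2 (star c)
 = ∑ rp 2 (c p m star c) = rp 2 (∑ c star c) = rp 2 P (c p m = c). (Same structure as `comp_fam`, P/C1.lean.)
`PP_pow`: induction on j, as `L_pow` (P/D2.lean). j = 0: (P^0 f) l = f l; by `sum_fam_indep` (with w := 2 a, object
 rp 0 (p k) = p k at level a k + 2*0) the right side may be computed with `self_fam`: only k = l contributes:
 rp (2a) (star (p l)) * f l * p l = rp (2a) (p l) * f l * p l = f l [f l * (p l * rp (a l) (p W)) = f l implies f l * p l = f l since p l and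
 rp (a l) (p W) commute (`inter`)]. Step: (P^(j+1) f) l = (P (P^j f)) l (`pow_succ'`)
 = ∑_m ∑_t rp (2a) (star (gv m l t)) * rp 2 (∑_k ∑_s rp (2a) (star (c k m s)) * rp (2j) (f k) * c k m s) * gv m l t
 = ∑_k ∑_{(m,s,t)} rp (2a) (star (rp 2 (c k m s) * gv m l t)) * rp (2(j+1)) (f k) * (rp 2 (c k m s) * gv m l t)
 [rp 2 (rp (2a) x) = rp (2a) (rp 2 x)], for a family c of level j (some family exists: `Q.exists_fam`), the sum over
 the composed family (`rp_comp_fam`, with P = rp (2j) (p k), rp 2 (rp (2j) (p k)) = rp (2(j+1)) (p k)); by `sum_fam_indep`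
 (w := 2a, f := rp (2(j+1)) (f k)) it equals the sum over the given family.
-/

namespace Pool.Agent.ST5

namespace SubfactorPlanarAlgebra

namespace SimpleSystem

variable {T : Type*} [Ring T] [StarRing T] [Algebra ℂ T] [StarModule ℂ T]
  {S : SubfactorPlanarAlgebra T} (Q : S.SimpleSystem)

theorem rp_comp_fam {n : ℕ} {P : T} {ι : Q.J → Type} [∀ j, Fintype (ι j)]
    [∀ j, DecidableEq (ι j)] {c : ∀ j, ι j → T} (hc : Q.Fam n P ι c)
    {κ : Q.J → Q.J → Type} [∀ i l, Fintype (κ i l)] [∀ i l, DecidableEq (κ i l)]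
    {g : ∀ i l, κ i l → T}
    (hg : ∀ m, Q.Fam (Q.a m + 2 * 1) (S.rp (2 * 1) (Q.p m)) (κ m) (g m)) :
    Q.Fam (n + 2 * 1) (S.rp (2 * 1) P) (fun l => Σ m, ι m × κ m l)
      (fun l x => S.rp (2 * 1) (c x.1 x.2.1) * g x.1 l x.2.2) := by
  have hcross : ∀ i i' : Q.J, i ≠ i' → ∀ (s : ι i) (t : ι i'), star (c i s) * c i' t = 0 :=
    fun i i' hii s t => Q.cross hc hii s t
  constructor
  · rintro l ⟨i, s, t⟩
    have h1 := hc.mem i s
    have h2 := (hg i).mem l t
    refine ⟨mul_to (rp_mem (2 * 1) h1.1) h2.1 rfl, ?_, ?_⟩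
    · show S.rp (2 * 1) P * (S.rp (2 * 1) (c i s) * g i l t) = S.rp (2 * 1) (c i s) * g i l t
      rw [← mul_assoc, ← map_mul, h1.2.1]
    · show S.rp (2 * 1) (c i s) * g i l t * Q.p l = S.rp (2 * 1) (c i s) * g i l t
      rw [mul_assoc, h2.2.2]
  · rintro l ⟨i, s, t⟩ ⟨i', s', t'⟩
    show star (S.rp (2 * 1) (c i s) * g i l t) * (S.rp (2 * 1) (c i' s') * g i' l t') = _
    have h0 : star (S.rp (2 * 1) (c i s) * g i l t) * (S.rp (2 * 1) (c i' s') * g i' l t') =
        star (g i l t) * S.rp (2 * 1) (star (c i s) * c i' s') * g i' l t' := by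
      rw [star_mul, map_mul, map_star]
      simp only [mul_assoc]
    rw [h0]
    by_cases hi : i = i'
    · subst hi
      rw [hc.orth]
      by_cases hs : s = s'
      · subst hs
        rw [if_pos rfl, mul_assoc, ((hg i).mem l t').2.1, (hg i).orth]
        by_cases ht : t = t'
        · subst ht
          rw [if_pos rfl, if_pos rfl]
        · rw [if_neg ht, if_neg (fun h => ht ?_)]
          cases h
          rfl
      · rw [if_neg hs, map_zero, mul_zero, zero_mul, if_neg (fun h => hs ?_)]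
        cases h
        rfl
    · rw [hcross i i' hi, map_zero, mul_zero, zero_mul, if_neg (fun h => hi ?_)]
      cases h
      rfl
  · have h1 : ∀ l, (∑ x : Σ i, ι i × κ i l, S.rp (2 * 1) (c x.1 x.2.1) * g x.1 l x.2.2 *
        star (S.rp (2 * 1) (c x.1 x.2.1) * g x.1 l x.2.2)) =
        ∑ i, ∑ s, S.rp (2 * 1) (c i s) * (∑ t, g i l t * star (g i l t)) *
          star (S.rp (2 * 1) (c i s)) := by
      intro l
      rw [Fintype.sum_sigma]
      refine Finset.sum_congr rfl fun i _ => ?_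
      rw [Fintype.sum_prod_type]
      refine Finset.sum_congr rfl fun s _ => ?_
      rw [Finset.mul_sum, Finset.sum_mul]
      refine Finset.sum_congr rfl fun t _ => ?_
      rw [star_mul]
      simp only [mul_assoc]
    have h2 : ∀ i (s : ι i), (∑ l, S.rp (2 * 1) (c i s) * (∑ t, g i l t * star (g i l t)) *
        star (S.rp (2 * 1) (c i s))) = S.rp (2 * 1) (c i s * star (c i s)) := by
      intro i s
      rw [← Finset.sum_mul, ← Finset.mul_sum, (hg i).complete, ← map_star, ← map_mul,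
        ← map_mul, (hc.mem i s).2.2]
    rw [Finset.sum_congr rfl fun l _ => h1 l, Finset.sum_comm]
    rw [← hc.complete, map_sum]
    refine Finset.sum_congr rfl fun i _ => ?_
    rw [Finset.sum_comm, map_sum]
    exact Finset.sum_congr rfl fun s _ => h2 i s

theorem PP_pow {j : ℕ} {ι : Q.J → Q.J → Type} [∀ k l, Fintype (ι k l)]
    [∀ k l, DecidableEq (ι k l)] {c : ∀ k l, ι k l → T}
    (hc : ∀ k, Q.Fam (Q.a k + 2 * j) (S.rp (2 * j) (Q.p k)) (ι k) (c k))
    (a : ℕ) (W : Q.J) (f : ∀ k, Q.EE a W k) (l : Q.J) :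
    (((Q.PP a W ^ j) f l : Q.EE a W l) : T) =
      ∑ k, ∑ s : ι k l, S.rp (2 * a) (star (c k l s)) * S.rp (2 * j) (f k : T) * c k l s := by
  induction j generalizing ι l with
  | zero =>
    have h0 : ∀ k, ∑ s : ι k l, S.rp (2 * a) (star (c k l s)) * (f k : T) * c k l s =
        if k = l then (f k : T) else 0 := by
      intro k
      have hck : Q.Fam (Q.a k) (Q.p k) (ι k) (c k) := hc k
      rw [Q.sum_fam_indep hck (Q.self_fam k) (2 * a) (f k : T) l]
      by_cases h : k = l
      · subst h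
        rw [if_pos rfl]
        have hu : (Finset.univ : Finset (PLift (k = k))) = {⟨rfl⟩} := by
          ext x
          simp only [Finset.mem_univ, Finset.mem_singleton]
        rw [hu, Finset.sum_singleton]
        obtain ⟨-, hf2, hf3⟩ := (f k).2
        have hp := Q.simple k
        have hc1 : Q.p k * S.rp (Q.a k) (Q.p W) = S.rp (Q.a k) (Q.p W) * Q.p k :=
          inter hp.mem (Q.simple W).mem
        have hf4 : (f k : T) * Q.p k = f k := by
          calc (f k : T) * Q.p k
              = (f k : T) * (Q.p k * S.rp (Q.a k) (Q.p W)) * Q.p k := by rw [hf3]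
            _ = (f k : T) * (S.rp (Q.a k) (Q.p W) * (Q.p k * Q.p k)) := by
                rw [hc1]; simp only [mul_assoc]
            _ = (f k : T) * (Q.p k * S.rp (Q.a k) (Q.p W)) := by rw [hp.idem, hc1]
            _ = f k := hf3
        rw [hp.star_eq, hf2, hf4]
      · rw [if_neg h]
        refine Finset.sum_eq_zero fun x _ => ?_
        exact absurd x.down h
    show (f l : T) = ∑ k, ∑ s : ι k l, S.rp (2 * a) (star (c k l s)) * (f k : T) * c k l s
    rw [Finset.sum_congr rfl fun i _ => h0 i, Finset.sum_ite_eq' Finset.univ l]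
    simp
  | succ j ih =>
    choose k0 c0 hc0 using fun k => Q.exists_fam (Q.a k + 2 * j) (S.rp (2 * j) (Q.p k))
      ((Q.simple k).toIsProj.rp_even j)
    have hL : ∀ m, (((Q.PP a W ^ j) f m : Q.EE a W m) : T) =
        ∑ k, ∑ t : Fin (k0 k m), S.rp (2 * a) (star (c0 k m t)) * S.rp (2 * j) (f k : T) *
          c0 k m t :=
      fun m => ih (c := c0) hc0 m
    have hcomp : ∀ k, Q.Fam (Q.a k + 2 * (j + 1)) (S.rp (2 * (j + 1)) (Q.p k))
        (fun l => Σ m, Fin (k0 k m) × Fin (Q.gk m l))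
        (fun l x => S.rp (2 * 1) (c0 k x.1 x.2.1) * Q.gv x.1 l x.2.2) := by
      intro k
      have h := Q.rp_comp_fam (hc0 k) (fun m => Q.gv_fam m)
      have e2 : S.rp (2 * (j + 1)) (Q.p k) = S.rp (2 * 1) (S.rp (2 * j) (Q.p k)) := by
        rw [← rp_add]
        congr 1
        congr 1
        ring
      rw [e2]
      exact h
    rw [pow_succ', Module.End.mul_apply, PP_apply]
    have h1 : ∀ m (s : Fin (Q.gk m l)), S.rp (2 * a) (star (Q.gv m l s)) *
        S.rp (2 * 1) (((Q.PP a W ^ j) f m : Q.EE a W m) : T) * Q.gv m l s =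
        ∑ k, ∑ t : Fin (k0 k m), S.rp (2 * a) (star (S.rp (2 * 1) (c0 k m t) * Q.gv m l s)) *
          S.rp (2 * (j + 1)) (f k : T) * (S.rp (2 * 1) (c0 k m t) * Q.gv m l s) := by
      intro m s
      rw [hL m, map_sum, Finset.mul_sum, Finset.sum_mul]
      refine Finset.sum_congr rfl fun k _ => ?_
      rw [map_sum, Finset.mul_sum, Finset.sum_mul]
      refine Finset.sum_congr rfl fun t _ => ?_
      have e1 : S.rp (2 * (j + 1)) (f k : T) = S.rp (2 * 1) (S.rp (2 * j) (f k : T)) := by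
        rw [← rp_add]
        congr 1
        congr 1
        ring
      have e3 : S.rp (2 * a) (star (S.rp (2 * 1) (c0 k m t))) =
          S.rp (2 * 1) (S.rp (2 * a) (star (c0 k m t))) := by
        rw [← map_star]
        exact rp_rp_eq (by omega) _
      rw [e1, star_mul, map_mul, map_mul, map_mul, e3]
      simp only [mul_assoc]
    have h2 : ∀ k, ∑ s : ι k l, S.rp (2 * a) (star (c k l s)) * S.rp (2 * (j + 1)) (f k : T) *
          c k l s =
        ∑ m, ∑ s : Fin (Q.gk m l), ∑ t : Fin (k0 k m),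
          S.rp (2 * a) (star (S.rp (2 * 1) (c0 k m t) * Q.gv m l s)) *
          S.rp (2 * (j + 1)) (f k : T) * (S.rp (2 * 1) (c0 k m t) * Q.gv m l s) := by
      intro k
      rw [Q.sum_fam_indep (hc k) (hcomp k) (2 * a) (S.rp (2 * (j + 1)) (f k : T)) l,
        Fintype.sum_sigma]
      refine Finset.sum_congr rfl fun m _ => ?_
      rw [Fintype.sum_prod_type, Finset.sum_comm]
    calc ∑ m, ∑ s : Fin (Q.gk m l), S.rp (2 * a) (star (Q.gv m l s)) *
        S.rp (2 * 1) (((Q.PP a W ^ j) f m : Q.EE a W m) : T) * Q.gv m l s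
        = ∑ m, ∑ s : Fin (Q.gk m l), ∑ k, ∑ t : Fin (k0 k m),
          S.rp (2 * a) (star (S.rp (2 * 1) (c0 k m t) * Q.gv m l s)) *
          S.rp (2 * (j + 1)) (f k : T) * (S.rp (2 * 1) (c0 k m t) * Q.gv m l s) :=
          Finset.sum_congr rfl fun m _ => Finset.sum_congr rfl fun s _ => h1 m s
      _ = ∑ m, ∑ k, ∑ s : Fin (Q.gk m l), ∑ t : Fin (k0 k m),
          S.rp (2 * a) (star (S.rp (2 * 1) (c0 k m t) * Q.gv m l s)) *
          S.rp (2 * (j + 1)) (f k : T) * (S.rp (2 * 1) (c0 k m t) * Q.gv m l s) :=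
          Finset.sum_congr rfl fun m _ => Finset.sum_comm
      _ = ∑ k, ∑ m, ∑ s : Fin (Q.gk m l), ∑ t : Fin (k0 k m),
          S.rp (2 * a) (star (S.rp (2 * 1) (c0 k m t) * Q.gv m l s)) *
          S.rp (2 * (j + 1)) (f k : T) * (S.rp (2 * 1) (c0 k m t) * Q.gv m l s) :=
          Finset.sum_comm
      _ = _ := Finset.sum_congr rfl fun k _ => (h2 k).symm

end SimpleSystem

end SubfactorPlanarAlgebra

end Pool.Agent.ST5
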