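import Pool.Agent.ST5.Q.U1
import Pool.Agent.ST5.P.D3a

/-!
ST6 row U2. The trace of the powers of P; the odd components vanish.

PROOF. `trace_PP_pow`: `trace_pi` (P/D3a.lean) for F = (PP a W)^j: the (l,l) block maps f ∈ EE a W l to, by `PP_pow`
applied to Pi.single l f, ∑_{s : ι l l} rp (2a) (star (c l l s)) * rp (2j) f * c l l s = ∑_s psi … (c l l s) f
(`LinearMap.ext`, `Subtype.ext`), then `map_sum`. Copy of the proof of `trace_L_pow` (P/D3.lean, see
team-store ST5_D3.lean).
`trace_EE_odd`: for a k odd every x ∈ EE a W k is 0: x = x * (p k * rp (a k) (p W)); p k = p k z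
 (p k = z p k = p k z, `z_comm`), rp (a k) (p W) = rp (a k) z * rp (a k) (p W) = (1 - z) * rp (a k) (p W) (`rp_z`), and
 z (1 - z) = 0. So the space is trivial and every endomorphism is 0.
-/

namespace Pool.Agent.ST5

namespace SubfactorPlanarAlgebra

namespace SimpleSystem

variable {T : Type*} [Ring T] [StarRing T] [Algebra ℂ T] [StarModule ℂ T]
  {S : SubfactorPlanarAlgebra T} (Q : S.SimpleSystem)

theorem trace_PP_pow {j : ℕ} {ι : Q.J → Q.J → Type} [∀ k l, Fintype (ι k l)]
    [∀ k l, DecidableEq (ι k l)] {c : ∀ k l, ι k l → T}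
    (hc : ∀ k, Q.Fam (Q.a k + 2 * j) (S.rp (2 * j) (Q.p k)) (ι k) (c k)) (a : ℕ) (W : Q.J) :
    LinearMap.trace ℂ (∀ k, Q.EE a W k) (Q.PP a W ^ j) =
      ∑ k, ∑ s : ι k k, LinearMap.trace ℂ (Q.EE a W k)
        (psi a j (Q.simple k).toIsProj (Q.simple W).toIsProj ((hc k).mem k s)) := by
  rw [trace_pi (fun k => Q.EE a W k) (Q.PP a W ^ j)]
  refine Finset.sum_congr rfl fun l _ => ?_
  rw [← map_sum]
  congr 1
  apply LinearMap.ext
  intro f
  apply Subtype.ext
  have h1 : (((LinearMap.proj l).comp ((Q.PP a W ^ j).comp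
      (LinearMap.single ℂ (fun i => Q.EE a W i) l))) f : Q.EE a W l) =
        (Q.PP a W ^ j) (Pi.single l f) l := rfl
  rw [h1, Q.PP_pow hc a W (Pi.single l f) l, LinearMap.sum_apply, Submodule.coe_sum,
    Finset.sum_eq_single l]
  · refine Finset.sum_congr rfl fun s _ => ?_
    rw [Pi.single_eq_same]
    rfl
  · intro i _ hi
    refine Finset.sum_eq_zero fun s _ => ?_
    rw [Pi.single_eq_of_ne hi, Submodule.coe_zero, map_zero, mul_zero, zero_mul]
  · intro h
    exact absurd (Finset.mem_univ l) h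

theorem trace_EE_odd (a : ℕ) (W k : Q.J) (hk : Q.a k % 2 = 1)
    (F : Q.EE a W k →ₗ[ℂ] Q.EE a W k) : LinearMap.trace ℂ (Q.EE a W k) F = 0 := by
  have hzz : S.z * S.z = S.z := S.z_mul
  have h0 : Q.p k * S.rp (Q.a k) (Q.p W) = 0 := by
    have h1 : Q.p k * S.z = Q.p k := by
      rw [← z_comm (Q.simple k).mem, (Q.simple k).z_mul]
    have h2 : S.rp (Q.a k) (Q.p W) = (1 - S.z) * S.rp (Q.a k) (Q.p W) := by
      have h3 : S.rp (Q.a k) S.z = 1 - S.z := by
        rw [rp_z, if_neg (by rw [Nat.even_iff]; omega)]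
      rw [← h3, ← map_mul, (Q.simple W).z_mul]
    rw [← h1, h2, mul_assoc, ← mul_assoc S.z, mul_sub, mul_one, hzz, sub_self, zero_mul, mul_zero]
  have h1 : F = 0 := by
    apply LinearMap.ext
    intro x
    have hx : x = 0 := by
      apply Subtype.ext
      have h2 := x.2.2.2
      rw [h0, mul_zero] at h2
      exact h2.symm
    rw [hx, map_zero, map_zero]
  rw [h1, map_zero]

end SimpleSystem

end SubfactorPlanarAlgebra

end Pool.Agent.ST5
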