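import Pool.Agent.ST5.Q.UDefs

/-!
ST6 row U3. The trace of psi as the trace of a left multiplication. (Analogue of ST5 row D4,
P/D4.lean, team-store ST5_D4.lean.)

PROOF. big := Hom (b+w) (rp b q) (b+2a) (rp (2a) u) ⊇ small := Hom (b+w) (u * rp b q) (b+2a) (rp (2a) u)
(f * (u * rp b q) = f implies f * rp b q = f and f * u = f, as u and rp b q commute, `inter`). The same formula
psiBig f = rp (2a) (star g) * rp (2j) f * g is an endomorphism of big with range in small (g * u = g; see
`twist_mem`), its restriction to small is psi; with the inclusion i : small → big and the corestriction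
κ : big → small of psiBig: psi = κ ∘ i, psiBig = i ∘ κ, so trace psi = trace psiBig (`LinearMap.trace_comp_comm'`).
Hat: e : big ≃ Hom w q (2(b+a)) (rp (b+2a) u), e f = rp b f * R b, inverse x ↦ star (R b) * rp b x.
 Types: f ∈ H (b+w) (b+2a), rp b f ∈ H (2b+w) (2b+2a), R b ∈ H w (2b+w). x ∈ H w (2b+2a), rp b x ∈ H (b+w) (3b+2a),
 star (R b) ∈ H (3b+2a) (b+2a).
 e f * q = rp b f * R b * q = rp b f * rp (2b) q * R b (`slide`) = rp b (f * rp b q) * R b = e f; rp (b+2a) u * e f = rp b (rp (2a) u * f) * R b = e f.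
 rp (2a) u * star (R b) * rp b x = star (R b) * rp (2b) (rp (2a) u) * rp b x (`slide'`) = star (R b) * rp b (rp (b+2a) u * x); and
 star (R b) * rp b x * rp b q = star (R b) * rp b (x q).
 star (R b) * rp b (rp b f * R b) = star (R b) * rp (2b) f * rp b (R b) = f * star (R b) * rp b (R b) = f (`slide'`, `snake`).
 rp b (star (R b) * rp b x) * R b = rp b (star (R b)) * rp (2b) x * R b = rp b (star (R b)) * R b * x = x (`slide`, `snake'`).
 Conjugation, f = star (R b) * rp b x:
 e (psiBig f) = rp b (rp (2a) (star g) * rp (2j) (star (R b) * rp b x) * g) * R b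
   = rp (b+2a) (star g) * rp (b+2j) (star (R b)) * rp (2b+2j) x * (rp b g * R b), and rp b g * R b ∈ H 0 (2b+2j), so
   rp (2b+2j) x * (rp b g * R b) = (rp b g * R b) * x (`slide`): e (psiBig f) = thetaQ b a j g * x.
 `LinearMap.trace_conj'` (or trace_comp_comm').
-/

namespace Pool.Agent.ST5

namespace SubfactorPlanarAlgebra

variable {T : Type*} [Ring T] [StarRing T] [Algebra ℂ T] [StarModule ℂ T]
  {S : SubfactorPlanarAlgebra T}

lemma U3_fq {b w a : ℕ} {u q f : T} (hqq : q * q = q)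
    (hf : f ∈ S.Hom (b + w) (u * S.rp b q) (b + 2 * a) (S.rp (2 * a) u)) : f * S.rp b q = f := by
  obtain ⟨_, _, hf3⟩ := hf
  calc f * S.rp b q = f * (u * S.rp b q) * S.rp b q := by rw [hf3]
    _ = f * (u * (S.rp b q * S.rp b q)) := by simp only [mul_assoc]
    _ = f * (u * S.rp b q) := by rw [← map_mul, hqq]
    _ = f := hf3

/-- The map `f ↦ rp b f * R b`. -/
noncomputable def U3_A {b w : ℕ} (a : ℕ) {u q : T} (hq : S.IsProj w q) :
    S.Hom (b + w) (u * S.rp b q) (b + 2 * a) (S.rp (2 * a) u) →ₗ[ℂ]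
      S.Hom w q (2 * (b + a)) (S.rp (b + 2 * a) u) where
  toFun f := ⟨S.rp b f.1 * S.R b, by
    have hR : S.R b ∈ S.H 0 (2 * b) := S.R_mem b
    refine ⟨?_, ?_, ?_⟩
    · have h1 : S.rp b f.1 ∈ S.H (2 * b + w) (2 * (b + a)) :=
        rp_to b f.2.1 (by omega) (by omega)
      have h2 : S.R b ∈ S.H w (2 * b + w) := pad_to w hR (by omega) (by omega)
      exact S.mul_mem _ _ _ _ _ h1 h2
    · rw [← mul_assoc, rp_add, ← map_mul, f.2.2.1]
    · have h3 : S.R b * q = S.rp (2 * b) q * S.R b := (S.slide hR hq.mem).symm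
      have h4 : S.rp (2 * b) q = S.rp b (S.rp b q) := by rw [two_mul, rp_add]
      rw [mul_assoc, h3, h4, ← mul_assoc, ← map_mul, U3_fq hq.idem f.2]⟩
  map_add' f g := by
    apply Subtype.ext
    simp [add_mul]
  map_smul' c f := by
    apply Subtype.ext
    simp

lemma U3_hat_mem {b w a : ℕ} {q P x : T} (hx : x ∈ S.Hom w q (2 * (b + a)) P) :
    star (S.R b) * S.rp b x ∈ S.H (b + w) (b + 2 * a) := by
  have h1 : S.rp b x ∈ S.H (b + w) (3 * b + 2 * a) := rp_to b hx.1 (by omega) (by omega)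
  have h2 : star (S.R b) ∈ S.H (3 * b + 2 * a) (b + 2 * a) :=
    pad_to (b + 2 * a) (star_mem' (S.R_mem b)) (by omega) (by omega)
  exact S.mul_mem _ _ _ _ _ h2 h1

/-- The map `x ↦ rp (2a) (star g) * rp (2j) (star (R b) * rp b x) * g`. -/
noncomputable def U3_B {b w : ℕ} (a j : ℕ) {u q g : T} (hu : S.IsProj b u) (hq : S.IsProj w q)
    (hg : g ∈ S.Hom b u (b + 2 * j) (S.rp (2 * j) u)) :
    S.Hom w q (2 * (b + a)) (S.rp (b + 2 * a) u) →ₗ[ℂ]
      S.Hom (b + w) (u * S.rp b q) (b + 2 * a) (S.rp (2 * a) u) where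
  toFun x := ⟨S.rp (2 * a) (star g) * S.rp (2 * j) (star (S.R b) * S.rp b x.1) * g, by
    have hsg : star g ∈ S.H (b + 2 * j) b := star_mem' hg.1
    refine ⟨?_, ?_, ?_⟩
    · have h1 : S.rp (2 * a) (star g) ∈ S.H (b + 2 * j + 2 * a) (b + 2 * a) :=
        rp_to (2 * a) hsg (by omega) (by omega)
      have h2 : S.rp (2 * j) (star (S.R b) * S.rp b x.1) ∈
          S.H (b + w + 2 * j) (b + 2 * j + 2 * a) :=
        rp_to (2 * j) (U3_hat_mem x.2) (by omega) (by omega)
      have h3 : g ∈ S.H (b + w) (b + w + 2 * j) := pad_to w hg.1 (by omega) (by omega)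
      exact S.mul_mem _ _ _ _ _ (S.mul_mem _ _ _ _ _ h1 h2) h3
    · have h4 : S.rp (2 * a) u * S.rp (2 * a) (star g) = S.rp (2 * a) (star g) := by
        rw [← map_mul]
        congr 1
        have := congrArg star hg.2.2
        rwa [star_mul, hu.star_eq] at this
      rw [← mul_assoc, ← mul_assoc, h4]
    · have h5 : g * S.rp b q = S.rp (b + 2 * j) q * g := inter hg.1 hq.mem
      have h7 : S.rp (b + 2 * j) q = S.rp (2 * j) (S.rp b q) := by
        rw [add_comm b (2 * j), rp_add]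
      have h6 : S.rp (2 * j) (star (S.R b) * S.rp b x.1) * S.rp (b + 2 * j) q =
          S.rp (2 * j) (star (S.R b) * S.rp b x.1) := by
        rw [h7, ← map_mul, mul_assoc, ← map_mul, x.2.2.2]
      calc S.rp (2 * a) (star g) * S.rp (2 * j) (star (S.R b) * S.rp b x.1) * g *
            (u * S.rp b q)
          = S.rp (2 * a) (star g) * S.rp (2 * j) (star (S.R b) * S.rp b x.1) *
            ((g * u) * S.rp b q) := by simp only [mul_assoc]
        _ = S.rp (2 * a) (star g) * (S.rp (2 * j) (star (S.R b) * S.rp b x.1) *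
            S.rp (b + 2 * j) q) * g := by
            rw [hg.2.2, h5]; simp only [mul_assoc]
        _ = _ := by rw [h6]⟩
  map_add' f g := by
    apply Subtype.ext
    simp [mul_add, add_mul]
  map_smul' c f := by
    apply Subtype.ext
    simp

theorem trace_psi {b w : ℕ} (a j : ℕ) {u q g : T} (hu : S.IsProj b u) (hq : S.IsProj w q)
    (hg : g ∈ S.Hom b u (b + 2 * j) (S.rp (2 * j) u)) :
    LinearMap.trace ℂ (S.Hom (b + w) (u * S.rp b q) (b + 2 * a) (S.rp (2 * a) u))
        (psi a j hu hq hg) =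
      LinearMap.trace ℂ (S.Hom w q (2 * (b + a)) (S.rp (b + 2 * a) u))
        (leftMul (thetaQ_mem (a := a) hu hg)) := by
  have e1 : psi a j hu hq hg = U3_B a j hu hq hg ∘ₗ U3_A a hq := by
    refine LinearMap.ext fun f => Subtype.ext ?_
    change S.rp (2 * a) (star g) * S.rp (2 * j) f.1 * g =
      S.rp (2 * a) (star g) * S.rp (2 * j) (star (S.R b) * S.rp b (S.rp b f.1 * S.R b)) * g
    have hsR : star (S.R b) ∈ S.H (2 * b) 0 := star_mem' (S.R_mem b)
    have h1 : star (S.R b) * S.rp (2 * b) f.1 = f.1 * star (S.R b) := S.slide' hsR f.2.1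
    have h2 : star (S.R b) * S.rp b (S.rp b f.1 * S.R b) = f.1 := by
      rw [map_mul, ← rp_add, ← two_mul, ← mul_assoc, h1, mul_assoc, S.snake, mul_one]
    rw [h2]
  have e2 : leftMul (thetaQ_mem (a := a) hu hg) = U3_A a hq ∘ₗ U3_B (w := w) a j hu hq hg := by
    refine LinearMap.ext fun x => Subtype.ext ?_
    change S.thetaQ b a j g * x.1 =
      S.rp b (S.rp (2 * a) (star g) * S.rp (2 * j) (star (S.R b) * S.rp b x.1) * g) * S.R b
    have hR : S.R b ∈ S.H 0 (2 * b) := S.R_mem b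
    have hy : S.rp b g * S.R b ∈ S.H 0 (2 * b + 2 * j) := by
      have h11 : S.rp b g ∈ S.H (2 * b) (2 * b + 2 * j) := rp_to b hg.1 (by omega) (by omega)
      exact S.mul_mem _ _ _ _ _ h11 hR
    have h3 : S.rp (2 * b + 2 * j) x.1 * (S.rp b g * S.R b) = (S.rp b g * S.R b) * x.1 :=
      S.slide hy x.2.1
    have h4 : S.rp b (S.rp (2 * a) (star g)) = S.rp (b + 2 * a) (star g) := by
      rw [rp_add]
    have h5 : S.rp b (S.rp (2 * j) (star (S.R b))) = S.rp (b + 2 * j) (star (S.R b)) := by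
      rw [rp_add]
    have h60 : ∀ y : T, S.rp b (S.rp (2 * j) (S.rp b y)) = S.rp (2 * b + 2 * j) y := by
      intro y
      rw [← rp_add, ← rp_add]
      congr 2
      omega
    have h6 : S.rp b (S.rp (2 * j) (S.rp b x.1)) = S.rp (2 * b + 2 * j) x.1 := h60 x.1
    calc S.thetaQ b a j g * x.1
        = S.rp (b + 2 * a) (star g) * S.rp (b + 2 * j) (star (S.R b)) *
          ((S.rp b g * S.R b) * x.1) := by
          unfold thetaQ
          simp only [mul_assoc]
      _ = S.rp (b + 2 * a) (star g) * S.rp (b + 2 * j) (star (S.R b)) *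
          (S.rp (2 * b + 2 * j) x.1 * (S.rp b g * S.R b)) := by rw [h3]
      _ = _ := by
          rw [map_mul, map_mul, map_mul (S.rp (2 * j)), map_mul (S.rp b), h4, h5, h6]
          simp only [mul_assoc]
  rw [e1, e2]
  exact LinearMap.trace_comp_comm' _ _

end SubfactorPlanarAlgebra

end Pool.Agent.ST5
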