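import Pool.Agent.ST5.Q.UDefs

/-!
ST6 row U5. The trace of thetaQ is the scalar product of the annular closure with its rotation.

PROOF. b even, n = 2 (b+a), Θ = thetaQ b a j g, E = closeQ b j g = rp (2j) (star (R b)) * g * R b.
R n = R ((b+2a) + b) = rp (b+2a) (R b) * R (b+2a) (`R_add`). So star (R n) * Θ * R n = star (R (b+2a)) * C * R (b+2a) with
 C = rp (b+2a) (star (R b)) * rp (b+2a) (star g) * rp (b+2j) (star (R b)) * rp b g * R b * rp (b+2a) (R b).
 * R b * rp (b+2a) (R b) = rp (3b+2a) (R b) * R b (`slide`);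
 * rp b g * rp (3b+2a) (R b) = rp b (g * rp (2b+2a) (R b)) = rp b (rp (2b+2j+2a) (R b) * g) (`inter`, g ∈ H b (b+2j), with
   rp (2b+2a) (R b) = rp b (rp (b+2a) (R b)));
 * rp (b+2j) (star (R b)) * rp (3b+2j+2a) (R b) = rp (b+2j) (star (R b) * rp (2b) (rp (2a) (R b))) = rp (b+2j) (rp (2a) (R b) * star (R b)) (`slide'`).
 So C = rp (b+2a) (star (R b) * star g * rp (2j) (R b)) * rp (b+2j) (star (R b)) * rp b g * R b
      = rp (b+2a) (star E) * rp b (rp (2j) (star (R b)) * g) * R b.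
C ∈ H (b+2a) (b+2a), z C = C. `Tr_elt` at level n for Θ and at level b+2a for C: Tr n Θ = Tr (b+2a) C.
`Tr_elt_left`: star (R (b+2a)) * rp (b+2a) C * R (b+2a) = Tr (b+2a) C • rp (b+2a) z, and rp (b+2a) z = z (b even, `rp_z_even`).
Left side with R (2a + b) = rp (2a) (R b) * R (2a): star (R (2a)) * rp (2a) (star (R b) * rp b C * R b) * R (2a), and
 star (R b) * rp b C * R b = star (R b) * rp (2b) (rp (2a) (star E)) * rp (2b) (rp (2j) (star (R b)) * g) * rp b (R b) * R b
   = rp (2a) (star E) * (rp (2j) (star (R b)) * g) * star (R b) * rp b (R b) * R b  (`slide'` twice)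
   = rp (2a) (star E) * E (`snake`).
 So it is star (R (2a)) * rp (4a) (star E) * rp (2a) E * R (2a) = star E * (star (R (2a)) * rp (2a) E * R (2a)) (`slide'`).
-/

namespace Pool.Agent.ST5

namespace SubfactorPlanarAlgebra

variable {T : Type*} [Ring T] [StarRing T] [Algebra ℂ T] [StarModule ℂ T]
  {S : SubfactorPlanarAlgebra T}

private theorem U5_star_close (b j : ℕ) (g : T) :
    star (S.closeQ b j g) = star (S.R b) * star g * S.rp (2 * j) (S.R b) := by
  unfold closeQ
  rw [star_mul, star_mul, ← map_star, star_star, mul_assoc]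

/-- the partial closure -/
private theorem U5_right {b j : ℕ} (a : ℕ) {g : T} (hg : g ∈ S.H b (b + 2 * j)) :
    star (S.R (2 * (b + a))) * S.thetaQ b a j g * S.R (2 * (b + a)) =
      star (S.R (b + 2 * a)) * (S.rp (b + 2 * a) (star (S.closeQ b j g)) *
        S.rp b (S.rp (2 * j) (star (S.R b)) * g) * S.R b) * S.R (b + 2 * a) := by
  have hR : S.R b ∈ S.H 0 (2 * b) := S.R_mem b
  have hsR : star (S.R b) ∈ S.H (2 * b) 0 := star_mem' hR
  have e0 : S.R (2 * (b + a)) = S.rp (b + 2 * a) (S.R b) * S.R (b + 2 * a) := by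
    rw [← S.R_add (b + 2 * a) b]
    congr 1
    omega
  have e1 : S.R b * S.rp (b + 2 * a) (S.R b) =
      S.rp b (S.rp b (S.rp (b + 2 * a) (S.R b))) * S.R b := by
    have h1 := slide S hR (rp_mem (b + 2 * a) hR)
    rw [← h1, two_mul, rp_add]
  have e2 : g * S.rp b (S.rp (b + 2 * a) (S.R b)) =
      S.rp (b + 2 * j) (S.rp (b + 2 * a) (S.R b)) * g := inter hg (rp_mem (b + 2 * a) hR)
  have e3 : S.rp (b + 2 * j) (star (S.R b)) *
      S.rp b (S.rp (b + 2 * j) (S.rp (b + 2 * a) (S.R b))) =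
      S.rp (b + 2 * a) (S.rp (2 * j) (S.R b)) * S.rp (b + 2 * j) (star (S.R b)) := by
    have h1 : S.rp b (S.rp (b + 2 * j) (S.rp (b + 2 * a) (S.R b))) =
        S.rp (b + 2 * j) (S.rp (2 * b) (S.rp (2 * a) (S.R b))) := by
      rw [← rp_add, ← rp_add, ← rp_add, ← rp_add]
      congr 1
      congr 1
      omega
    have h2 : star (S.R b) * S.rp (2 * b) (S.rp (2 * a) (S.R b)) =
        S.rp (2 * a) (S.R b) * star (S.R b) := slide' S hsR (rp_mem (2 * a) hR)
    have h3 : S.rp (b + 2 * j) (S.rp (2 * a) (S.R b)) =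
        S.rp (b + 2 * a) (S.rp (2 * j) (S.R b)) := rp_rp_eq (by omega) _
    rw [h1, ← map_mul, h2, map_mul, h3]
  have e4 : S.rp (b + 2 * j) (star (S.R b)) * S.rp b g =
      S.rp b (S.rp (2 * j) (star (S.R b)) * g) := by
    rw [rp_add, ← map_mul]
  unfold thetaQ
  rw [e0, star_mul, ← map_star, U5_star_close, map_mul, map_mul, ← e4]
  calc star (S.R (b + 2 * a)) * S.rp (b + 2 * a) (star (S.R b)) *
        (S.rp (b + 2 * a) (star g) * S.rp (b + 2 * j) (star (S.R b)) * S.rp b g * S.R b) *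
        (S.rp (b + 2 * a) (S.R b) * S.R (b + 2 * a))
      = star (S.R (b + 2 * a)) * S.rp (b + 2 * a) (star (S.R b)) *
        (S.rp (b + 2 * a) (star g) * S.rp (b + 2 * j) (star (S.R b)) * S.rp b g *
        (S.R b * S.rp (b + 2 * a) (S.R b))) * S.R (b + 2 * a) := by simp only [mul_assoc]
    _ = star (S.R (b + 2 * a)) * S.rp (b + 2 * a) (star (S.R b)) *
        (S.rp (b + 2 * a) (star g) * S.rp (b + 2 * j) (star (S.R b)) *
        S.rp b (g * S.rp b (S.rp (b + 2 * a) (S.R b))) * S.R b) * S.R (b + 2 * a) := by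
          rw [e1, map_mul]; simp only [mul_assoc]
    _ = star (S.R (b + 2 * a)) * S.rp (b + 2 * a) (star (S.R b)) *
        (S.rp (b + 2 * a) (star g) * (S.rp (b + 2 * j) (star (S.R b)) *
        S.rp b (S.rp (b + 2 * j) (S.rp (b + 2 * a) (S.R b)))) * S.rp b g * S.R b) *
        S.R (b + 2 * a) := by
          rw [e2, map_mul]; simp only [mul_assoc]
    _ = _ := by
          rw [e3]; simp only [mul_assoc]

/-- the full closure on the left -/
private theorem U5_left {b j : ℕ} (a : ℕ) {g : T} (hg : g ∈ S.H b (b + 2 * j))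
    (hE : S.closeQ b j g ∈ S.H 0 (2 * j)) :
    star (S.R (b + 2 * a)) * S.rp (b + 2 * a) (S.rp (b + 2 * a) (star (S.closeQ b j g)) *
        S.rp b (S.rp (2 * j) (star (S.R b)) * g) * S.R b) * S.R (b + 2 * a) =
      star (S.closeQ b j g) *
        (star (S.R (2 * a)) * S.rp (2 * a) (S.closeQ b j g) * S.R (2 * a)) := by
  have hR : S.R b ∈ S.H 0 (2 * b) := S.R_mem b
  have hsR : star (S.R b) ∈ S.H (2 * b) 0 := star_mem' hR
  have hsE : star (S.closeQ b j g) ∈ S.H (2 * j) 0 := star_mem' hE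
  have hW : S.rp (2 * j) (star (S.R b)) * g ∈ S.H (2 * b) (2 * j) :=
    S.mul_mem _ _ _ _ _ (rp_to (2 * j) hsR (by omega) (by omega) :
      S.rp (2 * j) (star (S.R b)) ∈ S.H (2 * b + 2 * j) (2 * j))
      (pad_to b hg (by omega) (by omega))
  have e0 : S.R (b + 2 * a) = S.rp (2 * a) (S.R b) * S.R (2 * a) := by
    rw [← S.R_add (2 * a) b]
    congr 1
    omega
  have hin : star (S.R b) * S.rp b (S.rp (b + 2 * a) (star (S.closeQ b j g)) *
        S.rp b (S.rp (2 * j) (star (S.R b)) * g) * S.R b) * S.R b =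
      S.rp (2 * a) (star (S.closeQ b j g)) * S.closeQ b j g := by
    have h1 : S.rp b (S.rp (b + 2 * a) (star (S.closeQ b j g))) =
        S.rp (2 * b) (S.rp (2 * a) (star (S.closeQ b j g))) := rp_rp_eq (by omega) _
    have h2 : S.rp b (S.rp b (S.rp (2 * j) (star (S.R b)) * g)) =
        S.rp (2 * b) (S.rp (2 * j) (star (S.R b)) * g) := by rw [← S.rp_add b b, ← two_mul b]
    have h3 : star (S.R b) * S.rp (2 * b) (S.rp (2 * a) (star (S.closeQ b j g))) =
        S.rp (2 * a) (star (S.closeQ b j g)) * star (S.R b) :=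
      slide' S hsR (rp_mem (2 * a) hsE)
    have h4 : star (S.R b) * S.rp (2 * b) (S.rp (2 * j) (star (S.R b)) * g) =
        (S.rp (2 * j) (star (S.R b)) * g) * star (S.R b) := slide' S hsR hW
    rw [map_mul, map_mul, h1, h2]
    calc star (S.R b) * (S.rp (2 * b) (S.rp (2 * a) (star (S.closeQ b j g))) *
          S.rp (2 * b) (S.rp (2 * j) (star (S.R b)) * g) * S.rp b (S.R b)) * S.R b
        = (star (S.R b) * S.rp (2 * b) (S.rp (2 * a) (star (S.closeQ b j g)))) *
          S.rp (2 * b) (S.rp (2 * j) (star (S.R b)) * g) * S.rp b (S.R b) * S.R b := by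
            simp only [mul_assoc]
      _ = S.rp (2 * a) (star (S.closeQ b j g)) *
          (star (S.R b) * S.rp (2 * b) (S.rp (2 * j) (star (S.R b)) * g)) * S.rp b (S.R b) *
          S.R b := by rw [h3]; simp only [mul_assoc]
      _ = S.rp (2 * a) (star (S.closeQ b j g)) * (S.rp (2 * j) (star (S.R b)) * g) *
          (star (S.R b) * S.rp b (S.R b)) * S.R b := by rw [h4]; simp only [mul_assoc]
      _ = S.rp (2 * a) (star (S.closeQ b j g)) * (S.rp (2 * j) (star (S.R b)) * g * S.R b) := by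
            rw [S.snake, mul_one]; simp only [mul_assoc]
      _ = _ := rfl
  have h5 : star (S.R (2 * a)) * S.rp (2 * a) (S.rp (2 * a) (star (S.closeQ b j g))) =
      star (S.closeQ b j g) * star (S.R (2 * a)) := by
    have h6 := slide' S (star_mem' (S.R_mem (2 * a))) hsE
    rw [← h6, ← rp_add, ← two_mul]
  have h7 : ∀ y : T, S.rp (b + 2 * a) y = S.rp (2 * a) (S.rp b y) := fun y => by
    rw [← rp_add]
    congr 1
    congr 1
    omega
  have h8 : ∀ y : T, star (S.R (2 * a)) * S.rp (2 * a) (star (S.R b)) *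
        S.rp (2 * a) (S.rp b y) * (S.rp (2 * a) (S.R b) * S.R (2 * a)) =
      star (S.R (2 * a)) * S.rp (2 * a) (star (S.R b) * S.rp b y * S.R b) * S.R (2 * a) := by
    intro y
    rw [map_mul, map_mul]
    simp only [mul_assoc]
  rw [e0, star_mul, ← map_star, h7 (_ * _ * _)]
  calc star (S.R (2 * a)) * S.rp (2 * a) (star (S.R b)) *
        S.rp (2 * a) (S.rp b (S.rp (b + 2 * a) (star (S.closeQ b j g)) *
          S.rp b (S.rp (2 * j) (star (S.R b)) * g) * S.R b)) *
        (S.rp (2 * a) (S.R b) * S.R (2 * a))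
      = star (S.R (2 * a)) * S.rp (2 * a) (star (S.R b) *
        S.rp b (S.rp (b + 2 * a) (star (S.closeQ b j g)) *
          S.rp b (S.rp (2 * j) (star (S.R b)) * g) * S.R b) * S.R b) * S.R (2 * a) := h8 _
    _ = star (S.R (2 * a)) * S.rp (2 * a) (S.rp (2 * a) (star (S.closeQ b j g))) *
        S.rp (2 * a) (S.closeQ b j g) * S.R (2 * a) := by
          rw [hin, map_mul]; simp only [mul_assoc]
    _ = _ := by rw [h5]; simp only [mul_assoc]

theorem star_closeQ_mul {b j : ℕ} (a : ℕ) (hb : b % 2 = 0) {u g : T} (hu : S.IsProj b u)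
    (hg : g ∈ S.Hom b u (b + 2 * j) (S.rp (2 * j) u)) :
    star (S.closeQ b j g) *
        (star (S.R (2 * a)) * S.rp (2 * a) (S.closeQ b j g) * S.R (2 * a)) =
      S.Tr (2 * (b + a)) (S.thetaQ b a j g) • S.z := by
  obtain ⟨hE, -⟩ := mem_KK.mp (closeQ_mem hu hg)
  obtain ⟨hg1, hg2, hg3⟩ := hg
  have hR : S.R b ∈ S.H 0 (2 * b) := S.R_mem b
  have hsR : star (S.R b) ∈ S.H (2 * b) 0 := star_mem' hR
  have hsE : star (S.closeQ b j g) ∈ S.H (2 * j) 0 := star_mem' hE
  have hr2 : S.rp (2 * j) (star (S.R b)) ∈ S.H (2 * b + 2 * j) (2 * j) :=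
    rp_to (2 * j) hsR (by omega) (by omega)
  have hW : S.rp (2 * j) (star (S.R b)) * g ∈ S.H (2 * b) (2 * j) :=
    S.mul_mem _ _ _ _ _ hr2 (pad_to b hg1 (by omega) (by omega))
  have hzg : S.z * g = g := by
    have hz : S.z * S.rp (2 * j) u = S.rp (2 * j) u := (hu.rp_even j).z_mul
    calc S.z * g = S.z * (S.rp (2 * j) u * g) := by rw [hg2]
      _ = g := by rw [← mul_assoc, hz, hg2]
  have hrE : S.rp (b + 2 * a) (star (S.closeQ b j g)) ∈
      S.H (b + 2 * a + 2 * j) (b + 2 * a) := rp_to (b + 2 * a) hsE (by omega) (by omega)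
  have hC : S.rp (b + 2 * a) (star (S.closeQ b j g)) *
        S.rp b (S.rp (2 * j) (star (S.R b)) * g) * S.R b ∈
      S.H (b + 2 * a) (b + 2 * a) := by
    have h2 : S.rp b (S.rp (2 * j) (star (S.R b)) * g) ∈
        S.H (3 * b + 2 * a) (b + 2 * a + 2 * j) := by
      have h21 : S.rp b (S.rp (2 * j) (star (S.R b)) * g) ∈ S.H (3 * b) (b + 2 * j) :=
        rp_to b hW (by omega) (by omega)
      exact pad_to (2 * a) h21 (by omega) (by omega)
    have h3 : S.R b ∈ S.H (b + 2 * a) (3 * b + 2 * a) :=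
      pad_to (b + 2 * a) hR (by omega) (by omega)
    exact S.mul_mem _ _ _ _ _ (S.mul_mem _ _ _ _ _ hrE h2) h3
  have hzC : S.z * (S.rp (b + 2 * a) (star (S.closeQ b j g)) *
        S.rp b (S.rp (2 * j) (star (S.R b)) * g) * S.R b) =
      S.rp (b + 2 * a) (star (S.closeQ b j g)) *
        S.rp b (S.rp (2 * j) (star (S.R b)) * g) * S.R b := by
    have h1 : S.z * S.rp b (S.rp (2 * j) (star (S.R b)) * g) =
        S.rp b (S.rp (2 * j) (star (S.R b)) * g) := by
      conv_lhs => rw [← S.rp_z_even hb, ← map_mul]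
      congr 1
      rw [← mul_assoc, z_comm hr2, mul_assoc, hzg]
    rw [← mul_assoc, ← mul_assoc, z_comm hrE, mul_assoc _ S.z, h1]
  have h1 := Tr_elt_left hC hzC
  rw [U5_left a hg1 hE, S.rp_z_even (by omega)] at h1
  rw [h1]
  congr 1
  unfold Tr
  rw [U5_right a hg1]

end SubfactorPlanarAlgebra

end Pool.Agent.ST5
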