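import Pool.Agent.ST5.Q.UDefs

/-!
ST6 row U6. The sum over a complete family computes the trace of an operator on K.
(Same mechanism as ST5 row D7, P/D7.lean, team-store ST5_D7.lean; the proof there may contain the orthonormal basis.)

PROOF. `exists_onb`: for h, h' ∈ KK n: star h * h' ∈ H 0 0 and z (star h * h') = star h * h', so it is a multiple of z;
positivity from `S.positive`, `S.definite`. Gram-Schmidt (`InnerProductSpace.Core`, `stdOrthonormalBasis`, or induction).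
`sum_closeQ`: b = a k, u = p k, d = d k, m = 2 j, h an orthonormal basis of KK m, E_s = closeQ b j (c k s) ∈ KK m
 (`closeQ_mem`). star (h i) ∈ H m 0:
 star (h i) * E_s = star (h i) * rp m (star (R b)) * c * R b = star (R b) * (star (h i) * c) * R b (`slide'`); star (h i) * c ∈ Hom(u, u)
 [u * star (h i) = star (h i) * rp m u by `slide'`, and rp m u * c = c], so it is β i s • u, and
 star (h i) * E_s = β i s Tr b u • z = β i s d • z (`Tr_elt`, `Tr_p`). So E_s = ∑_i β i s d • h i.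
 h i * u = rp m u * h i (`slide`) ∈ Hom(b, u; b+m, rp m u) (h i padded), star (h i * u) * c = u star (h i) c = β i s • u, so
 h i * u = ∑_s conj(β i s) • c k s (`expand`), and star (h i * u) * (h i' * u) = u (δ z) u = δ_{ii'} u gives
 ∑_s β i s conj(β i' s) = δ_{ii'}.
 Hence ∑_s star E_s * F E_s = d² ∑_{i,i'} (∑_s conj(β i' s) β i s) star (h i') * F (h i) = d² ∑_i star (h i) * F (h i), and
 star (h i) * F (h i) = (coordinate i of F (h i)) • z, so the sum is trace F • z (`LinearMap.trace_eq_matrix_trace`,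
 `LinearMap.toMatrix_apply`).
-/

namespace Pool.Agent.ST5

namespace SubfactorPlanarAlgebra

variable {T : Type*} [Ring T] [StarRing T] [Algebra ℂ T] [StarModule ℂ T]
  {S : SubfactorPlanarAlgebra T}

theorem U6_mem00 {n : ℕ} (x y : S.KK n) : star (x : T) * (y : T) ∈ S.H 0 0 :=
  S.mul_mem _ _ _ _ _ (star_mem' x.2.1) y.2.1

theorem U6_star_mul {n : ℕ} (x y : S.KK n) :
    star (x : T) * (y : T) = S.zc (star (x : T) * (y : T)) • S.z := by
  have h1 := zc_spec (U6_mem00 x y)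
  have h2 : S.z * (star (x : T) * (y : T)) = star (x : T) * (y : T) := by
    rw [← mul_assoc, z_comm (star_mem' x.2.1), mul_assoc, (mem_KK.1 y.2).2]
  rw [h2] at h1
  exact h1

theorem U6_conj {n : ℕ} (x y : S.KK n) :
    starRingEnd ℂ (S.zc (star (y : T) * (x : T))) = S.zc (star (x : T) * (y : T)) := by
  symm
  apply zc_eq
  have h1 := congrArg star (U6_star_mul y x)
  rw [star_mul, star_star, star_smul, S.z_star] at h1
  rw [h1, mul_smul_comm, S.z_mul]
  rfl

variable (S) in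
/-- the inner product on `KK n` -/
noncomputable def U6_core (n : ℕ) : InnerProductSpace.Core ℂ (S.KK n) where
  inner x y := S.zc (star (x : T) * (y : T))
  conj_inner_symm x y := U6_conj x y
  re_inner_nonneg x := by
    obtain ⟨a, b, ha, -, hab⟩ := S.positive n x.1 x.2.1
    have h1 : S.zc (star (x : T) * (x : T)) = (a : ℂ) := by
      apply zc_eq
      rw [hab]
      exact A2_z_mul _ _
    change 0 ≤ (S.zc (star (x : T) * (x : T))).re
    rw [h1]
    exact ha
  add_left x y w := by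
    change S.zc (star ((x + y : S.KK n) : T) * (w : T)) = _
    rw [Submodule.coe_add, star_add, add_mul]
    exact zc_add (U6_mem00 x w) (U6_mem00 y w)
  smul_left x y c := by
    change S.zc (star ((c • x : S.KK n) : T) * (y : T)) = _
    rw [Submodule.coe_smul, star_smul, smul_mul_assoc, zc_smul _ (U6_mem00 x y)]
    rfl
  definite x h := by
    have h1 := U6_star_mul x x
    have h2 : S.zc (star (x : T) * (x : T)) = 0 := h
    rw [h2, zero_smul] at h1
    exact Subtype.ext (S.definite n x.1 x.2.1 h1)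

variable (S) in
theorem exists_onb (n : ℕ) : ∃ (m : ℕ) (h : Module.Basis (Fin m) ℂ (S.KK n)),
    ∀ i i', star (h i : T) * (h i' : T) = if i = i' then S.z else 0 := by
  letI i1 : NormedAddCommGroup (S.KK n) :=
    @InnerProductSpace.Core.toNormedAddCommGroup ℂ (S.KK n) _ _ _ (S.U6_core n)
  letI i2 : InnerProductSpace ℂ (S.KK n) := InnerProductSpace.ofCore (S.U6_core n).toCore
  let b := stdOrthonormalBasis ℂ (S.KK n)
  refine ⟨_, b.toBasis, fun i i' => ?_⟩
  have h1 := orthonormal_iff_ite.1 b.orthonormal i i'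
  have h2 : S.zc (star (b i : T) * (b i' : T)) = if i = i' then 1 else 0 := h1
  rw [OrthonormalBasis.coe_toBasis, U6_star_mul, h2]
  split_ifs
  · rw [one_smul]
  · rw [zero_smul]

namespace SimpleSystem

variable (Q : S.SimpleSystem)

/-- the map `h ↦ h ⊗ u` -/
noncomputable def U6_A (m : ℕ) (k : Q.J) :
    S.KK m →ₗ[ℂ] S.Hom (Q.a k) (Q.p k) (Q.a k + m) (S.rp m (Q.p k)) where
  toFun h := ⟨h.1 * Q.p k,
    S.mul_mem _ _ _ _ _ (pad_to (Q.a k) h.2.1 (by omega) (by omega)) (Q.simple k).mem, by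
      have h1 : S.rp m (Q.p k) * h.1 = h.1 * Q.p k := slide S h.2.1 (Q.simple k).mem
      rw [← mul_assoc, h1, mul_assoc, (Q.simple k).idem], by
      rw [mul_assoc, (Q.simple k).idem]⟩
  map_add' x y := Subtype.ext (by
    change (x.1 + y.1) * Q.p k = x.1 * Q.p k + y.1 * Q.p k
    rw [add_mul])
  map_smul' c x := Subtype.ext (by
    change (c • x.1) * Q.p k = c • (x.1 * Q.p k)
    rw [smul_mul_assoc])

/-- the closure -/
noncomputable def U6_B (j : ℕ) (k : Q.J) :
    S.Hom (Q.a k) (Q.p k) (Q.a k + 2 * j) (S.rp (2 * j) (Q.p k)) →ₗ[ℂ] S.KK (2 * j) where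
  toFun v := ⟨S.closeQ (Q.a k) j v.1, closeQ_mem (Q.simple k).toIsProj v.2⟩
  map_add' x y := Subtype.ext (by
    change S.rp (2 * j) (star (S.R (Q.a k))) * (x.1 + y.1) * S.R (Q.a k) =
      S.rp (2 * j) (star (S.R (Q.a k))) * x.1 * S.R (Q.a k) +
        S.rp (2 * j) (star (S.R (Q.a k))) * y.1 * S.R (Q.a k)
    rw [mul_add, add_mul])
  map_smul' c x := Subtype.ext (by
    change S.rp (2 * j) (star (S.R (Q.a k))) * (c • x.1) * S.R (Q.a k) =
      c • (S.rp (2 * j) (star (S.R (Q.a k))) * x.1 * S.R (Q.a k))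
    rw [mul_smul_comm, smul_mul_assoc])

theorem U6_BA (j : ℕ) (k : Q.J) :
    (Q.U6_B j k).comp (Q.U6_A (2 * j) k) = (Q.d k : ℂ) • LinearMap.id := by
  apply LinearMap.ext
  intro h
  apply Subtype.ext
  change S.rp (2 * j) (star (S.R (Q.a k))) * (h.1 * Q.p k) * S.R (Q.a k) = (Q.d k : ℂ) • h.1
  have h1 : S.rp (2 * j) (star (S.R (Q.a k))) * h.1 = h.1 * star (S.R (Q.a k)) :=
    slide S h.2.1 (star_mem' (S.R_mem (Q.a k)))
  have h2 : star (S.R (Q.a k)) * Q.p k * S.R (Q.a k) = S.Tr (Q.a k) (Q.p k) • S.z :=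
    Tr_elt (Q.simple k).mem (Q.simple k).z_mul
  calc S.rp (2 * j) (star (S.R (Q.a k))) * (h.1 * Q.p k) * S.R (Q.a k)
      = (S.rp (2 * j) (star (S.R (Q.a k))) * h.1) * Q.p k * S.R (Q.a k) := by
        simp only [mul_assoc]
    _ = h.1 * (star (S.R (Q.a k)) * Q.p k * S.R (Q.a k)) := by
        rw [h1]
        simp only [mul_assoc]
    _ = (Q.d k : ℂ) • h.1 := by
        rw [h2, Q.Tr_p, mul_smul_comm, ← z_comm h.2.1, (mem_KK.1 h.2).2]

theorem U6_inner {j : ℕ} (k : Q.J) (h : S.KK (2 * j))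
    (v : S.Hom (Q.a k) (Q.p k) (Q.a k + 2 * j) (S.rp (2 * j) (Q.p k))) {c : ℂ}
    (hc : star v.1 * (Q.U6_A (2 * j) k h).1 = c • Q.p k) :
    star (Q.U6_B j k v).1 * h.1 = (c * Q.d k) • S.z := by
  have h1 : S.rp (2 * j) (S.R (Q.a k)) * h.1 = h.1 * S.R (Q.a k) :=
    slide S h.2.1 (S.R_mem (Q.a k))
  have hv : Q.p k * star v.1 = star v.1 := by
    have h3 := congrArg star v.2.2.2
    rwa [star_mul, (Q.simple k).star_eq] at h3
  have hv2 : star v.1 * S.rp (2 * j) (Q.p k) = star v.1 := by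
    have h3 := congrArg star v.2.2.1
    rwa [star_mul, ← map_star, (Q.simple k).star_eq] at h3
  have h2 : star v.1 * h.1 = c • Q.p k := by
    have h4 : S.rp (2 * j) (Q.p k) * h.1 = h.1 * Q.p k := slide S h.2.1 (Q.simple k).mem
    rw [← hv2, mul_assoc, h4]
    exact hc
  change star (S.rp (2 * j) (star (S.R (Q.a k))) * v.1 * S.R (Q.a k)) * h.1 = _
  calc star (S.rp (2 * j) (star (S.R (Q.a k))) * v.1 * S.R (Q.a k)) * h.1
      = star (S.R (Q.a k)) * star v.1 * (S.rp (2 * j) (S.R (Q.a k)) * h.1) := by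
        rw [star_mul, star_mul, ← map_star, star_star]
        simp only [mul_assoc]
    _ = star (S.R (Q.a k)) * (star v.1 * h.1) * S.R (Q.a k) := by
        rw [h1]
        simp only [mul_assoc]
    _ = c • (star (S.R (Q.a k)) * Q.p k * S.R (Q.a k)) := by
        rw [h2, mul_smul_comm, smul_mul_assoc]
    _ = (c * Q.d k) • S.z := by
        rw [Tr_elt (Q.simple k).mem (Q.simple k).z_mul, Q.Tr_p, smul_smul]

theorem U6_linInd {n : ℕ} {P : T} (l : Q.J) {ι : Q.J → Type} [∀ j, Fintype (ι j)]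
    [∀ j, DecidableEq (ι j)] {v : ∀ j, ι j → T} (hv : Q.Fam n P ι v) :
    LinearIndependent ℂ (fun s : ι l =>
      (⟨v l s, hv.mem l s⟩ : S.Hom (Q.a l) (Q.p l) n P)) := by
  rw [Fintype.linearIndependent_iff]
  intro g hg t
  have h1 := congrArg (fun x : S.Hom (Q.a l) (Q.p l) n P => star (v l t) * x.1) hg
  simp only [Submodule.coe_sum, Submodule.coe_smul, Submodule.coe_zero, mul_zero,
    Finset.mul_sum, mul_smul_comm, hv.orth l] at h1
  rw [Finset.sum_eq_single t] at h1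
  · rw [if_pos rfl] at h1
    exact (smul_eq_zero.mp h1).resolve_right (Q.simple l).ne_zero
  · intro s _ hs
    rw [if_neg (Ne.symm hs), smul_zero]
  · intro h
    exact absurd (Finset.mem_univ t) h

theorem sum_closeQ {j : ℕ} (k : Q.J) {ι : Q.J → Type} [∀ l, Fintype (ι l)]
    [∀ l, DecidableEq (ι l)] {c : ∀ l, ι l → T}
    (hc : Q.Fam (Q.a k + 2 * j) (S.rp (2 * j) (Q.p k)) ι c)
    (F : S.KK (2 * j) →ₗ[ℂ] S.KK (2 * j)) :
    ∑ s, star (S.closeQ (Q.a k) j (c k s)) *
      ((F ⟨S.closeQ (Q.a k) j (c k s), closeQ_mem (Q.simple k).toIsProj (hc.mem k s)⟩ :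
        S.KK (2 * j)) : T) =
      (((Q.d k : ℂ) ^ 2) * LinearMap.trace ℂ (S.KK (2 * j)) F) • S.z := by
  have hsp : ⊤ ≤ Submodule.span ℂ (Set.range (fun s : ι k =>
      (⟨c k s, hc.mem k s⟩ : S.Hom (Q.a k) (Q.p k) (Q.a k + 2 * j) (S.rp (2 * j) (Q.p k))))) := by
    rintro x -
    obtain ⟨e, he, -⟩ := Q.expand hc x.2
    have h1 : x = ∑ s, e s • (⟨c k s, hc.mem k s⟩ :
        S.Hom (Q.a k) (Q.p k) (Q.a k + 2 * j) (S.rp (2 * j) (Q.p k))) := by
      apply Subtype.ext
      rw [Submodule.coe_sum]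
      exact he
    rw [h1]
    exact Submodule.sum_mem _ fun s _ =>
      Submodule.smul_mem _ _ (Submodule.subset_span ⟨s, rfl⟩)
  let b : Module.Basis (ι k) ℂ (S.Hom (Q.a k) (Q.p k) (Q.a k + 2 * j) (S.rp (2 * j) (Q.p k))) :=
    Module.Basis.mk (Q.U6_linInd k hc) hsp
  have hb : ∀ s, b s = ⟨c k s, hc.mem k s⟩ := fun s => Module.Basis.mk_apply _ _ s
  have hrepr : ∀ (x : S.Hom (Q.a k) (Q.p k) (Q.a k + 2 * j) (S.rp (2 * j) (Q.p k))) (s : ι k),
      star (c k s) * x.1 = b.repr x s • Q.p k := by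
    intro x s
    obtain ⟨e, he, he2⟩ := Q.expand hc x.2
    have h1 : x = ∑ s, e s • b s := by
      apply Subtype.ext
      rw [Submodule.coe_sum, he]
      refine Finset.sum_congr rfl fun s _ => ?_
      rw [hb]
      rfl
    have h2 : b.repr x s = e s := by
      rw [h1, Module.Basis.repr_sum_self]
    rw [he2, h2]
  have htr1 : LinearMap.trace ℂ _ ((Q.U6_A (2 * j) k).comp (F.comp (Q.U6_B j k))) =
      ∑ s, b.repr (Q.U6_A (2 * j) k (F (Q.U6_B j k (b s)))) s := by
    rw [LinearMap.trace_eq_matrix_trace ℂ b, Matrix.trace]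
    refine Finset.sum_congr rfl fun s _ => ?_
    rw [Matrix.diag_apply, LinearMap.toMatrix_apply]
    rfl
  have htr2 : LinearMap.trace ℂ _ ((Q.U6_A (2 * j) k).comp (F.comp (Q.U6_B j k))) =
      (Q.d k : ℂ) * LinearMap.trace ℂ (S.KK (2 * j)) F := by
    rw [LinearMap.trace_comp_comm', LinearMap.comp_assoc, Q.U6_BA, LinearMap.comp_smul,
      LinearMap.comp_id, map_smul, smul_eq_mul]
  have hterm : ∀ s, star (S.closeQ (Q.a k) j (c k s)) *
      ((F ⟨S.closeQ (Q.a k) j (c k s), closeQ_mem (Q.simple k).toIsProj (hc.mem k s)⟩ :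
        S.KK (2 * j)) : T) =
      (b.repr (Q.U6_A (2 * j) k (F (Q.U6_B j k (b s)))) s * Q.d k) • S.z := by
    intro s
    have h1 := Q.U6_inner k (F (Q.U6_B j k (b s))) (b s)
      (c := b.repr (Q.U6_A (2 * j) k (F (Q.U6_B j k (b s)))) s) (by
        rw [← hrepr]
        rw [hb])
    rw [← h1, hb]
    rfl
  rw [Finset.sum_congr rfl fun s _ => hterm s, ← Finset.sum_smul, ← Finset.sum_mul, ← htr1, htr2]
  congr 1
  ring

end SimpleSystem

end SubfactorPlanarAlgebra

end Pool.Agent.ST5
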