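import Pool.Agent.ST5.Q.U2
import Pool.Agent.ST5.Q.U3
import Pool.Agent.ST5.Q.U4
import Pool.Agent.ST5.Q.U5
import Pool.Agent.ST5.Q.U6

/-!
ST6 row U7. The second trace formula (assembly of U2-U6). See the proof of `trace_formula` in P/D9.lean
(team-store ST5_D9.lean).

PROOF. Choose for every k a complete family c k of rp (2j) (p k) at level a k + 2j (`Q.exists_fam`,
`IsProj.rp_even`). ∑_W d W trace (PP a W ^ j) = ∑_W d W ∑_k ∑_s trace (psi … (c k k s)) (`trace_PP_pow`); the terms with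
a k odd are 0 (`trace_EE_odd`). For a k even: ∑_W d W trace (psi …) = ∑_W d W trace (leftMul …) (`trace_psi`)
 = Tr (2 (a k + a)) (thetaQ (a k) a j (c k k s)) (`trace_leftMul_sum` with n = 2 (a k + a), P = rp (a k + 2a) (p k), a projection:
 `IsProj.rp_even` with a k + 2 a = 2 * ((a k + 2a)/2) and the level a k + (a k + 2a)),
 and by `star_closeQ_mul`, `rotK_apply` and `sum_closeQ` (F = rotK a (2j)): (∑_s Tr …) • z = (d k ^ 2 * trace (rotK a (2j))) • z, z ≠ 0.
-/

namespace Pool.Agent.ST5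

namespace SubfactorPlanarAlgebra

namespace SimpleSystem

variable {T : Type*} [Ring T] [StarRing T] [Algebra ℂ T] [StarModule ℂ T]
  {S : SubfactorPlanarAlgebra T} (Q : S.SimpleSystem)

theorem trace_formula2 (a j : ℕ) :
    ∑ W ∈ Finset.univ.filter (fun W => Q.a W % 2 = 0),
      (Q.d W : ℂ) * LinearMap.trace ℂ (∀ k, Q.EE a W k) (Q.PP a W ^ j) =
      ((∑ k ∈ Finset.univ.filter (fun k => Q.a k % 2 = 0), (Q.d k) ^ 2 : ℝ) : ℂ) *
        LinearMap.trace ℂ (S.KK (2 * j)) (S.rotK a (2 * j)) := by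
  have hex : ∀ i : Q.J, ∃ (k : Q.J → ℕ) (v : ∀ l, Fin (k l) → T),
      Q.Fam (Q.a i + 2 * j) (S.rp (2 * j) (Q.p i)) (fun l => Fin (k l)) v :=
    fun i => Q.exists_fam (Q.a i + 2 * j) (S.rp (2 * j) (Q.p i)) ((Q.simple i).toIsProj.rp_even j)
  choose n v hc using hex
  have key : ∀ l : Q.J, Q.a l % 2 = 0 →
      ∑ s : Fin (n l l), S.Tr (2 * (Q.a l + a)) (S.thetaQ (Q.a l) a j (v l l s)) =
      ((Q.d l : ℂ) ^ 2) * LinearMap.trace ℂ (S.KK (2 * j)) (S.rotK a (2 * j)) := by
    intro l hl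
    have h1 := Q.sum_closeQ l (hc l) (S.rotK a (2 * j))
    have h2 : ∑ s : Fin (n l l), star (S.closeQ (Q.a l) j (v l l s)) *
        ((S.rotK a (2 * j) ⟨S.closeQ (Q.a l) j (v l l s),
          closeQ_mem (Q.simple l).toIsProj ((hc l).mem l s)⟩ : S.KK (2 * j)) : T) =
        (∑ s : Fin (n l l), S.Tr (2 * (Q.a l + a)) (S.thetaQ (Q.a l) a j (v l l s))) • S.z := by
      rw [Finset.sum_smul]
      refine Finset.sum_congr rfl fun s _ => ?_
      rw [rotK_apply]
      exact star_closeQ_mul a hl (Q.simple l).toIsProj ((hc l).mem l s)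
    rw [h2] at h1
    exact smul_left_injective ℂ S.z_ne_zero h1
  have hP : ∀ l : Q.J, Q.a l % 2 = 0 →
      S.IsProj (2 * (Q.a l + a)) (S.rp (Q.a l + 2 * a) (Q.p l)) := by
    intro l hl
    obtain ⟨c, hcc⟩ : ∃ c, Q.a l + 2 * a = 2 * c := ⟨(Q.a l + 2 * a) / 2, by omega⟩
    have h1 := (Q.simple l).toIsProj.rp_even c
    rw [← hcc] at h1
    have e2 : 2 * (Q.a l + a) = Q.a l + (Q.a l + 2 * a) := by omega
    rw [e2]
    exact h1
  calc ∑ W ∈ Finset.univ.filter (fun W => Q.a W % 2 = 0),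
      (Q.d W : ℂ) * LinearMap.trace ℂ (∀ k, Q.EE a W k) (Q.PP a W ^ j)
      = ∑ W ∈ Finset.univ.filter (fun W => Q.a W % 2 = 0),
        ∑ l ∈ Finset.univ.filter (fun l => Q.a l % 2 = 0), ∑ s : Fin (n l l),
        (Q.d W : ℂ) * LinearMap.trace ℂ
          (S.Hom (Q.a W) (Q.p W) (2 * (Q.a l + a)) (S.rp (Q.a l + 2 * a) (Q.p l)))
          (leftMul (thetaQ_mem (a := a) (Q.simple l).toIsProj ((hc l).mem l s))) := by
        refine Finset.sum_congr rfl fun W _ => ?_
        rw [Q.trace_PP_pow hc a W, Finset.mul_sum]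
        symm
        have h3 : ∀ l ∈ (Finset.univ : Finset Q.J), l ∉ Finset.univ.filter (fun l => Q.a l % 2 = 0) →
            (Q.d W : ℂ) * ∑ s : Fin (n l l), LinearMap.trace ℂ (Q.EE a W l)
              (psi a j (Q.simple l).toIsProj (Q.simple W).toIsProj ((hc l).mem l s)) = 0 := by
          intro l _ hl
          have hl' : Q.a l % 2 = 1 := by
            have h4 : ¬ Q.a l % 2 = 0 := fun h => hl (Finset.mem_filter.2 ⟨Finset.mem_univ l, h⟩)
            omega
          rw [Finset.sum_congr rfl fun s _ => Q.trace_EE_odd a W l hl' _, Finset.sum_const_zero,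
            mul_zero]
        rw [← Finset.sum_subset (Finset.filter_subset (fun l => Q.a l % 2 = 0) Finset.univ) h3]
        refine Finset.sum_congr rfl fun l _ => ?_
        rw [Finset.mul_sum]
        refine Finset.sum_congr rfl fun s _ => ?_
        rw [trace_psi a j (Q.simple l).toIsProj (Q.simple W).toIsProj ((hc l).mem l s)]
    _ = ∑ l ∈ Finset.univ.filter (fun l => Q.a l % 2 = 0), ∑ s : Fin (n l l),
        ∑ W ∈ Finset.univ.filter (fun W => Q.a W % 2 = 0),
        (Q.d W : ℂ) * LinearMap.trace ℂ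
          (S.Hom (Q.a W) (Q.p W) (2 * (Q.a l + a)) (S.rp (Q.a l + 2 * a) (Q.p l)))
          (leftMul (thetaQ_mem (a := a) (Q.simple l).toIsProj ((hc l).mem l s))) := by
        rw [Finset.sum_comm]
        exact Finset.sum_congr rfl fun l _ => Finset.sum_comm
    _ = ∑ l ∈ Finset.univ.filter (fun l => Q.a l % 2 = 0), ∑ s : Fin (n l l),
          S.Tr (2 * (Q.a l + a)) (S.thetaQ (Q.a l) a j (v l l s)) :=
        Finset.sum_congr rfl fun l hl => Finset.sum_congr rfl fun s _ =>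
          Q.trace_leftMul_sum (by omega) (hP l (Finset.mem_filter.1 hl).2)
            (thetaQ_mem (Q.simple l).toIsProj ((hc l).mem l s))
    _ = ∑ l ∈ Finset.univ.filter (fun l => Q.a l % 2 = 0),
          ((Q.d l : ℂ) ^ 2) * LinearMap.trace ℂ (S.KK (2 * j)) (S.rotK a (2 * j)) :=
        Finset.sum_congr rfl fun l hl => key l (Finset.mem_filter.1 hl).2
    _ = _ := by
        rw [← Finset.sum_mul]
        push_cast
        rfl

end SimpleSystem

end SubfactorPlanarAlgebra

end Pool.Agent.ST5
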