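import Pool.Agent.ST5.Q.UDefs

/-!
ST6 row U8a. Left partial traces.

PROOF. `Tr_left2`: by `Tr_elt_left` at level n+2: star (R (n+2)) * rp (n+2) y * R (n+2) = Tr (n+2) y • rp (n+2) z.
 R (n+2) = rp n (R 2) * R n (`R_add`), so the left side is star (R n) * rp n (star (R 2) * rp 2 y * R 2) * R n
 = Tr n (star (R 2) * rp 2 y * R 2) • rp n z (`Tr_elt_left`, E = star (R 2) * rp 2 y * R 2 ∈ H n n, z E = E as rp 2 z = z).
 rp (n+2) z = rp n (rp 2 z) = rp n z ≠ 0 (`rp_z`, z ≠ 0, z ≠ 1).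
`left_close_gv`: y = gv k l s * star (gv k' l s') ∈ H (a k' + 2) (a k + 2), E = star (R 2) * rp 2 y * R 2 ∈ H (a k') (a k).
 p k * star (R 2) = star (R 2) * rp 4 (p k) (`slide'`), rp 4 (p k) * rp 2 (gv k l s) = rp 2 (rp 2 (p k) * gv k l s) = rp 2 (gv k l s), so
 p k * E = E, in the same way E * p k' = E: E ∈ Hom (a k') (p k') (a k) (p k). k ≠ k': E = 0 (`Q.ortho`).
 k = k': E = c • p k (`scalar_of_mem`), c d k = Tr (a k) E = Tr (a k + 2) y (`Tr_left2`) = Tr (a l) (star (gv k l s') * gv k l s)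
 (`Tr_comm`) = δ_{ss'} d l (`orth`, `Tr_p`).
-/

namespace Pool.Agent.ST5

namespace SubfactorPlanarAlgebra

variable {T : Type*} [Ring T] [StarRing T] [Algebra ℂ T] [StarModule ℂ T]
  {S : SubfactorPlanarAlgebra T}

theorem U8a_rp_ne (n : ℕ) : S.rp n S.z ≠ 0 := by
  rw [rp_z]
  by_cases h : Even n
  · rw [if_pos h]
    exact S.z_ne_zero
  · rw [if_neg h]
    intro h1
    exact S.z_ne_one (sub_eq_zero.1 h1).symm

theorem Tr_left2 {n : ℕ} {y : T} (hy : y ∈ S.H (n + 2) (n + 2)) (hz : S.z * y = y) :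
    S.Tr (n + 2) y = S.Tr n (star (S.R 2) * S.rp 2 y * S.R 2) := by
  set E := star (S.R 2) * S.rp 2 y * S.R 2 with hE
  have hR : S.R 2 ∈ S.H 0 (2 * 2) := S.R_mem 2
  have h1 : S.rp 2 y ∈ S.H (n + 4) (n + 4) := rp_to 2 hy (by omega) (by omega)
  have h2 : S.R 2 ∈ S.H n (n + 4) := pad_to n hR (by omega) (by omega)
  have h3 : star (S.R 2) ∈ S.H (n + 4) n := star_mem' h2
  have hEm : E ∈ S.H n n := S.mul_mem _ _ _ _ _ (S.mul_mem _ _ _ _ _ h3 h1) h2
  have hEz : S.z * E = E := by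
    have h4 : S.z * S.rp 2 y = S.rp 2 y := by
      have h5 : S.rp 2 S.z = S.z := S.rp_z_even (by norm_num)
      calc S.z * S.rp 2 y = S.rp 2 S.z * S.rp 2 y := by rw [h5]
        _ = S.rp 2 (S.z * y) := by rw [map_mul]
        _ = _ := by rw [hz]
    calc S.z * E = (S.z * star (S.R 2)) * S.rp 2 y * S.R 2 := by
          rw [hE]; simp only [mul_assoc]
      _ = star (S.R 2) * (S.z * S.rp 2 y) * S.R 2 := by
          rw [z_comm h3]; simp only [mul_assoc]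
      _ = _ := by rw [h4]
  have h5 := Tr_elt_left hy hz
  have h6 := Tr_elt_left hEm hEz
  have h7 : star (S.R (n + 2)) * S.rp (n + 2) y * S.R (n + 2) =
      star (S.R n) * S.rp n E * S.R n := by
    rw [R_add, star_mul, ← map_star, rp_add, hE, map_mul, map_mul]
    simp only [mul_assoc]
  have h8 : S.rp (n + 2) S.z = S.rp n S.z := by
    rw [rp_add, S.rp_z_even (n := 2) (by norm_num)]
  rw [h7, h6, h8] at h5
  have h9 : (S.Tr n E - S.Tr (n + 2) y) • S.rp n S.z = 0 := by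
    rw [sub_smul, h5, sub_self]
  rcases smul_eq_zero.1 h9 with h10 | h10
  · exact (sub_eq_zero.1 h10).symm
  · exact absurd h10 (U8a_rp_ne n)

namespace SimpleSystem

variable (Q : S.SimpleSystem)

theorem U8a_gv_left (k l : Q.J) (s : Fin (Q.gk k l)) :
    S.rp 2 (Q.p k) * Q.gv k l s = Q.gv k l s := ((Q.gv_fam k).mem l s).2.1

theorem U8a_gv_right (k l : Q.J) (s : Fin (Q.gk k l)) :
    star (Q.gv k l s) * S.rp 2 (Q.p k) = star (Q.gv k l s) := by
  have h := congrArg star (Q.U8a_gv_left k l s)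
  rwa [star_mul, ← map_star, (Q.simple k).star_eq] at h

theorem U8a_mem (k k' l : Q.J) (s : Fin (Q.gk k l)) (s' : Fin (Q.gk k' l)) :
    Q.gv k l s * star (Q.gv k' l s') ∈ S.H (Q.a k' + 2) (Q.a k + 2) :=
  S.mul_mem _ _ _ _ _ ((Q.gv_fam k).mem l s).1 (star_mem' ((Q.gv_fam k').mem l s').1)

theorem U8a_Hom (k k' l : Q.J) (s : Fin (Q.gk k l)) (s' : Fin (Q.gk k' l)) :
    star (S.R 2) * S.rp 2 (Q.gv k l s * star (Q.gv k' l s')) * S.R 2 ∈
      S.Hom (Q.a k') (Q.p k') (Q.a k) (Q.p k) := by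
  have hR : S.R 2 ∈ S.H 0 (2 * 2) := S.R_mem 2
  have hy := Q.U8a_mem k k' l s s'
  have h1 : S.rp 2 (Q.gv k l s * star (Q.gv k' l s')) ∈ S.H (Q.a k' + 4) (Q.a k + 4) :=
    rp_to 2 hy (by omega) (by omega)
  have h2 : S.R 2 ∈ S.H (Q.a k') (Q.a k' + 4) := pad_to (Q.a k') hR (by omega) (by omega)
  have h3 : star (S.R 2) ∈ S.H (Q.a k + 4) (Q.a k) :=
    pad_to (Q.a k) (star_mem' hR) (by omega) (by omega)
  refine ⟨S.mul_mem _ _ _ _ _ (S.mul_mem _ _ _ _ _ h3 h1) h2, ?_, ?_⟩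
  · have h4 : Q.p k * star (S.R 2) = star (S.R 2) * S.rp (2 * 2) (Q.p k) :=
      (S.slide' (star_mem' hR) (Q.simple k).mem).symm
    have h5 : S.rp (2 * 2) (Q.p k) = S.rp 2 (S.rp 2 (Q.p k)) := by rw [← rp_add]
    calc Q.p k * (star (S.R 2) * S.rp 2 (Q.gv k l s * star (Q.gv k' l s')) * S.R 2)
        = (Q.p k * star (S.R 2)) * S.rp 2 (Q.gv k l s * star (Q.gv k' l s')) * S.R 2 := by
          simp only [mul_assoc]
      _ = star (S.R 2) * S.rp 2 ((S.rp 2 (Q.p k) * Q.gv k l s) * star (Q.gv k' l s')) * S.R 2 := by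
          rw [h4, h5]; simp only [map_mul, mul_assoc]
      _ = _ := by rw [Q.U8a_gv_left]
  · have h4 : S.R 2 * Q.p k' = S.rp (2 * 2) (Q.p k') * S.R 2 :=
      (S.slide hR (Q.simple k').mem).symm
    have h5 : S.rp (2 * 2) (Q.p k') = S.rp 2 (S.rp 2 (Q.p k')) := by rw [← rp_add]
    calc star (S.R 2) * S.rp 2 (Q.gv k l s * star (Q.gv k' l s')) * S.R 2 * Q.p k'
        = star (S.R 2) * S.rp 2 (Q.gv k l s * star (Q.gv k' l s')) * (S.R 2 * Q.p k') := by
          simp only [mul_assoc]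
      _ = star (S.R 2) * S.rp 2 (Q.gv k l s * (star (Q.gv k' l s') * S.rp 2 (Q.p k'))) *
          S.R 2 := by
          rw [h4, h5]; simp only [map_mul, mul_assoc]
      _ = _ := by rw [Q.U8a_gv_right]

theorem left_close_gv (k l : Q.J) (s s' : Fin (Q.gk k l)) :
    star (S.R 2) * S.rp 2 (Q.gv k l s * star (Q.gv k l s')) * S.R 2 =
      (if s = s' then ((Q.d l / Q.d k : ℝ) : ℂ) else 0) • Q.p k := by
  obtain ⟨c, hc⟩ := Q.scalar_of_mem (Q.U8a_Hom k k l s s')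
  have hy := Q.U8a_mem k k l s s'
  have hz : S.z * (Q.gv k l s * star (Q.gv k l s')) = Q.gv k l s * star (Q.gv k l s') := by
    have h1 : S.z * S.rp 2 (Q.p k) = S.rp 2 (Q.p k) := ((Q.simple k).toIsProj.rp_even 1).z_mul
    calc S.z * (Q.gv k l s * star (Q.gv k l s'))
        = S.z * ((S.rp 2 (Q.p k) * Q.gv k l s) * star (Q.gv k l s')) := by
          rw [Q.U8a_gv_left]
      _ = (S.z * S.rp 2 (Q.p k)) * Q.gv k l s * star (Q.gv k l s') := by
          simp only [mul_assoc]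
      _ = _ := by rw [h1, Q.U8a_gv_left]
  have h1 := Tr_left2 hy hz
  have h2 : S.Tr (Q.a k + 2) (Q.gv k l s * star (Q.gv k l s')) =
      S.Tr (Q.a l) (star (Q.gv k l s') * Q.gv k l s) :=
    Tr_comm ((Q.gv_fam k).mem l s).1 (star_mem' ((Q.gv_fam k).mem l s').1)
  have h3 : star (Q.gv k l s') * Q.gv k l s = if s' = s then Q.p l else 0 :=
    (Q.gv_fam k).orth l s' s
  have h4 : S.Tr (Q.a k) (c • Q.p k) = c * (Q.d k : ℂ) := by
    rw [Tr_smul c (Q.simple k).mem, Q.Tr_p]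
  have hd : ((Q.d k : ℝ) : ℂ) ≠ 0 := by
    exact_mod_cast (Q.d_pos k).ne'
  rw [hc] at h1 ⊢
  rw [h2, h3, h4] at h1
  congr 1
  by_cases hs : s = s'
  · subst hs
    rw [if_pos rfl, Q.Tr_p] at h1
    rw [if_pos rfl]
    push_cast
    rw [eq_div_iff hd]
    exact h1.symm
  · rw [if_neg (fun h => hs h.symm)] at h1
    rw [if_neg hs]
    have h5 : S.Tr (Q.a l) (0 : T) = 0 := by
      unfold Tr
      rw [mul_zero, zero_mul]
      exact zc_eq (by rw [mul_zero, zero_smul])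
    rw [h5] at h1
    rcases mul_eq_zero.1 h1.symm with h6 | h6
    · exact h6
    · exact absurd h6 hd

theorem left_close_gv_ne (k k' l : Q.J) (hk : k ≠ k') (s : Fin (Q.gk k l))
    (s' : Fin (Q.gk k' l)) :
    star (S.R 2) * S.rp 2 (Q.gv k l s * star (Q.gv k' l s')) * S.R 2 = 0 := by
  exact Q.ortho k' k (fun h => hk h.symm) _ (Q.U8a_Hom k k' l s s')

end SimpleSystem

end SubfactorPlanarAlgebra

end Pool.Agent.ST5
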