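import Pool.Agent.ST5.P.DDefs

/-!
ST6: the operators of the second trace formula (definitions).
-/

namespace Pool.Agent.ST5

namespace SubfactorPlanarAlgebra

variable {T : Type*} [Ring T] [StarRing T] [Algebra ℂ T] [StarModule ℂ T]
  {S : SubfactorPlanarAlgebra T}

theorem rp_rp_eq {k l k' l' : ℕ} (h : k + l = k' + l') (x : T) :
    S.rp k (S.rp l x) = S.rp k' (S.rp l' x) := by
  rw [← rp_add, ← rp_add, h]

theorem IsProj.rp_even {n : ℕ} {p : T} (hp : S.IsProj n p) (k : ℕ) :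
    S.IsProj (n + 2 * k) (S.rp (2 * k) p) where
  mem := rp_mem _ hp.mem
  star_eq := by rw [← map_star, hp.star_eq]
  idem := by rw [← map_mul, hp.idem]
  z_mul := by
    have h : S.rp (2 * k) S.z = S.z := S.rp_z_even (by omega)
    calc S.z * S.rp (2 * k) p = S.rp (2 * k) S.z * S.rp (2 * k) p := by rw [h]
      _ = S.rp (2 * k) (S.z * p) := by rw [map_mul]
      _ = _ := by rw [hp.z_mul]

/-- `u ⊗ q` for two projections. -/
theorem IsProj.tensor {b w : ℕ} {u q : T} (hu : S.IsProj b u) (hq : S.IsProj w q) :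
    S.IsProj (b + w) (u * S.rp b q) := by
  have hc : u * S.rp b q = S.rp b q * u := inter hu.mem hq.mem
  have h1 : S.rp b q ∈ S.H (b + w) (b + w) := rp_to b hq.mem (by omega) (by omega)
  refine ⟨S.mul_mem _ _ _ _ _ (pad_mem w hu.mem) h1, ?_, ?_, ?_⟩
  · rw [star_mul, ← map_star, hq.star_eq, hu.star_eq, hc]
  · calc u * S.rp b q * (u * S.rp b q) = u * (S.rp b q * u) * S.rp b q := by
          simp only [mul_assoc]
      _ = u * u * (S.rp b q * S.rp b q) := by rw [← hc]; simp only [mul_assoc]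
      _ = u * S.rp b q := by rw [hu.idem, ← map_mul, hq.idem]
  · rw [← mul_assoc, hu.z_mul]

/-- `f ↦ rp (2a) (star g) * rp (2j) f * g` maps `Hom (u ⊗ q, X^(2a) ⊗ u)` to
`Hom (u' ⊗ q, X^(2a) ⊗ u')` for `g : u' → X^(2j) ⊗ u`. -/
lemma twist_mem {b b' w a j : ℕ} {u u' q g g' f : T} (hq : S.IsProj w q)
    (hsu' : star u' = u')
    (hg : g ∈ S.Hom b' u' (b + 2 * j) (S.rp (2 * j) u))
    (hg' : g' ∈ S.Hom b' u' (b + 2 * j) (S.rp (2 * j) u))
    (hf : f ∈ S.Hom (b + w) (u * S.rp b q) (b + 2 * a) (S.rp (2 * a) u)) :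
    S.rp (2 * a) (star g) * S.rp (2 * j) f * g' ∈
      S.Hom (b' + w) (u' * S.rp b' q) (b' + 2 * a) (S.rp (2 * a) u') := by
  obtain ⟨hg1, hg2, hg3⟩ := hg
  obtain ⟨hg1', hg2', hg3'⟩ := hg'
  obtain ⟨hf1, hf2, hf3⟩ := hf
  have hsg : star g ∈ S.H (b + 2 * j) b' := star_mem' hg1
  have hfq : f * S.rp b q = f := by
    calc f * S.rp b q = f * (u * S.rp b q) * S.rp b q := by rw [hf3]
      _ = f * (u * (S.rp b q * S.rp b q)) := by simp only [mul_assoc]
      _ = f * (u * S.rp b q) := by rw [← map_mul, hq.idem]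
      _ = f := hf3
  refine ⟨?_, ?_, ?_⟩
  · have h1 : S.rp (2 * a) (star g) ∈ S.H (b + 2 * j + 2 * a) (b' + 2 * a) :=
      rp_to (2 * a) hsg (by omega) (by omega)
    have h2 : S.rp (2 * j) f ∈ S.H (b + w + 2 * j) (b + 2 * j + 2 * a) :=
      rp_to (2 * j) hf1 (by omega) (by omega)
    have h3 : g' ∈ S.H (b' + w) (b + w + 2 * j) := pad_to w hg1' (by omega) (by omega)
    exact S.mul_mem _ _ _ _ _ (S.mul_mem _ _ _ _ _ h1 h2) h3
  · have h4 : S.rp (2 * a) u' * S.rp (2 * a) (star g) = S.rp (2 * a) (star g) := by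
      rw [← map_mul]
      congr 1
      have := congrArg star hg3
      rwa [star_mul, hsu'] at this
    rw [← mul_assoc, ← mul_assoc, h4]
  · have h5 : g' * S.rp b' q = S.rp (b + 2 * j) q * g' := inter hg1' hq.mem
    have h6 : S.rp (2 * j) f * S.rp (b + 2 * j) q = S.rp (2 * j) f := by
      have : S.rp (b + 2 * j) q = S.rp (2 * j) (S.rp b q) := by
        rw [← rp_add, add_comm b (2 * j)]
      rw [this, ← map_mul, hfq]
    calc S.rp (2 * a) (star g) * S.rp (2 * j) f * g' * (u' * S.rp b' q)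
        = S.rp (2 * a) (star g) * S.rp (2 * j) f * ((g' * u') * S.rp b' q) := by
          simp only [mul_assoc]
      _ = S.rp (2 * a) (star g) * (S.rp (2 * j) f * S.rp (b + 2 * j) q) * g' := by
          rw [hg3', h5]; simp only [mul_assoc]
      _ = _ := by rw [h6]

/-- The operator `f ↦ rp (2a) (star g) * rp (2j) f * g` on `Hom (u ⊗ q, X^(2a) ⊗ u)`. -/
noncomputable def psi {b w : ℕ} (a j : ℕ) {u q g : T} (hu : S.IsProj b u) (hq : S.IsProj w q)
    (hg : g ∈ S.Hom b u (b + 2 * j) (S.rp (2 * j) u)) :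
    S.Hom (b + w) (u * S.rp b q) (b + 2 * a) (S.rp (2 * a) u) →ₗ[ℂ]
      S.Hom (b + w) (u * S.rp b q) (b + 2 * a) (S.rp (2 * a) u) where
  toFun f := ⟨S.rp (2 * a) (star g) * S.rp (2 * j) f.1 * g,
    twist_mem hq hu.star_eq hg hg f.2⟩
  map_add' f g := by
    apply Subtype.ext
    simp [mul_add, add_mul]
  map_smul' c f := by
    apply Subtype.ext
    simp

/-- Left multiplication by an endomorphism `Θ` of `P` on `Hom (q, P)`. -/
noncomputable def leftMul {n w : ℕ} {P q Θ : T} (hΘ : Θ ∈ S.Hom n P n P) :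
    S.Hom w q n P →ₗ[ℂ] S.Hom w q n P where
  toFun g := ⟨Θ * g.1, S.mul_mem _ _ _ _ _ hΘ.1 g.2.1, by rw [← mul_assoc, hΘ.2.1],
    by rw [mul_assoc, g.2.2.2]⟩
  map_add' f g := by
    apply Subtype.ext
    simp [mul_add]
  map_smul' c f := by
    apply Subtype.ext
    simp

variable (S) in
/-- The endomorphism `Θ_g` of `X^(b+2a) ⊗ u`. -/
noncomputable def thetaQ (b a j : ℕ) (g : T) : T :=
  S.rp (b + 2 * a) (star g) * S.rp (b + 2 * j) (star (S.R b)) * S.rp b g * S.R b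

lemma thetaQ_mem {b a j : ℕ} {u g : T} (hu : S.IsProj b u)
    (hg : g ∈ S.Hom b u (b + 2 * j) (S.rp (2 * j) u)) :
    S.thetaQ b a j g ∈
      S.Hom (2 * (b + a)) (S.rp (b + 2 * a) u) (2 * (b + a)) (S.rp (b + 2 * a) u) := by
  obtain ⟨hg1, hg2, hg3⟩ := hg
  have hsg : star g ∈ S.H (b + 2 * j) b := star_mem' hg1
  have hR : S.R b ∈ S.H 0 (2 * b) := S.R_mem b
  have hsR : star (S.R b) ∈ S.H (2 * b) 0 := star_mem' hR
  refine ⟨?_, ?_, ?_⟩
  · have h1 : S.rp (b + 2 * a) (star g) ∈ S.H (2 * b + 2 * j + 2 * a) (2 * (b + a)) :=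
      rp_to (b + 2 * a) hsg (by omega) (by omega)
    have h2 : S.rp (b + 2 * j) (star (S.R b)) ∈
        S.H (4 * b + 2 * a + 2 * j) (2 * b + 2 * j + 2 * a) := by
      have h21 : S.rp (b + 2 * j) (star (S.R b)) ∈ S.H (3 * b + 2 * j) (b + 2 * j) :=
        rp_to (b + 2 * j) hsR (by omega) (by omega)
      exact pad_to (b + 2 * a) h21 (by omega) (by omega)
    have h3 : S.rp b g ∈ S.H (4 * b + 2 * a) (4 * b + 2 * a + 2 * j) := by
      have h31 : S.rp b g ∈ S.H (2 * b) (2 * b + 2 * j) := rp_to b hg1 (by omega) (by omega)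
      exact pad_to (2 * b + 2 * a) h31 (by omega) (by omega)
    have h4 : S.R b ∈ S.H (2 * (b + a)) (4 * b + 2 * a) :=
      pad_to (2 * (b + a)) hR (by omega) (by omega)
    exact S.mul_mem _ _ _ _ _ (S.mul_mem _ _ _ _ _ (S.mul_mem _ _ _ _ _ h1 h2) h3) h4
  · have h5 : S.rp (b + 2 * a) u * S.rp (b + 2 * a) (star g) = S.rp (b + 2 * a) (star g) := by
      rw [← map_mul]
      congr 1
      have := congrArg star hg3
      rwa [star_mul, hu.star_eq] at this
    unfold thetaQ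
    rw [← mul_assoc, ← mul_assoc, ← mul_assoc, h5]
  · unfold thetaQ
    have h6 : S.R b * S.rp (b + 2 * a) u = S.rp (2 * b) (S.rp (b + 2 * a) u) * S.R b :=
      (S.slide hR (rp_mem (b + 2 * a) hu.mem)).symm
    have h7 : S.rp b g * S.rp (2 * b) (S.rp (b + 2 * a) u) =
        S.rp b (S.rp (b + 2 * j) (S.rp (b + 2 * a) u)) * S.rp b g := by
      have h71 : g * S.rp b (S.rp (b + 2 * a) u) = S.rp (b + 2 * j) (S.rp (b + 2 * a) u) * g :=
        inter hg1 (rp_mem (b + 2 * a) hu.mem)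
      have h72 : S.rp (2 * b) (S.rp (b + 2 * a) u) = S.rp b (S.rp b (S.rp (b + 2 * a) u)) := by
        rw [two_mul, rp_add]
      rw [h72, ← map_mul, h71, map_mul]
    have h8 : S.rp (b + 2 * j) (star (S.R b)) * S.rp b (S.rp (b + 2 * j) (S.rp (b + 2 * a) u)) =
        S.rp (b + 2 * j) (S.rp (2 * a) u) * S.rp (b + 2 * j) (star (S.R b)) := by
      have h81 : S.rp b (S.rp (b + 2 * j) (S.rp (b + 2 * a) u)) =
          S.rp (b + 2 * j) (S.rp (2 * b) (S.rp (2 * a) u)) := by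
        rw [← rp_add, ← rp_add, ← rp_add, ← rp_add]
        rw [show b + (b + 2 * j) + (b + 2 * a) = b + 2 * j + 2 * b + 2 * a by omega]
      have h82 : star (S.R b) * S.rp (2 * b) (S.rp (2 * a) u) = S.rp (2 * a) u * star (S.R b) :=
        S.slide' hsR (rp_mem (2 * a) hu.mem)
      rw [h81, ← map_mul, h82, map_mul]
    have h9 : S.rp (b + 2 * a) (star g) * S.rp (b + 2 * j) (S.rp (2 * a) u) =
        S.rp (b + 2 * a) (star g) := by
      have h91 : S.rp (b + 2 * j) (S.rp (2 * a) u) = S.rp (b + 2 * a) (S.rp (2 * j) u) :=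
        rp_rp_eq (by omega) u
      have h92 : star g * S.rp (2 * j) u = star g := by
        have := congrArg star hg2
        rwa [star_mul, ← map_star, hu.star_eq] at this
      rw [h91, ← map_mul, h92]
    calc S.rp (b + 2 * a) (star g) * S.rp (b + 2 * j) (star (S.R b)) * S.rp b g * S.R b *
          S.rp (b + 2 * a) u
        = S.rp (b + 2 * a) (star g) * S.rp (b + 2 * j) (star (S.R b)) * S.rp b g *
          (S.R b * S.rp (b + 2 * a) u) := by simp only [mul_assoc]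
      _ = S.rp (b + 2 * a) (star g) * S.rp (b + 2 * j) (star (S.R b)) *
          (S.rp b g * S.rp (2 * b) (S.rp (b + 2 * a) u)) * S.R b := by
            rw [h6]; simp only [mul_assoc]
      _ = S.rp (b + 2 * a) (star g) * (S.rp (b + 2 * j) (star (S.R b)) *
          S.rp b (S.rp (b + 2 * j) (S.rp (b + 2 * a) u))) * S.rp b g * S.R b := by
            rw [h7]; simp only [mul_assoc]
      _ = (S.rp (b + 2 * a) (star g) * S.rp (b + 2 * j) (S.rp (2 * a) u)) *
          S.rp (b + 2 * j) (star (S.R b)) * S.rp b g * S.R b := by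
            rw [h8]; simp only [mul_assoc]
      _ = _ := by rw [h9]

variable (S) in
/-- The annular closure `E_g` of `g : u → X^(2j) ⊗ u`. -/
noncomputable def closeQ (b j : ℕ) (g : T) : T := S.rp (2 * j) (star (S.R b)) * g * S.R b

variable (S) in
/-- The unshaded boxes without bottom strings and with `n` top strings. -/
abbrev KK (n : ℕ) : Submodule ℂ T := S.Hom 0 1 n S.z

lemma mem_KK {n : ℕ} {x : T} : x ∈ S.KK n ↔ x ∈ S.H 0 n ∧ S.z * x = x := by
  rw [mem_Hom]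
  simp

lemma closeQ_mem {b j : ℕ} {u g : T} (hu : S.IsProj b u)
    (hg : g ∈ S.Hom b u (b + 2 * j) (S.rp (2 * j) u)) : S.closeQ b j g ∈ S.KK (2 * j) := by
  obtain ⟨hg1, hg2, hg3⟩ := hg
  have hR : S.R b ∈ S.H 0 (2 * b) := S.R_mem b
  have hsR : star (S.R b) ∈ S.H (2 * b) 0 := star_mem' hR
  have h1 : S.rp (2 * j) (star (S.R b)) ∈ S.H (2 * b + 2 * j) (2 * j) :=
    rp_to (2 * j) hsR (by omega) (by omega)
  have h2 : g ∈ S.H (2 * b) (2 * b + 2 * j) := pad_to b hg1 (by omega) (by omega)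
  have hzg : S.z * g = g := by
    have hz : S.z * S.rp (2 * j) u = S.rp (2 * j) u := (hu.rp_even j).z_mul
    calc S.z * g = S.z * (S.rp (2 * j) u * g) := by rw [hg2]
      _ = g := by rw [← mul_assoc, hz, hg2]
  rw [mem_KK]
  refine ⟨S.mul_mem _ _ _ _ _ (S.mul_mem _ _ _ _ _ h1 h2) hR, ?_⟩
  unfold closeQ
  calc S.z * (S.rp (2 * j) (star (S.R b)) * g * S.R b)
      = (S.z * S.rp (2 * j) (star (S.R b))) * g * S.R b := by simp only [mul_assoc]
    _ = S.rp (2 * j) (star (S.R b)) * (S.z * g) * S.R b := by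
        rw [z_comm h1]; simp only [mul_assoc]
    _ = _ := by rw [hzg]

lemma rot_mem {n : ℕ} (a : ℕ) {x : T} (hx : x ∈ S.KK n) :
    star (S.R (2 * a)) * S.rp (2 * a) x * S.R (2 * a) ∈ S.KK n := by
  rw [mem_KK] at hx ⊢
  obtain ⟨hx1, hx2⟩ := hx
  have hR : S.R (2 * a) ∈ S.H 0 (2 * (2 * a)) := S.R_mem (2 * a)
  have hsR : star (S.R (2 * a)) ∈ S.H (4 * a + n) n :=
    pad_to n (star_mem' hR) (by omega) (by omega)
  have h1 : S.rp (2 * a) x ∈ S.H (2 * (2 * a)) (4 * a + n) := by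
    have h11 : S.rp (2 * a) x ∈ S.H (2 * a) (n + 2 * a) := rp_to (2 * a) hx1 (by omega) rfl
    exact pad_to (2 * a) h11 (by omega) (by omega)
  refine ⟨S.mul_mem _ _ _ _ _ (S.mul_mem _ _ _ _ _ hsR h1) hR, ?_⟩
  have hz : S.z * S.rp (2 * a) x = S.rp (2 * a) x := by
    calc S.z * S.rp (2 * a) x = S.rp (2 * a) S.z * S.rp (2 * a) x := by
          rw [S.rp_z_even (by omega)]
      _ = S.rp (2 * a) (S.z * x) := by rw [map_mul]
      _ = _ := by rw [hx2]
  calc S.z * (star (S.R (2 * a)) * S.rp (2 * a) x * S.R (2 * a))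
      = (S.z * star (S.R (2 * a))) * S.rp (2 * a) x * S.R (2 * a) := by simp only [mul_assoc]
    _ = star (S.R (2 * a)) * (S.z * S.rp (2 * a) x) * S.R (2 * a) := by
        rw [z_comm hsR]; simp only [mul_assoc]
    _ = _ := by rw [hz]

variable (S) in
/-- The rotation by `2 a` strings of the boxes without bottom strings. -/
noncomputable def rotK (a n : ℕ) : S.KK n →ₗ[ℂ] S.KK n where
  toFun x := ⟨star (S.R (2 * a)) * S.rp (2 * a) x.1 * S.R (2 * a), rot_mem a x.2⟩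
  map_add' f g := by
    apply Subtype.ext
    simp [mul_add, add_mul]
  map_smul' c f := by
    apply Subtype.ext
    simp

lemma rotK_apply (a n : ℕ) (x : S.KK n) :
    ((S.rotK a n x : S.KK n) : T) = star (S.R (2 * a)) * S.rp (2 * a) (x : T) * S.R (2 * a) := rfl

namespace SimpleSystem

variable (Q : S.SimpleSystem)

/-- The chosen complete family of `X^2 ⊗ p k`: sizes. -/
noncomputable def gk (k : Q.J) : Q.J → ℕ :=
  (Q.exists_fam (Q.a k + 2 * 1) (S.rp (2 * 1) (Q.p k)) ((Q.simple k).toIsProj.rp_even 1)).choose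

/-- The chosen complete family of `X^2 ⊗ p k`. -/
noncomputable def gv (k : Q.J) : ∀ l, Fin (Q.gk k l) → T :=
  (Q.exists_fam (Q.a k + 2 * 1) (S.rp (2 * 1) (Q.p k))
    ((Q.simple k).toIsProj.rp_even 1)).choose_spec.choose

lemma gv_fam (k : Q.J) :
    Q.Fam (Q.a k + 2 * 1) (S.rp (2 * 1) (Q.p k)) (fun l => Fin (Q.gk k l)) (Q.gv k) :=
  (Q.exists_fam (Q.a k + 2 * 1) (S.rp (2 * 1) (Q.p k))
    ((Q.simple k).toIsProj.rp_even 1)).choose_spec.choose_spec

/-- The space `Hom (p k ⊗ p W, X^(2a) ⊗ p k)`. -/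
abbrev EE (a : ℕ) (W k : Q.J) : Submodule ℂ T :=
  S.Hom (Q.a k + Q.a W) (Q.p k * S.rp (Q.a k) (Q.p W)) (Q.a k + 2 * a)
    (S.rp (2 * a) (Q.p k))

lemma PP_mem (a : ℕ) (W : Q.J) (f : ∀ k, Q.EE a W k) (l : Q.J) :
    (∑ k, ∑ s : Fin (Q.gk k l),
      S.rp (2 * a) (star (Q.gv k l s)) * S.rp (2 * 1) (f k : T) * Q.gv k l s) ∈ Q.EE a W l := by
  refine Submodule.sum_mem _ fun k _ => Submodule.sum_mem _ fun s _ => ?_
  exact twist_mem (Q.simple W).toIsProj (Q.simple l).star_eq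
    ((Q.gv_fam k).mem l s) ((Q.gv_fam k).mem l s) (f k).2

/-- The operator `P` on `∏ k, Hom (p k ⊗ p W, X^(2a) ⊗ p k)`. -/
noncomputable def PP (a : ℕ) (W : Q.J) : (∀ k, Q.EE a W k) →ₗ[ℂ] (∀ k, Q.EE a W k) where
  toFun f := fun l => ⟨_, Q.PP_mem a W f l⟩
  map_add' f g := by
    funext l
    apply Subtype.ext
    simp [mul_add, add_mul, Finset.sum_add_distrib]
  map_smul' c f := by
    funext l
    apply Subtype.ext
    simp [Finset.smul_sum]

lemma PP_apply (a : ℕ) (W : Q.J) (f : ∀ k, Q.EE a W k) (l : Q.J) :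
    ((Q.PP a W f l : Q.EE a W l) : T) = ∑ k, ∑ s : Fin (Q.gk k l),
      S.rp (2 * a) (star (Q.gv k l s)) * S.rp (2 * 1) (f k : T) * Q.gv k l s := rfl

end SimpleSystem

end SubfactorPlanarAlgebra

end Pool.Agent.ST5
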