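import Pool.Agent.ST5.Q.WDefs

/-!
ST6 row W1. Decompositions of products of cups at the right and at the left end; their number; the
rotation by one string.

PROOF. `cups_right` (right end), induction on Cups k N y with N = n+1 (generalise: ∀ n, N = n + 1 → …): y = 1, k = n+1: y = 1
 with Cups n n 1. y = rp i r * y₀, y₀ : Cups k n₀, i ≤ n₀, n₀ + 2 = n + 1. If i < n₀ then n₀ = n₀' + 1 and the induction hypothesis
 for y₀: y₀ = y₁ with k = k'+1, Cups k' n₀' y₁: Cups k' (n₀'+2) (rp i r * y₁); or y₀ = y₁ * rp k r with Cups (k+1) n₀' y₁: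
 rp i r * y₁. If i = n₀: rp n₀ r * y₀ = y₀ * rp k r (`inter`, y₀ ∈ H k n₀), with Cups (k+1) (n₀+1) y₀ (`cups_padr`): second form.
`cups_left` (left end): y = rp i r * y₀; i ≥ 1: rp i r = ρ (rp (i-1) r), and the induction hypothesis for y₀ (n₀ ≥ 1 as i ≤ n₀);
 i = 0: r * y₀ = rp 2 y₀ * r (`slide`) = ρ (ρ y₀) * r with Cups (k+1) (n₀+1) (ρ y₀) (`cups_rho`): second form.
`cups_card`: induction on n. n = 0: Cups h 0 y implies h = 0 and y = 1 (`cups_le`; cases). n+1: by `cups_right` the set for (h, n+1) is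
 contained in {Cups (h-1) n} (if h ≥ 1) ∪ (· * rp h r) '' {Cups (h+1) n}; `Set.ncard_union_le`, `Set.ncard_image_le`.
`rot_cups`: n = n'+1, k = 0: by `cups_left` y = ρ y' * r with Cups 1 n' y' (the first form needs 0 = k'+1). star r * ρ (ρ y' * r) * r
 = star r * rp 2 y' * ρ r * r = y' * star r * ρ r * r = y' * r (`slide'`, `S.zigzag`), and Cups 0 (n'+1) (y' * r)
 (`cups_padr`, `cups_trans`, `cups_r`).
-/

namespace Pool.Agent.ST5

namespace SubfactorPlanarAlgebra

variable {T : Type*} [Ring T] [StarRing T] [Algebra ℂ T] [StarModule ℂ T]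
  {S : SubfactorPlanarAlgebra T}

theorem cups_right {k n : ℕ} {y : T} (h : S.Cups k (n + 1) y) :
    (∃ k', k = k' + 1 ∧ S.Cups k' n y) ∨
      ∃ y', S.Cups (k + 1) n y' ∧ y = y' * S.rp k S.r := by
  obtain ⟨N, hN⟩ : ∃ N, N = n + 1 := ⟨_, rfl⟩
  rw [← hN] at h
  induction h generalizing n with
  | nil =>
    left
    exact ⟨n, hN, Cups.nil n⟩
  | @cons n0 y0 i hi h0 ih =>
    by_cases hin : i < n0
    · obtain ⟨n', rfl⟩ : ∃ n', n0 = n' + 1 := ⟨n0 - 1, by omega⟩
      have hn : n = n' + 2 := by omega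
      subst hn
      rcases ih rfl with ⟨k', hk, h1⟩ | ⟨y', h1, hy⟩
      · left
        exact ⟨k', hk, Cups.cons i (by omega) h1⟩
      · right
        exact ⟨S.rp i S.r * y', Cups.cons i (by omega) h1, by rw [hy, mul_assoc]⟩
    · have hi' : i = n0 := by omega
      subst hi'
      have hn : n = i + 1 := by omega
      subst hn
      right
      exact ⟨y0, cups_padr h0, (inter (cups_mem h0) S.r_mem).symm⟩

theorem cups_left {k n : ℕ} {y : T} (h : S.Cups k (n + 1) y) :
    (∃ k' y', k = k' + 1 ∧ S.Cups k' n y' ∧ y = S.ρ y') ∨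
      ∃ y', S.Cups (k + 1) n y' ∧ y = S.ρ y' * S.r := by
  obtain ⟨N, hN⟩ : ∃ N, N = n + 1 := ⟨_, rfl⟩
  rw [← hN] at h
  induction h generalizing n with
  | nil =>
    left
    exact ⟨n, 1, hN, Cups.nil n, (map_one _).symm⟩
  | @cons n0 y0 i hi h0 ih =>
    rcases i with _ | i
    · right
      have hn : n = n0 + 1 := by omega
      subst hn
      refine ⟨S.ρ y0, cups_rho h0, ?_⟩
      exact (slide S S.r_mem (cups_mem h0)).symm
    · obtain ⟨n', rfl⟩ : ∃ n', n0 = n' + 1 := ⟨n0 - 1, by omega⟩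
      have hn : n = n' + 2 := by omega
      subst hn
      rcases ih rfl with ⟨k', y', hk, h1, hy⟩ | ⟨y', h1, hy⟩
      · left
        refine ⟨k', S.rp i S.r * y', hk, Cups.cons i (by omega) h1, ?_⟩
        rw [hy, map_mul, rp_succ]
      · right
        refine ⟨S.rp i S.r * y', Cups.cons i (by omega) h1, ?_⟩
        rw [hy, map_mul, rp_succ, mul_assoc]

variable (S) in
theorem cups_card (n h : ℕ) :
    {y | S.Cups h n y}.Finite ∧ {y | S.Cups h n y}.ncard ≤ bal n h := by
  induction n generalizing h with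
  | zero =>
    rcases h with _ | h
    · have h1 : {y | S.Cups 0 0 y} ⊆ {(1 : T)} := by
        intro y hy
        have hy' : S.Cups 0 0 y := hy
        cases hy' with
        | nil => exact rfl
      refine ⟨(Set.finite_singleton _).subset h1, ?_⟩
      refine (Set.ncard_le_ncard h1 (Set.finite_singleton _)).trans ?_
      rw [Set.ncard_singleton, bal_zero_zero]
    · have h1 : {y | S.Cups (h + 1) 0 y} = (∅ : Set T) := by
        refine Set.eq_empty_of_forall_notMem fun y hy => ?_
        have h2 := cups_le (hy : S.Cups (h + 1) 0 y)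
        omega
      rw [h1]
      exact ⟨Set.finite_empty, by rw [Set.ncard_empty]; exact Nat.zero_le _⟩
  | succ n ih =>
    rcases h with _ | h
    · obtain ⟨hf, hc⟩ := ih 1
      have h1 : {y | S.Cups 0 (n + 1) y} ⊆
          (fun y => y * S.rp 0 S.r) '' {y | S.Cups 1 n y} := by
        intro y hy
        rcases cups_right (hy : S.Cups 0 (n + 1) y) with ⟨k', hk, -⟩ | ⟨y', h2, hy'⟩
        · omega
        · exact ⟨y', h2, hy'.symm⟩
      have hf' := hf.image (fun y => y * S.rp 0 S.r)
      refine ⟨hf'.subset h1, ?_⟩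
      rw [bal_succ_zero]
      exact (Set.ncard_le_ncard h1 hf').trans ((Set.ncard_image_le hf).trans hc)
    · obtain ⟨hf1, hc1⟩ := ih h
      obtain ⟨hf2, hc2⟩ := ih (h + 2)
      have h1 : {y | S.Cups (h + 1) (n + 1) y} ⊆ {y | S.Cups h n y} ∪
          (fun y => y * S.rp (h + 1) S.r) '' {y | S.Cups (h + 2) n y} := by
        intro y hy
        rcases cups_right (hy : S.Cups (h + 1) (n + 1) y) with ⟨k', hk, h2⟩ | ⟨y', h2, hy'⟩
        · left
          have hk' : k' = h := by omega
          subst hk'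
          exact h2
        · right
          exact ⟨y', h2, hy'.symm⟩
      have hf2' := hf2.image (fun y => y * S.rp (h + 1) S.r)
      refine ⟨(hf1.union hf2').subset h1, ?_⟩
      rw [bal_succ_succ]
      refine (Set.ncard_le_ncard h1 (hf1.union hf2')).trans ?_
      refine (Set.ncard_union_le _ _).trans ?_
      exact Nat.add_le_add hc1 ((Set.ncard_image_le hf2).trans hc2)

theorem rot_cups {n : ℕ} {y : T} (hn : 1 ≤ n) (h : S.Cups 0 n y) :
    S.Cups 0 n (star S.r * S.ρ y * S.r) := by
  obtain ⟨n', rfl⟩ : ∃ n', n = n' + 1 := ⟨n - 1, by omega⟩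
  rcases cups_left h with ⟨k', y', hk, -, -⟩ | ⟨y', h1, hy⟩
  · omega
  · have h2 : star S.r * S.rp 2 y' = y' * star S.r :=
      slide' S (star_mem' S.r_mem) (cups_mem h1)
    have h3 : star S.r * S.ρ y * S.r = y' * S.r := by
      calc star S.r * S.ρ y * S.r = star S.r * S.rp 2 y' * S.ρ S.r * S.r := by
            rw [hy, map_mul]
            simp only [mul_assoc]
            rfl
        _ = y' * (star S.r * S.ρ S.r) * S.r := by
            rw [h2]
            simp only [mul_assoc]
        _ = y' * S.r := by rw [S.zigzag, mul_one]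
    rw [h3]
    exact cups_trans (cups_padr h1) cups_r

end SubfactorPlanarAlgebra

end Pool.Agent.ST5
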