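import Pool.Agent.ST5.Q.WDefs

/-!
ST6 row W2. Closed walks of a graph that begins with a path. Pure combinatorics.

PROOF. (1) For n ≤ N: (G^n) (e 0) l = ∑_{h ≤ n} (if l = e h then bal n h else 0) for all l. Induction on n: n+1 ≤ N:
 (G^(n+1)) (e 0) l = ∑_m (G^n) (e 0) m * G m l = ∑_{h ≤ n} bal n h * G (e h) l, and h ≤ n ≤ N-1, so `hrow`:
 G (e h) l = [l = e (h+1)] + [h ≥ 1 and l = e (h-1)] (e (h+1) ≠ e (h-1) by injectivity; in any case the `if … else if`); regroup: the
 coefficient of [l = e h'] is bal n (h'-1) + bal n (h'+1) = bal (n+1) h' (bal n h = 0 for h > n: a lemma).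
 Better to state it as two facts: (G^n) (e 0) (e h) = bal n h for h ≤ N, n ≤ N, and (G^n) (e 0) l = 0 if l ≠ e h for all h ≤ n.
(2) (G^(2j)) (e 0) (e 0) = ∑_l (G^j) (e 0) l * (G^j) l (e 0) = ∑_l ((G^j) (e 0) l)^2 (G^j symmetric) = ∑_{h ≤ j} (bal j h)^2 for j ≤ N.
(3) ∑_{h ≤ m+n} bal m h * bal n h = bal (m+n) 0: by induction on m, moving one step:
 ∑_h bal (m+1) h * bal n h = ∑_h bal m h * bal (n+1) h (sums over h < M with M large: both are
 ∑_h (bal m h * bal n (h+1) + bal m (h+1) * bal n h), boundary terms vanish as bal n h = 0 for h > n), m = 0: bal 0 h = [h=0].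
-/

namespace Pool.Agent.ST5

theorem w2_bal_zero (n : ℕ) : ∀ h, n < h → bal n h = 0 := by
  induction n with
  | zero =>
    intro h hh
    obtain ⟨k, rfl⟩ : ∃ k, h = k + 1 := ⟨h - 1, by omega⟩
    exact bal_zero_succ k
  | succ n ih =>
    intro h hh
    obtain ⟨k, rfl⟩ : ∃ k, h = k + 1 := ⟨h - 1, by omega⟩
    rw [bal_succ_succ, ih k (by omega), ih (k + 2) (by omega)]

/-- moving one step from one factor to the other -/
theorem w2_move (m n K : ℕ) (hK : m + 1 + n < K) :
    ∑ h ∈ Finset.range K, bal (m + 1) h * bal n h = ∑ h ∈ Finset.range K, bal m h * bal (n + 1) h := by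
  obtain ⟨K', rfl⟩ : ∃ K', K = K' + 1 := ⟨K - 1, by omega⟩
  have hA : ∑ h ∈ Finset.range (K' + 1), bal m h * bal n (h + 1) =
      ∑ h ∈ Finset.range K', bal m h * bal n (h + 1) := by
    rw [Finset.sum_range_succ, w2_bal_zero m K' (by omega), zero_mul, add_zero]
  have hB : ∑ h ∈ Finset.range (K' + 1), bal m (h + 1) * bal n h =
      ∑ h ∈ Finset.range K', bal m (h + 1) * bal n h := by
    rw [Finset.sum_range_succ, w2_bal_zero m (K' + 1) (by omega), zero_mul, add_zero]
  have hL : ∑ h ∈ Finset.range (K' + 1), bal (m + 1) h * bal n h =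
      ∑ h ∈ Finset.range K', bal m h * bal n (h + 1) + ∑ h ∈ Finset.range (K' + 1), bal m (h + 1) * bal n h := by
    rw [Finset.sum_range_succ' (fun h => bal (m + 1) h * bal n h), bal_succ_zero,
      Finset.sum_range_succ' (fun h => bal m (h + 1) * bal n h), ← add_assoc, ← Finset.sum_add_distrib]
    congr 1
    apply Finset.sum_congr rfl
    intro h _
    rw [bal_succ_succ, add_mul]
  have hR : ∑ h ∈ Finset.range (K' + 1), bal m h * bal (n + 1) h =
      ∑ h ∈ Finset.range (K' + 1), bal m h * bal n (h + 1) + ∑ h ∈ Finset.range K', bal m (h + 1) * bal n h := by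
    rw [Finset.sum_range_succ' (fun h => bal m h * bal (n + 1) h), bal_succ_zero,
      Finset.sum_range_succ' (fun h => bal m h * bal n (h + 1)), add_right_comm, ← Finset.sum_add_distrib]
    congr 1
    apply Finset.sum_congr rfl
    intro h _
    rw [bal_succ_succ, mul_add, add_comm]
  rw [hL, hR, hA, hB]

theorem w2_conv (m : ℕ) : ∀ n K, m + n < K → ∑ h ∈ Finset.range K, bal m h * bal n h = bal (m + n) 0 := by
  induction m with
  | zero =>
    intro n K hK
    obtain ⟨K', rfl⟩ : ∃ K', K = K' + 1 := ⟨K - 1, by omega⟩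
    rw [Finset.sum_range_succ', bal_zero_zero, one_mul, zero_add]
    rw [Finset.sum_eq_zero, zero_add]
    intro h _
    rw [bal_zero_succ, zero_mul]
  | succ m ih =>
    intro n K hK
    rw [w2_move m n K hK, ih (n + 1) K (by omega)]
    congr 1
    omega

/-- a sum supported on the path -/
theorem w2_sum {J : Type*} [Fintype J] [DecidableEq J] (N n : ℕ) (hn : n ≤ N) (e : ℕ → J)
    (hinj : ∀ i ≤ N, ∀ j ≤ N, e i = e j → i = j) (f : J → ℕ) (hf : ∀ l, (∀ h ≤ n, l ≠ e h) → f l = 0) :
    ∑ l, f l = ∑ h ∈ Finset.range (n + 1), f (e h) := by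
  have hi : Set.InjOn e (Finset.range (n + 1) : Set ℕ) := by
    intro a ha b hb hab
    rw [Finset.mem_coe, Finset.mem_range] at ha hb
    exact hinj a (by omega) b (by omega) hab
  rw [← Finset.sum_image (f := f) hi]
  symm
  apply Finset.sum_subset (Finset.subset_univ _)
  intro l _ hl
  apply hf
  intro h hh heq
  apply hl
  rw [Finset.mem_image]
  exact ⟨h, Finset.mem_range.2 (by omega), heq.symm⟩

theorem closed_walks_N {J : Type*} [Fintype J] [DecidableEq J] (G : Matrix J J ℕ)
    (hsym : ∀ i j, G i j = G j i) (N : ℕ) (e : ℕ → J)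
    (hinj : ∀ i ≤ N, ∀ j ≤ N, e i = e j → i = j)
    (hrow : ∀ k, k + 1 ≤ N → ∀ l, G (e k) l =
      if l = e (k + 1) then 1 else if 1 ≤ k ∧ l = e (k - 1) then 1 else 0) :
    ∀ j ≤ N, (G ^ (2 * j)) (e 0) (e 0) = bal (2 * j) 0 := by
  have key : ∀ n ≤ N, (∀ l, (∀ h ≤ n, l ≠ e h) → (G ^ n) (e 0) l = 0) ∧ ∀ k ≤ N, (G ^ n) (e 0) (e k) = bal n k := by
    intro n
    induction n with
    | zero =>
      intro _
      constructor
      · intro l hl
        rw [pow_zero, Matrix.one_apply_ne (hl 0 le_rfl).symm]
      · intro k hk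
        rcases Nat.eq_zero_or_pos k with rfl | hk0
        · rw [pow_zero, Matrix.one_apply_eq, bal_zero_zero]
        · rw [w2_bal_zero 0 k hk0, pow_zero, Matrix.one_apply_ne]
          intro h
          have := hinj 0 (by omega) k hk h
          omega
    | succ n ih =>
      intro hn
      obtain ⟨ih1, ih2⟩ := ih (by omega)
      have hstep : ∀ l, (G ^ (n + 1)) (e 0) l = ∑ h ∈ Finset.range (n + 1), bal n h * G (e h) l := by
        intro l
        rw [pow_succ, Matrix.mul_apply]
        rw [w2_sum N n (by omega) e hinj (fun m => (G ^ n) (e 0) m * G m l) (fun m hm => by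
          rw [ih1 m hm, zero_mul])]
        apply Finset.sum_congr rfl
        intro h hh
        rw [Finset.mem_range] at hh
        rw [ih2 h (by omega)]
      constructor
      · intro l hl
        rw [hstep]
        apply Finset.sum_eq_zero
        intro h hh
        rw [Finset.mem_range] at hh
        rw [hrow h (by omega), if_neg (hl (h + 1) (by omega)), if_neg, mul_zero]
        rintro ⟨h1, h2⟩
        exact hl (h - 1) (by omega) h2
      · intro k hk
        rw [hstep]
        have hG : ∀ h ∈ Finset.range (n + 1), bal n h * G (e h) (e k) =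
            (if k = h + 1 then bal n h else 0) + (if h = k + 1 then bal n h else 0) := by
          intro h hh
          rw [Finset.mem_range] at hh
          rw [hrow h (by omega)]
          have h1 : e k = e (h + 1) ↔ k = h + 1 := ⟨fun h' => hinj k hk (h + 1) (by omega) h', fun h' => by rw [h']⟩
          have h2 : (1 ≤ h ∧ e k = e (h - 1)) ↔ h = k + 1 := by
            constructor
            · rintro ⟨h3, h4⟩
              have := hinj k hk (h - 1) (by omega) h4
              omega
            · intro h3
              subst h3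
              exact ⟨by omega, by rw [Nat.add_sub_cancel]⟩
          simp only [h1, h2]
          by_cases h3 : k = h + 1
          · have h4 : ¬ h = k + 1 := by omega
            rw [if_pos h3, if_pos h3, if_neg h4, mul_one, add_zero]
          · rw [if_neg h3, if_neg h3, zero_add]
            by_cases h4 : h = k + 1
            · rw [if_pos h4, if_pos h4, mul_one]
            · rw [if_neg h4, if_neg h4, mul_zero]
        rw [Finset.sum_congr rfl hG, Finset.sum_add_distrib]
        have h5 : ∑ h ∈ Finset.range (n + 1), (if h = k + 1 then bal n h else 0) = bal n (k + 1) := by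
          rw [Finset.sum_ite_eq']
          split_ifs with h6
          · rfl
          · rw [Finset.mem_range] at h6
            exact (w2_bal_zero n (k + 1) (by omega)).symm
        rw [h5]
        rcases Nat.eq_zero_or_pos k with rfl | hk0
        · rw [bal_succ_zero, Finset.sum_eq_zero, zero_add]
          intro h _
          rw [if_neg (by omega)]
        · obtain ⟨k', rfl⟩ : ∃ k', k = k' + 1 := ⟨k - 1, by omega⟩
          rw [bal_succ_succ]
          congr 1
          have h6 : ∀ h ∈ Finset.range (n + 1), (if k' + 1 = h + 1 then bal n h else 0) =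
              (if h = k' then bal n h else 0) := by
            intro h _
            by_cases h7 : h = k'
            · rw [if_pos h7, if_pos (by omega)]
            · rw [if_neg h7, if_neg (by omega)]
          rw [Finset.sum_congr rfl h6, Finset.sum_ite_eq']
          split_ifs with h7
          · rfl
          · rw [Finset.mem_range] at h7
            exact (w2_bal_zero n k' (by omega)).symm
  intro j hj
  obtain ⟨k1, k2⟩ := key j hj
  have hT : G.transpose = G := by
    ext a b
    rw [Matrix.transpose_apply, hsym]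
  have hTj : ∀ l, (G ^ j) l (e 0) = (G ^ j) (e 0) l := by
    intro l
    have h1 : (G ^ j).transpose = G ^ j := by rw [Matrix.transpose_pow, hT]
    conv_lhs => rw [← h1]
    rw [Matrix.transpose_apply]
  rw [two_mul, pow_add, Matrix.mul_apply]
  rw [w2_sum N j hj e hinj (fun m => (G ^ j) (e 0) m * (G ^ j) m (e 0)) (fun m hm => by rw [k1 m hm, zero_mul])]
  have h1 : ∑ h ∈ Finset.range (j + 1), (G ^ j) (e 0) (e h) * (G ^ j) (e h) (e 0) =
      ∑ h ∈ Finset.range (j + 1), bal j h * bal j h := by
    apply Finset.sum_congr rfl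
    intro h hh
    rw [Finset.mem_range] at hh
    rw [hTj, k2 h (by omega)]
  rw [h1, ← w2_conv j j (j + j + 1) (by omega)]
  apply Finset.sum_subset
  · intro h hh
    rw [Finset.mem_range] at hh ⊢
    omega
  · intro h _ hh
    rw [Finset.mem_range, not_lt] at hh
    rw [w2_bal_zero j h (by omega), zero_mul]

end Pool.Agent.ST5
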