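import Pool.Agent.ST5.P.E2
import Pool.Agent.ST5.Q.UDefs

/-!
ST6: products of cups, ballot numbers (definitions and elementary lemmas).
-/

namespace Pool.Agent.ST5

/-- The number of walks of length `n` from `0` to `h` on the half-line `0, 1, 2, …`. -/
def bal : ℕ → ℕ → ℕ
  | 0, 0 => 1
  | 0, (_ + 1) => 0
  | (n + 1), 0 => bal n 1
  | (n + 1), (h + 1) => bal n h + bal n (h + 2)

lemma bal_zero_zero : bal 0 0 = 1 := by unfold bal; rfl

lemma bal_zero_succ (h : ℕ) : bal 0 (h + 1) = 0 := by unfold bal; rfl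

lemma bal_succ_zero (n : ℕ) : bal (n + 1) 0 = bal n 1 := by conv_lhs => unfold bal

lemma bal_succ_succ (n h : ℕ) : bal (n + 1) (h + 1) = bal n h + bal n (h + 2) := by
  conv_lhs => unfold bal

namespace SubfactorPlanarAlgebra

variable {T : Type*} [Ring T] [StarRing T] [Algebra ℂ T] [StarModule ℂ T]
  {S : SubfactorPlanarAlgebra T}

lemma cups_mem {k n : ℕ} {y : T} (h : S.Cups k n y) : y ∈ S.H k n := by
  induction h with
  | nil => exact S.one_mem _
  | @cons n y i hi _ ih =>
    exact S.mul_mem _ _ _ _ _ (pad_to (n - i) (rp_mem i S.r_mem) (by omega) (by omega)) ih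

lemma cups_trans {k n l : ℕ} {y x : T} (h : S.Cups k n y) (h' : S.Cups l k x) :
    S.Cups l n (y * x) := by
  induction h with
  | nil => simpa using h'
  | cons i hi _ ih =>
    rw [mul_assoc]
    exact Cups.cons i hi ih

lemma cups_padr {k n : ℕ} {y : T} (h : S.Cups k n y) : S.Cups (k + 1) (n + 1) y := by
  induction h with
  | nil => exact Cups.nil _
  | cons i hi _ ih => exact Cups.cons (n := _ + 1) i (by omega) ih

lemma cups_rho {k n : ℕ} {y : T} (h : S.Cups k n y) : S.Cups (k + 1) (n + 1) (S.ρ y) := by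
  induction h with
  | nil => rw [map_one]; exact Cups.nil _
  | cons i hi _ ih =>
    rw [map_mul, ← rp_succ]
    exact Cups.cons (n := _ + 1) (i + 1) (by omega) ih

lemma cups_r : S.Cups 0 2 S.r := by
  have := Cups.cons (S := S) (k := 0) (n := 0) (y := 1) 0 le_rfl (Cups.nil 0)
  simpa using this

lemma cups_le {k n : ℕ} {y : T} (h : S.Cups k n y) : k ≤ n := by
  induction h with
  | nil => exact le_rfl
  | cons i hi _ ih => omega

/-- Two clicks of the rotation. -/
lemma rot_two (x : T) : star (S.R 2) * S.rp 2 x * S.R 2 =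
    star S.r * S.ρ (star S.r * S.ρ x * S.r) * S.r := by
  have := (S.rot_iter 2 x).symm
  simpa using this

end SubfactorPlanarAlgebra

end Pool.Agent.ST5
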